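import Pool.Agent.Lib.MP_fdf47d_co.SD.Defs

section

/-!
# Normed lattices: basic facts
-/

namespace Pool.Agent.Lib.MP_fdf47d_co.SD

open Finset

section
variable {G : Type*} [AddCommGroup G] {ν : G → ℝ}

theorem IsNL.zero (h : IsNL ν) : ν 0 = 0 := by
  have := h.zsmul 0 0
  simpa using this

theorem IsNL.neg (h : IsNL ν) (x : G) : ν (-x) = ν x := by
  have := h.zsmul (-1) x
  simpa using this

theorem IsNL.nonneg (h : IsNL ν) (x : G) : 0 ≤ ν x := by
  have h1 := h.add_le x (-x)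
  rw [h.neg, add_neg_cancel, h.zero] at h1
  linarith

theorem IsNL.sub_le (h : IsNL ν) (x y : G) : ν (x - y) ≤ ν x + ν y := by
  rw [sub_eq_add_neg]; simpa [h.neg] using h.add_le x (-y)

theorem IsNL.nsmul (h : IsNL ν) (m : ℕ) (x : G) : ν (m • x) = m * ν x := by
  have := h.zsmul m x
  simpa using this

theorem IsNL.sum_le (h : IsNL ν) {ι : Type*} (s : Finset ι) (f : ι → G) :
    ν (∑ i ∈ s, f i) ≤ ∑ i ∈ s, ν (f i) := by
  classical
  induction s using Finset.induction_on with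
  | empty => simp [h.zero]
  | insert a s ha ih =>
    rw [sum_insert ha, sum_insert ha]
    exact (h.add_le _ _).trans (by linarith)

theorem IsNL.pos [Module.Free ℤ G] (h : IsNL ν) {x : G} (hx : x ≠ 0) : 0 < ν x := by
  rcases (h.nonneg x).lt_or_eq with h0 | h0
  · exact h0
  · exfalso
    have hinj : Function.Injective (fun m : ℤ => m • x) := fun a b hab =>
      smul_left_injective ℤ hx hab
    have hsub : Set.range (fun m : ℤ => m • x) ⊆ {y | ν y ≤ 0} := by
      rintro _ ⟨m, rfl⟩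
      simp only [Set.mem_setOf_eq, h.zsmul, ← h0, mul_zero, le_refl]
    exact Set.infinite_range_of_injective hinj ((h.finite 0).subset hsub)

theorem IsNL.zero_mem (h : IsNL ν) {t : ℝ} (ht : 0 ≤ t) : (0 : G) ∈ {x | ν x ≤ t} := by
  simpa [h.zero] using ht

theorem IsNL.one_le_ncard (h : IsNL ν) {t : ℝ} (ht : 0 ≤ t) : 1 ≤ {x | ν x ≤ t}.ncard := by
  rw [Nat.succ_le_iff, Set.ncard_pos (h.finite t)]
  exact ⟨0, h.zero_mem ht⟩

/-- A not divisible element. -/
def Prim (x₀ : G) : Prop := x₀ ≠ 0 ∧ ∀ (m : ℤ) (y : G), x₀ = m • y → m = 1 ∨ m = -1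

/-- The quotient norm on `G ⧸ ℤ x₀`: the infimum of `ν x / m` over `m ≥ 1` and `x` in the class
of `m • y`. -/
noncomputable def qn (ν : G → ℝ) (x₀ : G) (y : G ⧸ AddSubgroup.zmultiples x₀) : ℝ :=
  sInf {r : ℝ | ∃ (m : ℕ) (x : G), 1 ≤ m ∧
    (QuotientAddGroup.mk x : G ⧸ AddSubgroup.zmultiples x₀) = m • y ∧ r = ν x / m}

end

end Pool.Agent.Lib.MP_fdf47d_co.SD
end

section

section

/-!
# The quotient norm

The set in the definition of `qn ν x₀ y` is nonempty (take any lift of `y`, `m = 1`) and bounded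
below by `0`.

`qn_mk_le`: `m = 1`.
`exists_lift`: choose `m ≥ 1` and `x'` in the class of `m • y` with `ν x' / m ≤ qn y + ε`, and a
lift `x₁` of `y`: `x' = m x₁ + k x₀` for an integer `k`; let `r` be the integer nearest to `k/m`,
`|k - r m| ≤ m/2`; `x = x₁ + r x₀` has `m x = x' + (r m - k) x₀`, so
`m ν x ≤ ν x' + (m/2) ν x₀`, `ν x ≤ qn y + ε + ν x₀ / 2`.
`isNL_qn`: subadditivity: for `(m, x)`, `(m', x')` take `(m m', m' x + m x')`.
`zsmul` for `a ≠ 0`: `≤`: from `(m, x)` for `y` take `(m, a • x)` for `a • y`; `≥`: from `(m, x)` for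
`a • y` take `(m |a|, ± x)` for `y`; `a = 0`: `qn 0 = 0` (take `x = 0`, `m = 1`).
`finite`: `{qn ≤ t}` is contained in the image of `{ν ≤ t + ν x₀ / 2 + 1}` by `exists_lift`.
-/

namespace Pool.Agent.Lib.MP_fdf47d_co.SD

open Finset

section aux

variable {G : Type*} [AddCommGroup G] {ν : G → ℝ}

private theorem qnorm_bdd (h : IsNL ν) (x₀ : G) (y : G ⧸ AddSubgroup.zmultiples x₀) :
    BddBelow {r : ℝ | ∃ (m : ℕ) (x : G), 1 ≤ m ∧
      (QuotientAddGroup.mk x : G ⧸ AddSubgroup.zmultiples x₀) = m • y ∧ r = ν x / m} := by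
  refine ⟨0, ?_⟩
  rintro r ⟨m, x, -, -, rfl⟩
  exact div_nonneg (h.nonneg x) (Nat.cast_nonneg m)

private theorem qnorm_nonempty (ν : G → ℝ) (x₀ : G) (y : G ⧸ AddSubgroup.zmultiples x₀) :
    {r : ℝ | ∃ (m : ℕ) (x : G), 1 ≤ m ∧
      (QuotientAddGroup.mk x : G ⧸ AddSubgroup.zmultiples x₀) = m • y ∧ r = ν x / m}.Nonempty := by
  obtain ⟨x, hx⟩ := QuotientAddGroup.mk_surjective y
  exact ⟨ν x / (1 : ℕ), 1, x, le_rfl, by rw [one_smul, hx], rfl⟩

private theorem qnorm_le (h : IsNL ν) (x₀ : G) (y : G ⧸ AddSubgroup.zmultiples x₀) {m : ℕ} {x : G}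
    (hm : 1 ≤ m) (hx : (QuotientAddGroup.mk x : G ⧸ AddSubgroup.zmultiples x₀) = m • y) :
    qn ν x₀ y ≤ ν x / m :=
  csInf_le (qnorm_bdd h x₀ y) ⟨m, x, hm, hx, rfl⟩

private theorem qnorm_exists (x₀ : G) (y : G ⧸ AddSubgroup.zmultiples x₀)
    {ε : ℝ} (hε : 0 < ε) : ∃ (m : ℕ) (x : G), 1 ≤ m ∧
      (QuotientAddGroup.mk x : G ⧸ AddSubgroup.zmultiples x₀) = m • y ∧
        ν x / m < qn ν x₀ y + ε := by
  obtain ⟨r, ⟨m, x, hm, hx, rfl⟩, hr⟩ :=
    exists_lt_of_csInf_lt (qnorm_nonempty ν x₀ y) (show qn ν x₀ y < qn ν x₀ y + ε by linarith)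
  exact ⟨m, x, hm, hx, hr⟩

private theorem le_qnorm (x₀ : G) (y : G ⧸ AddSubgroup.zmultiples x₀) {c : ℝ}
    (hc : ∀ (m : ℕ) (x : G), 1 ≤ m →
      (QuotientAddGroup.mk x : G ⧸ AddSubgroup.zmultiples x₀) = m • y → c ≤ ν x / m) :
    c ≤ qn ν x₀ y := by
  refine le_csInf (qnorm_nonempty ν x₀ y) ?_
  rintro r ⟨m, x, hm, hx, rfl⟩
  exact hc m x hm hx

private theorem qnorm_nonneg (h : IsNL ν) (x₀ : G) (y : G ⧸ AddSubgroup.zmultiples x₀) :
    0 ≤ qn ν x₀ y :=
  le_qnorm x₀ y fun m x _ _ => div_nonneg (h.nonneg x) (Nat.cast_nonneg m)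

end aux

theorem qn_mk_le {G : Type*} [AddCommGroup G] {ν : G → ℝ} (h : IsNL ν) (x₀ x : G) :
    qn ν x₀ (QuotientAddGroup.mk x) ≤ ν x := by
  have h1 := qnorm_le h x₀ (QuotientAddGroup.mk x) (m := 1) (x := x) le_rfl (by rw [one_smul])
  rwa [Nat.cast_one, div_one] at h1

theorem exists_lift {G : Type*} [AddCommGroup G] {ν : G → ℝ} (h : IsNL ν) (x₀ : G)
    (y : G ⧸ AddSubgroup.zmultiples x₀) {ε : ℝ} (hε : 0 < ε) :
    ∃ x : G, (QuotientAddGroup.mk x : G ⧸ AddSubgroup.zmultiples x₀) = y ∧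
      ν x ≤ qn ν x₀ y + ν x₀ / 2 + ε := by
  obtain ⟨m, x', hm, hx', hlt⟩ := qnorm_exists (ν := ν) x₀ y hε
  obtain ⟨x₁, hx₁⟩ := QuotientAddGroup.mk_surjective y
  have hm0 : (0 : ℝ) < m := by exact_mod_cast hm
  have hk : ∃ k : ℤ, k • x₀ = -(m • x₁) + x' := by
    have h1 : (QuotientAddGroup.mk (m • x₁) : G ⧸ AddSubgroup.zmultiples x₀) =
        QuotientAddGroup.mk x' := by
      rw [hx', ← hx₁]
      rfl
    have h2 := QuotientAddGroup.eq.1 h1
    exact AddSubgroup.mem_zmultiples_iff.1 h2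
  obtain ⟨k, hk⟩ := hk
  set r : ℤ := round ((k : ℝ) / m) with hr
  have hrr : |(k : ℝ) / m - r| ≤ 1 / 2 := abs_sub_round _
  have hrk : |((m * r - k : ℤ) : ℝ)| ≤ m / 2 := by
    have h1 : ((m * r - k : ℤ) : ℝ) = -(m * ((k : ℝ) / m - r)) := by
      push_cast
      field_simp
      ring
    rw [h1, abs_neg, abs_mul, abs_of_pos hm0]
    calc (m : ℝ) * |(k : ℝ) / m - r| ≤ m * (1 / 2) := mul_le_mul_of_nonneg_left hrr hm0.le
      _ = m / 2 := by ring
  refine ⟨x₁ + r • x₀, ?_, ?_⟩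
  · rw [← hx₁]
    refine (QuotientAddGroup.eq.2 ?_).symm
    rw [neg_add_cancel_left]
    exact AddSubgroup.mem_zmultiples_iff.2 ⟨r, rfl⟩
  · have h1 : m • (x₁ + r • x₀) = x' + (m * r - k : ℤ) • x₀ := by
      rw [sub_smul, hk, smul_add, mul_smul]
      simp only [natCast_zsmul]
      abel
    have h2 : (m : ℝ) * ν (x₁ + r • x₀) ≤ ν x' + m / 2 * ν x₀ := by
      rw [← h.nsmul, h1]
      refine (h.add_le _ _).trans ?_
      rw [h.zsmul]
      have := mul_le_mul_of_nonneg_right hrk (h.nonneg x₀)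
      linarith
    have h3 : ν x' < m * (qn ν x₀ y + ε) := by
      rw [div_lt_iff₀ hm0] at hlt
      linarith
    have h4 : (m : ℝ) * ν (x₁ + r • x₀) ≤ m * (qn ν x₀ y + ν x₀ / 2 + ε) := by
      nlinarith
    exact le_of_mul_le_mul_left h4 hm0

theorem isNL_qn {G : Type*} [AddCommGroup G] {ν : G → ℝ} (h : IsNL ν) (x₀ : G) :
    IsNL (qn ν x₀) := by
  refine ⟨fun y y' => ?_, fun a y => ?_, fun t => ?_⟩
  · refine le_of_forall_pos_le_add fun ε hε => ?_
    obtain ⟨m, x, hm, hx, hlt⟩ := qnorm_exists (ν := ν) x₀ y (half_pos hε)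
    obtain ⟨m', x', hm', hx', hlt'⟩ := qnorm_exists (ν := ν) x₀ y' (half_pos hε)
    have hm0 : (0 : ℝ) < m := by exact_mod_cast hm
    have hm0' : (0 : ℝ) < m' := by exact_mod_cast hm'
    have h1 : (QuotientAddGroup.mk (m' • x + m • x') : G ⧸ AddSubgroup.zmultiples x₀) =
        (m * m') • (y + y') := by
      have h2 : (QuotientAddGroup.mk (m' • x + m • x') : G ⧸ AddSubgroup.zmultiples x₀) =
          m' • (QuotientAddGroup.mk x : G ⧸ AddSubgroup.zmultiples x₀) +
            m • (QuotientAddGroup.mk x' : G ⧸ AddSubgroup.zmultiples x₀) := rfl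
      rw [h2, hx, hx', smul_add, mul_smul, mul_smul, smul_smul, smul_smul, smul_smul,
        mul_comm m' m]
    have h3 := qnorm_le h x₀ (y + y') (Nat.mul_pos hm hm') h1
    have h4 : ν (m' • x + m • x') ≤ m' * ν x + m * ν x' := by
      refine (h.add_le _ _).trans ?_
      rw [h.nsmul, h.nsmul]
    have h5 : ν (m' • x + m • x') / ((m * m' : ℕ) : ℝ) ≤ ν x / m + ν x' / m' := by
      rw [Nat.cast_mul, div_add_div _ _ hm0.ne' hm0'.ne']
      refine div_le_div_of_nonneg_right (h4.trans (le_of_eq ?_)) (by positivity)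
      ring
    linarith
  · rcases eq_or_ne a 0 with rfl | ha
    · rw [zero_smul, Int.cast_zero, abs_zero, zero_mul]
      refine le_antisymm ?_ (qnorm_nonneg h x₀ _)
      have h1 := qn_mk_le h x₀ 0
      rw [h.zero] at h1
      exact h1
    · have ha0 : (0 : ℝ) < |(a : ℝ)| := abs_pos.2 (by exact_mod_cast ha)
      refine le_antisymm ?_ ?_
      · rw [← div_le_iff₀' ha0]
        refine le_qnorm x₀ y fun m x hm hx => ?_
        rw [div_le_iff₀' ha0]
        have h1 : (QuotientAddGroup.mk (a • x) : G ⧸ AddSubgroup.zmultiples x₀) =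
            m • (a • y) := by
          have h2 : (QuotientAddGroup.mk (a • x) : G ⧸ AddSubgroup.zmultiples x₀) =
            a • (QuotientAddGroup.mk x : G ⧸ AddSubgroup.zmultiples x₀) := rfl
          rw [h2, hx, smul_comm]
        have h3 := qnorm_le h x₀ (a • y) hm h1
        rw [h.zsmul, mul_div_assoc] at h3
        exact h3
      · refine le_qnorm x₀ (a • y) fun m x hm hx => ?_
        have hm0 : (0 : ℝ) < m := by exact_mod_cast hm
        have hna : 1 ≤ a.natAbs := Int.natAbs_pos.2 ha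
        have habs : |(a : ℝ)| = (a.natAbs : ℝ) := by
          rw [Nat.cast_natAbs, Int.cast_abs]
        have key : ∃ x'' : G, ν x'' = ν x ∧
            (QuotientAddGroup.mk x'' : G ⧸ AddSubgroup.zmultiples x₀) =
              (m * a.natAbs) • y := by
          rcases Int.natAbs_eq a with h1 | h1
          · refine ⟨x, rfl, ?_⟩
            rw [hx, mul_smul]
            congr 1
            conv_lhs => rw [h1]
            rw [natCast_zsmul]
          · refine ⟨-x, h.neg x, ?_⟩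
            have h2 : (QuotientAddGroup.mk (-x) : G ⧸ AddSubgroup.zmultiples x₀) =
              -(QuotientAddGroup.mk x : G ⧸ AddSubgroup.zmultiples x₀) := rfl
            rw [h2, hx, mul_smul, ← smul_neg]
            congr 1
            conv_lhs => rw [h1]
            rw [neg_smul, neg_neg, natCast_zsmul]
        obtain ⟨x'', hx1, hx2⟩ := key
        have h3 := qnorm_le h x₀ y (Nat.mul_pos hm hna) hx2
        rw [hx1, Nat.cast_mul, ← habs, ← div_div, le_div_iff₀ ha0] at h3
        linarith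
  · refine ((h.finite (t + ν x₀ / 2 + 1)).image
      (fun x => (QuotientAddGroup.mk x : G ⧸ AddSubgroup.zmultiples x₀))).subset ?_
    intro y hy
    obtain ⟨x, hx, hle⟩ := exists_lift h x₀ y one_pos
    refine ⟨x, ?_, hx⟩
    simp only [Set.mem_setOf_eq] at hy ⊢
    linarith

end Pool.Agent.Lib.MP_fdf47d_co.SD
end

section

/-!
# The quotient of a lattice by a primitive vector

`prim_mem`: let `m y = k x₀`, `m ≠ 0`, `g = gcd(m,k)`, `m = g m'`, `k = g k'`; `G` is torsion free,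
so `m' y = k' x₀`; with `u m' + w k' = 1` and `z = u x₀ + w y` we get
`m' z = u m' x₀ + w m' y = (u m' + w k') x₀ = x₀`, so `m' = ± 1` by primitivity and `y = ± k' x₀`.

`free_quot`: finitely generated and torsion free by `prim_mem`
(`Module.free_of_finite_type_torsion_free'`).  `finrank_quot`: rank-nullity
(`ℤ x₀` has rank one as `x₀ ≠ 0` in a torsion-free group).
-/

namespace Pool.Agent.Lib.MP_fdf47d_co.SD

open Finset

theorem prim_mem {G : Type*} [AddCommGroup G] [Module.Free ℤ G] {x₀ : G} (hx : Prim x₀) {m : ℤ}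
    (hm : m ≠ 0) {y : G} (h : m • y ∈ AddSubgroup.zmultiples x₀) :
    y ∈ AddSubgroup.zmultiples x₀ := by
  rw [AddSubgroup.mem_zmultiples_iff] at h
  obtain ⟨k, hk⟩ := h
  have hg : Int.gcd m k ≠ 0 := by
    intro h0
    exact hm (Int.gcd_eq_zero_iff.mp h0).1
  have hg' : (Int.gcd m k : ℤ) ≠ 0 := by exact_mod_cast hg
  obtain ⟨m', hm'⟩ : (Int.gcd m k : ℤ) ∣ m := Int.gcd_dvd_left ..
  obtain ⟨k', hk'⟩ : (Int.gcd m k : ℤ) ∣ k := Int.gcd_dvd_right ..
  have hmk : m' • y = k' • x₀ := by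
    have h1 : (Int.gcd m k : ℤ) • (m' • y) = (Int.gcd m k : ℤ) • (k' • x₀) := by
      rw [smul_smul, smul_smul, ← hm', ← hk', hk]
    exact smul_right_injective G hg' h1
  have hbez := Int.gcd_eq_gcd_ab m k
  set u := Int.gcdA m k with hu
  set w := Int.gcdB m k with hw
  have h1 : u * m' + w * k' = 1 := by
    have : (Int.gcd m k : ℤ) * (u * m' + w * k') = (Int.gcd m k : ℤ) * 1 := by
      calc (Int.gcd m k : ℤ) * (u * m' + w * k')
          = ((Int.gcd m k : ℤ) * m') * u + ((Int.gcd m k : ℤ) * k') * w := by ring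
        _ = m * u + k * w := by rw [← hm', ← hk']
        _ = (Int.gcd m k : ℤ) * 1 := by rw [← hbez, mul_one]
    exact mul_left_cancel₀ hg' this
  have hz : x₀ = m' • (u • x₀ + w • y) := by
    have : m' • (u • x₀ + w • y) = (u * m') • x₀ + w • (m' • y) := by
      rw [smul_add, smul_smul, smul_smul, smul_smul, mul_comm m' u, mul_comm m' w]
    rw [this, hmk, smul_smul, ← add_smul, h1, one_smul]
  rw [AddSubgroup.mem_zmultiples_iff]
  rcases hx.2 m' _ hz with h2 | h2
  · refine ⟨k', ?_⟩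
    rw [← hmk, h2, one_smul]
  · refine ⟨-k', ?_⟩
    rw [neg_smul, ← hmk, h2, neg_smul, one_smul, neg_neg]

theorem finite_quot {G : Type*} [AddCommGroup G] [Module.Finite ℤ G] (x₀ : G) :
    Module.Finite ℤ (G ⧸ AddSubgroup.zmultiples x₀) :=
  Module.Finite.of_surjective
    (QuotientAddGroup.mk' (AddSubgroup.zmultiples x₀)).toIntLinearMap
    (QuotientAddGroup.mk'_surjective _)

theorem free_quot {G : Type*} [AddCommGroup G] [Module.Free ℤ G] [Module.Finite ℤ G] {x₀ : G}
    (hx : Prim x₀) : Module.Free ℤ (G ⧸ AddSubgroup.zmultiples x₀) := by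
  have := finite_quot x₀
  have : Module.IsTorsionFree ℤ (G ⧸ AddSubgroup.zmultiples x₀) := by
    refine Module.IsTorsionFree.of_smul_eq_zero fun r y hy => ?_
    obtain ⟨y, rfl⟩ := QuotientAddGroup.mk'_surjective _ y
    by_cases hr : r = 0
    · exact Or.inl hr
    · right
      have h1 : (QuotientAddGroup.mk' (AddSubgroup.zmultiples x₀)) (r • y) = 0 := by
        rw [map_zsmul]; exact hy
      rw [QuotientAddGroup.mk'_apply, QuotientAddGroup.eq_zero_iff] at h1
      rw [QuotientAddGroup.mk'_apply, QuotientAddGroup.eq_zero_iff]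
      exact prim_mem hx hr h1
  exact Module.free_of_finite_type_torsion_free'

theorem finrank_quot {G : Type*} [AddCommGroup G] [Module.Free ℤ G] [Module.Finite ℤ G] {x₀ : G}
    (hx : Prim x₀) :
    Module.finrank ℤ (G ⧸ AddSubgroup.zmultiples x₀) + 1 = Module.finrank ℤ G := by
  set f : G →ₗ[ℤ] (G ⧸ AddSubgroup.zmultiples x₀) :=
    (QuotientAddGroup.mk' (AddSubgroup.zmultiples x₀)).toIntLinearMap with hf
  have hs : Function.Surjective f := QuotientAddGroup.mk'_surjective _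
  have hker : LinearMap.ker f = Submodule.span ℤ {x₀} := by
    ext y
    rw [LinearMap.mem_ker, Submodule.mem_span_singleton]
    show (QuotientAddGroup.mk' (AddSubgroup.zmultiples x₀)) y = 0 ↔ _
    rw [QuotientAddGroup.mk'_apply, QuotientAddGroup.eq_zero_iff,
      AddSubgroup.mem_zmultiples_iff]
  have h1 := (LinearMap.ker f).finrank_quotient_add_finrank
  have h2 : Module.finrank ℤ (G ⧸ LinearMap.ker f)
      = Module.finrank ℤ (G ⧸ AddSubgroup.zmultiples x₀) :=
    (f.quotKerEquivOfSurjective hs).finrank_eq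
  have h3 : Module.finrank ℤ (LinearMap.ker f) = 1 := by
    rw [hker]
    have := (LinearEquiv.toSpanNonzeroSingleton ℤ G x₀ hx.1).finrank_eq
    rw [← this, Module.finrank_self]
  rw [h2, h3] at h1
  exact h1

end Pool.Agent.Lib.MP_fdf47d_co.SD
end

section

/-!
# Reduced bases

Induction on `n`, `C 0 = 1`, `C (n+1) = 1 + 4 * (n + 1) * C n`.

Step: let `x₀ ≠ 0` be a nonzero vector of minimal `ν` (exists: `G ≠ 0`, take any `z ≠ 0`, the set
`{ν ≤ ν z}` is finite, minimise over its nonzero elements).  `Prim x₀`: if `x₀ = m • y` then `y ≠ 0`,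
`ν x₀ = |m| ν y ≥ |m| ν x₀` and `ν x₀ > 0`, so `|m| ≤ 1`, `m ≠ 0`.
Let `G' = G ⧸ ℤ x₀` (free of rank `n`, `isNL_qn`), `ν' = qn ν x₀`.  If `y ≠ 0` in `G'` then
`ν x₀ ≤ 4 ν' y`: otherwise `exists_lift` with `ε` small gives a lift `x` with
`ν x ≤ ν' y + ν x₀ / 2 + ε < ν x₀`, so `x = 0`, `y = 0`.  So every `y ≠ 0` has a lift with
`ν x ≤ ν' y + ν x₀ / 2 + ν x₀ / 4 ≤ 4 ν' y`.
Induction: basis `b'` of `G'` with `|coord_i y| ν' (b'_i) ≤ C_n ν' y`.  Let `b_i` be lifts with
`ν (b_i) ≤ 4 ν' (b'_i)` and `b = (x₀, b_1, …, b_n)`.  It is a basis of `G`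
(`Module.Basis.mkFinCons` with the submodule spanned by the `b_i`, or directly), with
`coord_{i+1} x = coord'_i (mk x)`, so `|coord_{i+1} x| ν (b_i) ≤ 4 C_n ν' (mk x) ≤ 4 C_n ν x`, and
`coord_0 x • x₀ = x - Σ coord_{i+1} x • b_i`, so
`|coord_0 x| ν x₀ ≤ ν x + 4 n C_n ν x ≤ C (n+1) ν x`.
-/

namespace Pool.Agent.Lib.MP_fdf47d_co.SD

open Finset

theorem exists_reduced_basis (n : ℕ) : ∃ C : ℝ, 1 ≤ C ∧
    ∀ (G : Type) [AddCommGroup G] [Module.Free ℤ G] [Module.Finite ℤ G],
      Module.finrank ℤ G = n → ∀ ν : G → ℝ, IsNL ν →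
      ∃ b : Module.Basis (Fin n) ℤ G, ∀ x i, |((b.repr x i : ℤ) : ℝ)| * ν (b i) ≤ C * ν x := by
  classical
  induction n with
  | zero =>
    exact ⟨1, le_rfl, fun G _ _ _ hG ν hν =>
      ⟨(Module.finBasis ℤ G).reindex (finCongr hG), fun x i => i.elim0⟩⟩
  | succ n ih =>
    obtain ⟨C, hC, ih⟩ := ih
    have hn0 : (0 : ℝ) ≤ n := Nat.cast_nonneg n
    refine ⟨1 + 4 * (n + 1) * C, by nlinarith [mul_nonneg hn0 (by linarith : (0 : ℝ) ≤ C)],
      fun G _ _ _ hG ν hν => ?_⟩
    have hnt : Nontrivial G := Module.nontrivial_of_finrank_pos (R := ℤ) (by omega)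
    obtain ⟨z, hz⟩ := exists_ne (0 : G)
    obtain ⟨x₀, hx₀, hmin⟩ := Set.exists_min_image ({x | ν x ≤ ν z} ∩ {x | x ≠ 0}) ν
      ((hν.finite (ν z)).inter_of_left _) ⟨z, le_refl (ν z), hz⟩
    have hx0 : x₀ ≠ 0 := hx₀.2
    have hmin' : ∀ x : G, x ≠ 0 → ν x₀ ≤ ν x := by
      intro x hx
      by_cases h : ν x ≤ ν z
      · exact hmin x ⟨h, hx⟩
      · exact hx₀.1.trans (not_le.1 h).le
    have hpos : 0 < ν x₀ := hν.pos hx0
    have hprim : Prim x₀ := by
      refine ⟨hx0, fun m y hmy => ?_⟩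
      have hy : y ≠ 0 := by
        rintro rfl
        exact hx0 (by rw [hmy, smul_zero])
      have h1 : ν x₀ = |(m : ℝ)| * ν y := by
        conv_lhs => rw [hmy]
        exact hν.zsmul m y
      have h2 := hmin' y hy
      have hm0 : m ≠ 0 := by
        rintro rfl
        exact hx0 (by rw [hmy, zero_smul])
      have h3 : |(m : ℝ)| ≤ 1 := by
        by_contra hcon
        push Not at hcon
        have : ν x₀ < |(m : ℝ)| * ν y := by nlinarith [hν.nonneg y]
        linarith
      have h4 : |m| ≤ 1 := by exact_mod_cast h3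
      have h5 := abs_le.1 h4
      omega
    have hfinq := finite_quot (G := G) x₀
    have hfreeq := free_quot hprim
    have hrank := finrank_quot hprim
    have hnl := isNL_qn hν x₀
    obtain ⟨b', hb'⟩ := ih (G ⧸ AddSubgroup.zmultiples x₀) (by omega) (qn ν x₀) hnl
    -- lifts
    have hlow : ∀ y : G ⧸ AddSubgroup.zmultiples x₀, y ≠ 0 → ν x₀ ≤ 4 * qn ν x₀ y := by
      intro y hy
      by_contra hcon
      push Not at hcon
      obtain ⟨x, hx, hle⟩ := exists_lift hν x₀ y (show (0 : ℝ) < ν x₀ / 8 by linarith)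
      have hxne : x ≠ 0 := by
        rintro rfl
        exact hy hx.symm
      have := hmin' x hxne
      linarith
    have hlift : ∀ i : Fin n, ∃ x : G,
        (QuotientAddGroup.mk x : G ⧸ AddSubgroup.zmultiples x₀) = b' i ∧
          ν x ≤ 4 * qn ν x₀ (b' i) := by
      intro i
      obtain ⟨x, hx, hle⟩ := exists_lift hν x₀ (b' i) (show (0 : ℝ) < ν x₀ / 4 by linarith)
      have := hlow (b' i) (b'.ne_zero i)
      exact ⟨x, hx, by linarith⟩
    choose b hb hbν using hlift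
    let mk : G →ₗ[ℤ] (G ⧸ AddSubgroup.zmultiples x₀) :=
      (QuotientAddGroup.mk' (AddSubgroup.zmultiples x₀)).toIntLinearMap
    have hmk : ∀ x : G, mk x = (QuotientAddGroup.mk x : G ⧸ AddSubgroup.zmultiples x₀) :=
      fun x => rfl
    have hmk0 : mk x₀ = 0 := by
      rw [hmk]
      exact (QuotientAddGroup.eq_zero_iff x₀).2 (AddSubgroup.mem_zmultiples x₀)
    let v : Fin (n + 1) → G := Fin.cons x₀ b
    have hv0 : v 0 = x₀ := rfl
    have hvs : ∀ i : Fin n, v i.succ = b i := fun i => rfl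
    have hsum : ∀ c : Fin (n + 1) → ℤ, mk (∑ i, c i • v i) = ∑ i : Fin n, c i.succ • b' i := by
      intro c
      rw [Fin.sum_univ_succ, map_add, map_smul, hv0, hmk0, smul_zero, zero_add, map_sum]
      refine Finset.sum_congr rfl fun i _ => ?_
      rw [map_smul, hvs, hmk, hb]
    have hli : LinearIndependent ℤ v := by
      rw [Fintype.linearIndependent_iff]
      intro c hc
      have h1 := hsum c
      rw [hc, map_zero] at h1
      have h2 := (Fintype.linearIndependent_iff.1 b'.linearIndependent)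
        (fun i => c i.succ) h1.symm
      have h3 : c 0 • x₀ = 0 := by
        rw [Fin.sum_univ_succ] at hc
        have h4 : ∑ i : Fin n, c i.succ • v i.succ = 0 :=
          Finset.sum_eq_zero fun i _ => by rw [h2 i, zero_smul]
        rw [h4, add_zero, hv0] at hc
        exact hc
      intro i
      refine Fin.cases ?_ (fun i => h2 i) i
      exact (smul_eq_zero.1 h3).resolve_right hx0
    have hspan : ⊤ ≤ Submodule.span ℤ (Set.range v) := by
      intro x _
      have h1 : mk (x - ∑ i : Fin n, b'.repr (mk x) i • b i) = 0 := by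
        rw [map_sub, map_sum, sub_eq_zero]
        conv_lhs => rw [← b'.sum_repr (mk x)]
        refine Finset.sum_congr rfl fun i _ => ?_
        rw [map_smul, hmk (b i), hb]
      rw [hmk, QuotientAddGroup.eq_zero_iff, AddSubgroup.mem_zmultiples_iff] at h1
      obtain ⟨k, hk⟩ := h1
      have h2 : x = k • x₀ + ∑ i : Fin n, b'.repr (mk x) i • b i := by
        rw [hk, sub_add_cancel]
      rw [h2]
      refine Submodule.add_mem _ (Submodule.smul_mem _ _ (Submodule.subset_span ⟨0, rfl⟩))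
        (Submodule.sum_mem _ fun i _ =>
          Submodule.smul_mem _ _ (Submodule.subset_span ⟨i.succ, rfl⟩))
    let B : Module.Basis (Fin (n + 1)) ℤ G := Module.Basis.mk hli hspan
    have hB : ∀ i, B i = v i := fun i => by simp [B]
    have hrepr : ∀ x (i : Fin n), B.repr x i.succ = b'.repr (mk x) i := by
      intro x i
      have h1 : ∑ j, B.repr x j • v j = x := by
        conv_rhs => rw [← B.sum_repr x]
        exact Finset.sum_congr rfl fun j _ => by rw [hB]
      have h2 := hsum fun j => B.repr x j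
      rw [h1] at h2
      rw [h2, map_sum, Finsupp.finsetSum_apply]
      simp [Finsupp.single_apply]
    have hmain : ∀ x (i : Fin n), |((B.repr x i.succ : ℤ) : ℝ)| * ν (b i) ≤ 4 * C * ν x := by
      intro x i
      rw [hrepr]
      have h1 := hb' (mk x) i
      have h2 : qn ν x₀ (mk x) ≤ ν x := qn_mk_le hν x₀ x
      calc |((b'.repr (mk x) i : ℤ) : ℝ)| * ν (b i)
          ≤ |((b'.repr (mk x) i : ℤ) : ℝ)| * (4 * qn ν x₀ (b' i)) :=
            mul_le_mul_of_nonneg_left (hbν i) (abs_nonneg _)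
        _ = 4 * (|((b'.repr (mk x) i : ℤ) : ℝ)| * qn ν x₀ (b' i)) := by ring
        _ ≤ 4 * (C * qn ν x₀ (mk x)) := by linarith
        _ ≤ 4 * (C * ν x) := by
            have := mul_le_mul_of_nonneg_left h2 (by linarith : (0 : ℝ) ≤ C)
            linarith
        _ = 4 * C * ν x := by ring
    refine ⟨B, fun x i => ?_⟩
    have hνx := hν.nonneg x
    have hCν : 0 ≤ C * ν x := mul_nonneg (by linarith) hνx
    have hnCν : 0 ≤ n * (C * ν x) := mul_nonneg hn0 hCν
    rw [hB]
    refine Fin.cases ?_ (fun i => ?_) i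
    · rw [hv0]
      have h1 : B.repr x 0 • x₀ = x - ∑ i : Fin n, B.repr x i.succ • b i := by
        rw [eq_sub_iff_add_eq]
        conv_rhs => rw [← B.sum_repr x, Fin.sum_univ_succ]
        rw [hB, hv0]
        congr 1
        exact Finset.sum_congr rfl fun j _ => by rw [hB, hvs]
      have h2 : |((B.repr x 0 : ℤ) : ℝ)| * ν x₀ = ν (x - ∑ i : Fin n, B.repr x i.succ • b i) := by
        rw [← hν.zsmul, h1]
      rw [h2]
      have h3 : ν (∑ i : Fin n, B.repr x i.succ • b i) ≤ n * (4 * C * ν x) := by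
        refine (hν.sum_le _ _).trans ?_
        have h4 : ∑ i : Fin n, ν (B.repr x i.succ • b i) ≤ ∑ _i : Fin n, 4 * C * ν x := by
          refine Finset.sum_le_sum fun i _ => ?_
          rw [hν.zsmul]
          exact hmain x i
        refine h4.trans (le_of_eq ?_)
        rw [Finset.sum_const, Finset.card_univ, Fintype.card_fin, nsmul_eq_mul]
      have h5 := hν.sub_le x (∑ i : Fin n, B.repr x i.succ • b i)
      nlinarith
    · rw [hvs]
      have := hmain x i
      nlinarith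

end Pool.Agent.Lib.MP_fdf47d_co.SD
end
end
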