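import Mathlib

/-!
# Szemerédi–Trotter in prime planes for point sets of small doubling: definitions and basic API

`V p = 𝔽_p²`, `dot` the bilinear form, `bx N` the box of integer vectors `|x_i| ≤ N_i`,
`lin v x = Σ x_i • v_i`, `nn v N l` the number of `x` in the box with `dot l (lin v x) = 0`, `jj`
the rational dimension of the span of these `x`.
-/

namespace Pool.Agent.Lib.MP_fdf47d_co.SD

open Finset

/-- The affine plane over `𝔽_p`. -/
abbrev V (p : ℕ) := ZMod p × ZMod p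

/-- The standard bilinear form. -/
def dot {p : ℕ} (l z : V p) : ZMod p := l.1 * z.1 + l.2 * z.2

/-- The rotation; `dot (perp l) l = 0`. -/
def perp {p : ℕ} (l : V p) : V p := (-l.2, l.1)

section API
variable {p : ℕ}

theorem dot_add (l z w : V p) : dot l (z + w) = dot l z + dot l w := by
  simp only [dot, Prod.fst_add, Prod.snd_add]; ring

theorem dot_sub (l z w : V p) : dot l (z - w) = dot l z - dot l w := by
  simp only [dot, Prod.fst_sub, Prod.snd_sub]; ring

theorem dot_neg (l z : V p) : dot l (-z) = -dot l z := by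
  simp only [dot, Prod.fst_neg, Prod.snd_neg]; ring

@[simp] theorem dot_zero (l : V p) : dot l 0 = 0 := by simp [dot]

@[simp] theorem zero_dot (z : V p) : dot 0 z = 0 := by simp [dot]

theorem dot_comm (l z : V p) : dot l z = dot z l := by simp only [dot]; ring

theorem add_dot (l m z : V p) : dot (l + m) z = dot l z + dot m z := by
  simp only [dot, Prod.fst_add, Prod.snd_add]; ring

theorem smul_dot (c : ZMod p) (l z : V p) : dot (c • l) z = c * dot l z := by
  simp only [dot, Prod.smul_fst, Prod.smul_snd, smul_eq_mul]; ring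

theorem dot_smul (c : ZMod p) (l z : V p) : dot l (c • z) = c * dot l z := by
  simp only [dot, Prod.smul_fst, Prod.smul_snd, smul_eq_mul]; ring

theorem dot_zsmul (c : ℤ) (l z : V p) : dot l (c • z) = (c : ZMod p) * dot l z := by
  simp only [dot, zsmul_eq_mul, Prod.fst_mul, Prod.snd_mul, Prod.fst_intCast, Prod.snd_intCast]
  ring

theorem dot_sum {ι : Type*} (s : Finset ι) (l : V p) (f : ι → V p) :
    dot l (∑ i ∈ s, f i) = ∑ i ∈ s, dot l (f i) := by
  classical
  induction s using Finset.induction_on with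
  | empty => simp
  | insert a s ha ih => rw [sum_insert ha, sum_insert ha, dot_add, ih]

theorem sum_dot {ι : Type*} (s : Finset ι) (f : ι → V p) (z : V p) :
    dot (∑ i ∈ s, f i) z = ∑ i ∈ s, dot (f i) z := by
  rw [dot_comm, dot_sum]; exact sum_congr rfl fun i _ => dot_comm _ _

@[simp] theorem dot_perp_self (l : V p) : dot (perp l) l = 0 := by simp only [dot, perp]; ring

theorem perp_perp (l : V p) : perp (perp l) = -l := by simp [perp, Prod.ext_iff]

theorem perp_injective : Function.Injective (perp (p := p)) := by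
  intro l m h
  simp only [perp, Prod.mk.injEq, neg_inj] at h
  exact Prod.ext h.2 h.1

@[simp] theorem perp_eq_zero {l : V p} : perp l = 0 ↔ l = 0 := by
  constructor
  · intro h
    simp only [perp, Prod.mk_eq_zero, neg_eq_zero] at h
    exact Prod.ext h.2 h.1
  · rintro rfl; simp [perp]

/-- A vector orthogonal to `perp l` is a multiple of `l ≠ 0`. -/
theorem exists_smul_of_dot_perp [Fact p.Prime] {l z : V p} (hl : l ≠ 0)
    (h : dot (perp l) z = 0) : ∃ c : ZMod p, z = c • l := by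
  simp only [dot, perp] at h
  by_cases h1 : l.1 = 0
  · have h2 : l.2 ≠ 0 := fun h2 => hl (Prod.ext h1 h2)
    refine ⟨z.2 / l.2, Prod.ext ?_ ?_⟩
    · have : l.2 * z.1 = 0 := by rw [h1] at h; linear_combination -h
      have : z.1 = 0 := by
        rcases mul_eq_zero.mp this with h | h
        · exact absurd h h2
        · exact h
      simp [this, h1]
    · simp only [Prod.smul_snd, smul_eq_mul]; field_simp
  · refine ⟨z.1 / l.1, Prod.ext ?_ ?_⟩
    · simp only [Prod.smul_fst, smul_eq_mul]; field_simp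
    · simp only [Prod.smul_snd, smul_eq_mul]
      field_simp
      linear_combination h

/-- Two vectors `l ≠ 0`, `m` with the same nonzero orthogonal vector are proportional. -/
theorem exists_smul_of_dot_eq_zero [Fact p.Prime] {l m z : V p} (hl : l ≠ 0) (hz : z ≠ 0)
    (h1 : dot l z = 0) (h2 : dot m z = 0) : ∃ c : ZMod p, m = c • l := by
  -- both are orthogonal to `z`, hence multiples of `perp z`
  have key : ∀ w : V p, dot w z = 0 → ∃ c : ZMod p, w = c • perp z := by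
    intro w hw
    have hpz : perp z ≠ 0 := by simpa using hz
    refine exists_smul_of_dot_perp hpz ?_
    rw [perp_perp, dot_comm, dot_neg, hw, neg_zero]
  obtain ⟨c, hc⟩ := key l h1
  obtain ⟨d, hd⟩ := key m h2
  have hc0 : c ≠ 0 := by rintro rfl; exact hl (by simpa using hc)
  refine ⟨d / c, ?_⟩
  rw [hc, hd, smul_smul, div_mul_cancel₀ _ hc0]

end API

section Box
variable {ι : Type*} [Fintype ι] [DecidableEq ι]

/-- The integer box `|x_i| ≤ N_i`. -/
noncomputable def bx (N : ι → ℕ) : Finset (ι → ℤ) :=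
  Fintype.piFinset fun i => Finset.Icc (-(N i : ℤ)) (N i)

theorem mem_bx {N : ι → ℕ} {x : ι → ℤ} : x ∈ bx N ↔ ∀ i, |x i| ≤ (N i : ℤ) := by
  simp only [bx, Fintype.mem_piFinset, Finset.mem_Icc, abs_le]

theorem zero_mem_bx (N : ι → ℕ) : (0 : ι → ℤ) ∈ bx N := by
  rw [mem_bx]; intro i; simp

theorem bx_mono {N N' : ι → ℕ} (h : ∀ i, N i ≤ N' i) : bx N ⊆ bx N' := by
  intro x hx
  rw [mem_bx] at hx ⊢
  exact fun i => (hx i).trans (by exact_mod_cast h i)

theorem neg_mem_bx {N : ι → ℕ} {x : ι → ℤ} (h : x ∈ bx N) : -x ∈ bx N := by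
  rw [mem_bx] at h ⊢; intro i; simpa using h i

theorem sub_mem_bx {N N' : ι → ℕ} {x y : ι → ℤ} (hx : x ∈ bx N) (hy : y ∈ bx N') :
    x - y ∈ bx (fun i => N i + N' i) := by
  rw [mem_bx] at hx hy ⊢
  intro i
  push_cast
  exact (abs_sub _ _).trans (add_le_add (hx i) (hy i))

theorem sub_mem_bx_two {N : ι → ℕ} {x y : ι → ℤ} (hx : x ∈ bx N) (hy : y ∈ bx N) :
    x - y ∈ bx (fun i => 2 * N i) := by
  have := sub_mem_bx hx hy
  simpa [two_mul] using this

theorem card_bx (N : ι → ℕ) : (bx N).card = ∏ i, (2 * N i + 1) := by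
  simp only [bx, Fintype.card_piFinset, Int.card_Icc]
  refine prod_congr rfl fun i _ => ?_
  omega

theorem card_bx_pos (N : ι → ℕ) : 0 < (bx N).card := card_pos.mpr ⟨0, zero_mem_bx N⟩

/-- The size bounds `∏ N_i ≤ |bx N| ≤ 3^n ∏ N_i`. -/
theorem prod_le_card_bx (N : ι → ℕ) : (∏ i, (N i : ℝ)) ≤ ((bx N).card : ℝ) := by
  rw [card_bx]; push_cast
  refine prod_le_prod (fun i _ => by positivity) fun i _ => ?_
  have : (0 : ℝ) ≤ N i := by positivity
  linarith

theorem card_bx_le {N : ι → ℕ} (hN : ∀ i, 1 ≤ N i) :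
    ((bx N).card : ℝ) ≤ 3 ^ Fintype.card ι * ∏ i, (N i : ℝ) := by
  rw [card_bx]; push_cast
  calc (∏ i, (2 * (N i : ℝ) + 1)) ≤ ∏ i, (3 * (N i : ℝ)) := by
        refine prod_le_prod (fun i _ => by positivity) fun i _ => ?_
        have : (1 : ℝ) ≤ N i := by exact_mod_cast hN i
        linarith
    _ = 3 ^ Fintype.card ι * ∏ i, (N i : ℝ) := by
        rw [prod_mul_distrib, prod_const, Finset.card_univ]

omit [DecidableEq ι] in
theorem one_le_prod {N : ι → ℕ} (hN : ∀ i, 1 ≤ N i) : (1 : ℝ) ≤ ∏ i, (N i : ℝ) := by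
  have : ∀ i ∈ (univ : Finset ι), (1 : ℝ) ≤ N i := fun i _ => by exact_mod_cast hN i
  calc (1 : ℝ) = ∏ i : ι, (1 : ℝ) := by simp
    _ ≤ _ := prod_le_prod (fun _ _ => zero_le_one) this

end Box

section Lin
variable {p : ℕ} {ι : Type*} [Fintype ι]

/-- The linear combination `Σ x_i • v_i`. -/
def lin (v : ι → V p) (x : ι → ℤ) : V p := ∑ i, x i • v i

theorem lin_add (v : ι → V p) (x y : ι → ℤ) : lin v (x + y) = lin v x + lin v y := by
  simp only [lin, Pi.add_apply, add_smul, sum_add_distrib]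

theorem lin_sub (v : ι → V p) (x y : ι → ℤ) : lin v (x - y) = lin v x - lin v y := by
  simp only [lin, Pi.sub_apply, sub_smul, sum_sub_distrib]

theorem lin_neg (v : ι → V p) (x : ι → ℤ) : lin v (-x) = -lin v x := by
  simp only [lin, Pi.neg_apply, neg_smul, sum_neg_distrib]

@[simp] theorem lin_zero (v : ι → V p) : lin v 0 = 0 := by simp [lin]

theorem dot_lin (l : V p) (v : ι → V p) (x : ι → ℤ) :
    dot l (lin v x) = ∑ i, (x i : ZMod p) * dot l (v i) := by
  rw [lin, dot_sum]; exact sum_congr rfl fun i _ => dot_zsmul _ _ _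

end Lin

section Main
variable {p : ℕ} {ι : Type*} [Fintype ι] [DecidableEq ι]

/-- No nonzero relation in the box. -/
def Proper (v : ι → V p) (N : ι → ℕ) : Prop := ∀ x ∈ bx N, lin v x = 0 → x = 0

/-- The number of box vectors in the kernel of `l`. -/
noncomputable def nn (v : ι → V p) (N : ι → ℕ) (l : V p) : ℕ :=
  ((bx N).filter fun x => dot l (lin v x) = 0).card

/-- The dimension of the rational span of the box vectors in the kernel of `l`. -/
noncomputable def jj (v : ι → V p) (N : ι → ℕ) (l : V p) : ℕ :=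
  Module.finrank ℚ (Submodule.span ℚ
    ((fun (x : ι → ℤ) (i : ι) => ((x i : ℤ) : ℚ)) '' {x | x ∈ bx N ∧ dot l (lin v x) = 0}))

theorem Proper.mono {v : ι → V p} {N N' : ι → ℕ} (h : Proper v N') (hN : ∀ i, N i ≤ N' i) :
    Proper v N := fun x hx => h x (bx_mono hN hx)

theorem one_le_nn (v : ι → V p) (N : ι → ℕ) (l : V p) : 1 ≤ nn v N l := by
  refine card_pos.mpr ⟨0, ?_⟩
  simp [zero_mem_bx]

theorem nn_mono (v : ι → V p) {N N' : ι → ℕ} (hN : ∀ i, N i ≤ N' i) (l : V p) :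
    nn v N l ≤ nn v N' l :=
  card_le_card (filter_subset_filter _ (bx_mono hN))

theorem nn_le_card_bx (v : ι → V p) (N : ι → ℕ) (l : V p) : nn v N l ≤ (bx N).card :=
  card_filter_le _ _

theorem jj_le (v : ι → V p) (N : ι → ℕ) (l : V p) : jj v N l ≤ Fintype.card ι := by
  unfold jj
  refine (Submodule.finrank_le _).trans ?_
  simp

/-- In a proper system of full size, `N_i < p`. -/
theorem Proper.lt [Fact p.Prime] {v : ι → V p} {N : ι → ℕ} (h : Proper v N) (i : ι) :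
    N i < p := by
  by_contra hcon
  push Not at hcon
  have hmem : (Pi.single i (p : ℤ) : ι → ℤ) ∈ bx N := by
    rw [mem_bx]
    intro j
    by_cases hj : j = i
    · subst hj; simp only [Pi.single_eq_same, Nat.abs_cast]; exact_mod_cast hcon
    · simp [Pi.single_eq_of_ne hj]
  have hlin : lin v (Pi.single i (p : ℤ)) = 0 := by
    unfold lin
    rw [sum_eq_single i]
    · rw [Pi.single_eq_same]
      ext
      · simp
      · simp
    · intro j _ hj; simp [Pi.single_eq_of_ne hj]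
    · simp
  have := congrFun (h _ hmem hlin) i
  simp only [Pi.single_eq_same, Pi.zero_apply, Nat.cast_eq_zero] at this
  exact (Fact.out : p.Prime).ne_zero this

end Main

/-! ## The counting statements -/

/-- **(G)** for rank `n` with constant `C`. -/
def GStmt (n : ℕ) (C : ℝ) : Prop :=
  ∀ (ι : Type) [Fintype ι] [DecidableEq ι], Fintype.card ι = n →
  ∀ (p : ℕ) [Fact p.Prime] (v : ι → V p) (N : ι → ℕ), (∀ i, 1 ≤ N i) → Proper v N →
  ∀ k : ℝ, C * (1 + (∏ i, (N i : ℝ)) / p) ≤ k →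
    (((univ : Finset (V p)).filter fun l => l ≠ 0 ∧ k ≤ (nn v N l : ℝ)).card : ℝ)
      ≤ C * p * (1 + (∏ i, (N i : ℝ)) / k ^ 2)

/-- The part of **(G)** with `2 * jj ≤ n`. -/
def AStmt (n : ℕ) (C : ℝ) : Prop :=
  ∀ (ι : Type) [Fintype ι] [DecidableEq ι], Fintype.card ι = n →
  ∀ (p : ℕ) [Fact p.Prime] (v : ι → V p) (N : ι → ℕ), (∀ i, 1 ≤ N i) → Proper v N →
  ∀ k : ℝ, C * (1 + (∏ i, (N i : ℝ)) / p) ≤ k →
    (((univ : Finset (V p)).filter fun l =>
        l ≠ 0 ∧ k ≤ (nn v N l : ℝ) ∧ 2 * jj v N l ≤ n).card : ℝ)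
      ≤ C * p * (1 + (∏ i, (N i : ℝ)) / k ^ 2)

/-- The part of **(G)** with `n < 2 * jj`. -/
def BStmt (n : ℕ) (C : ℝ) : Prop :=
  ∀ (ι : Type) [Fintype ι] [DecidableEq ι], Fintype.card ι = n →
  ∀ (p : ℕ) [Fact p.Prime] (v : ι → V p) (N : ι → ℕ), (∀ i, 1 ≤ N i) → Proper v N →
  ∀ k : ℝ, C * (1 + (∏ i, (N i : ℝ)) / p) ≤ k →
    (((univ : Finset (V p)).filter fun l =>
        l ≠ 0 ∧ k ≤ (nn v N l : ℝ) ∧ n < 2 * jj v N l).card : ℝ)
      ≤ C * p * (1 + (∏ i, (N i : ℝ)) / k ^ 2)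

theorem GStmt.mono {n : ℕ} {C C' : ℝ} (h : GStmt n C) (hC : C ≤ C') : GStmt n C' := by
  intro ι _ _ hι p _ v N hN hP k hk
  have hM : (0 : ℝ) ≤ (∏ i, (N i : ℝ)) := prod_nonneg fun i _ => by positivity
  have h1 : C * (1 + (∏ i, (N i : ℝ)) / p) ≤ k :=
    le_trans (mul_le_mul_of_nonneg_right hC (by positivity)) hk
  refine (h ι hι p v N hN hP k h1).trans ?_
  have h2 : (0 : ℝ) ≤ p := by positivity
  exact mul_le_mul_of_nonneg_right (mul_le_mul_of_nonneg_right hC h2) (by positivity)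

theorem AStmt.mono {n : ℕ} {C C' : ℝ} (h : AStmt n C) (hC : C ≤ C') : AStmt n C' := by
  intro ι _ _ hι p _ v N hN hP k hk
  have hM : (0 : ℝ) ≤ (∏ i, (N i : ℝ)) := prod_nonneg fun i _ => by positivity
  have h1 : C * (1 + (∏ i, (N i : ℝ)) / p) ≤ k :=
    le_trans (mul_le_mul_of_nonneg_right hC (by positivity)) hk
  refine (h ι hι p v N hN hP k h1).trans ?_
  have h2 : (0 : ℝ) ≤ p := by positivity
  exact mul_le_mul_of_nonneg_right (mul_le_mul_of_nonneg_right hC h2) (by positivity)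

theorem BStmt.mono {n : ℕ} {C C' : ℝ} (h : BStmt n C) (hC : C ≤ C') : BStmt n C' := by
  intro ι _ _ hι p _ v N hN hP k hk
  have hM : (0 : ℝ) ≤ (∏ i, (N i : ℝ)) := prod_nonneg fun i _ => by positivity
  have h1 : C * (1 + (∏ i, (N i : ℝ)) / p) ≤ k :=
    le_trans (mul_le_mul_of_nonneg_right hC (by positivity)) hk
  refine (h ι hι p v N hN hP k h1).trans ?_
  have h2 : (0 : ℝ) ≤ p := by positivity
  exact mul_le_mul_of_nonneg_right (mul_le_mul_of_nonneg_right hC h2) (by positivity)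

/-- `A` and `B` give `G`. -/
theorem gStmt_of_ab {n : ℕ} {C₁ C₂ : ℝ} (h1 : 1 ≤ C₁) (h2 : 1 ≤ C₂) (hA : AStmt n C₁)
    (hB : BStmt n C₂) : GStmt n (C₁ + C₂) := by
  intro ι _ _ hι p _ v N hN hP k hk
  have hM : (0 : ℝ) ≤ (∏ i, (N i : ℝ)) := prod_nonneg fun i _ => by positivity
  have hle1 : C₁ * (1 + (∏ i, (N i : ℝ)) / p) ≤ k :=
    le_trans (mul_le_mul_of_nonneg_right (by linarith) (by positivity)) hk
  have hle2 : C₂ * (1 + (∏ i, (N i : ℝ)) / p) ≤ k :=
    le_trans (mul_le_mul_of_nonneg_right (by linarith) (by positivity)) hk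
  have e1 := hA ι hι p v N hN hP k hle1
  have e2 := hB ι hι p v N hN hP k hle2
  have hsub : ((univ : Finset (V p)).filter fun l => l ≠ 0 ∧ k ≤ (nn v N l : ℝ)) ⊆
      ((univ : Finset (V p)).filter fun l =>
        l ≠ 0 ∧ k ≤ (nn v N l : ℝ) ∧ 2 * jj v N l ≤ n) ∪
      ((univ : Finset (V p)).filter fun l =>
        l ≠ 0 ∧ k ≤ (nn v N l : ℝ) ∧ n < 2 * jj v N l) := by
    intro l hl
    simp only [mem_union, mem_filter, mem_univ, true_and] at hl ⊢
    rcases le_or_gt (2 * jj v N l) n with h | h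
    · exact Or.inl ⟨hl.1, hl.2, h⟩
    · exact Or.inr ⟨hl.1, hl.2, h⟩
  have hcard := (card_le_card hsub).trans (card_union_le _ _)
  have hcard' : (((univ : Finset (V p)).filter fun l => l ≠ 0 ∧ k ≤ (nn v N l : ℝ)).card : ℝ) ≤
      (((univ : Finset (V p)).filter fun l =>
        l ≠ 0 ∧ k ≤ (nn v N l : ℝ) ∧ 2 * jj v N l ≤ n).card : ℝ) +
      (((univ : Finset (V p)).filter fun l =>
        l ≠ 0 ∧ k ≤ (nn v N l : ℝ) ∧ n < 2 * jj v N l).card : ℝ) := by
    exact_mod_cast hcard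
  calc _ ≤ _ := hcard'
    _ ≤ C₁ * p * (1 + (∏ i, (N i : ℝ)) / k ^ 2) + C₂ * p * (1 + (∏ i, (N i : ℝ)) / k ^ 2) :=
        add_le_add e1 e2
    _ = _ := by ring

/-! ## Dual systems -/

/-- `(u, N')` is dual to `(v, N)`: `b_i` is an integer lift of the functional `dot (u_i)` on the
`v_j`, combinations with coefficients in `bx N'` are `δ`-small, and every `c₀`-small integer lift
of a functional is such a combination. -/
structure DualSys {p : ℕ} {ι κ : Type*} [Fintype ι] [DecidableEq ι] [Fintype κ] [DecidableEq κ]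
    (v : ι → V p) (N : ι → ℕ) (u : κ → V p) (N' : κ → ℕ) (b : κ → ι → ℤ) (δ c₀ : ℝ) : Prop where
  lift : ∀ i j, ((b i j : ℤ) : ZMod p) = dot (u i) (v j)
  indep : LinearIndependent ℤ b
  one_le : ∀ i, 1 ≤ N' i
  small : ∀ x ∈ bx N', ∀ j, |((∑ i, x i * b i j : ℤ) : ℝ)| * N j ≤ δ * p
  expand : ∀ W : ι → ℤ, (∃ μ : V p, ∀ j, ((W j : ℤ) : ZMod p) = dot μ (v j)) →
    (∀ j, |((W j : ℤ) : ℝ)| * N j ≤ c₀ * p) → ∃ x ∈ bx N', ∀ j, W j = ∑ i, x i * b i j

/-! ## Normed lattices -/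

/-- A norm on a torsion-free abelian group with finite balls (positivity is automatic). -/
structure IsNL {G : Type*} [AddCommGroup G] (ν : G → ℝ) : Prop where
  add_le : ∀ x y, ν (x + y) ≤ ν x + ν y
  zsmul : ∀ (m : ℤ) (x : G), ν (m • x) = |(m : ℝ)| * ν x
  finite : ∀ t : ℝ, {x | ν x ≤ t}.Finite

/-! ## Lines and incidences -/

/-- A line of the plane, as in the problem. -/
def IsLine {p : ℕ} (ℓ : Finset (V p)) : Prop :=
  ∃ a b c : ZMod p, (a, b) ≠ (0, 0) ∧ ∀ z : V p, z ∈ ℓ ↔ a * z.1 + b * z.2 + c = 0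

/-- The line `dot l z = c`. -/
def ln {p : ℕ} [Fact p.Prime] (l : V p) (c : ZMod p) : Finset (V p) :=
  univ.filter fun z => dot l z = c

@[simp] theorem mem_ln {p : ℕ} [Fact p.Prime] {l : V p} {c : ZMod p} {z : V p} :
    z ∈ ln l c ↔ dot l z = c := by simp [ln]

theorem isLine_ln {p : ℕ} [Fact p.Prime] {l : V p} (hl : l ≠ 0) (c : ZMod p) :
    IsLine (ln l c) := by
  refine ⟨l.1, l.2, -c, by simpa [Prod.ext_iff] using hl, fun z => ?_⟩
  rw [mem_ln, dot]
  constructor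
  · intro h; rw [h]; ring
  · intro h; linear_combination h

theorem IsLine.exists_ln {p : ℕ} [Fact p.Prime] {ℓ : Finset (V p)} (h : IsLine ℓ) :
    ∃ l : V p, l ≠ 0 ∧ ∃ c : ZMod p, ℓ = ln l c := by
  obtain ⟨a, b, c, hab, h⟩ := h
  refine ⟨(a, b), hab, -c, ?_⟩
  ext z
  rw [h, mem_ln, dot]
  constructor
  · intro h; linear_combination h
  · intro h; linear_combination h

/-- The bound `M^{2/3} n^{2/3} + M n / p + M + n`. -/
noncomputable def TT (p : ℕ) (M n : ℝ) : ℝ :=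
  M ^ (2 / 3 : ℝ) * n ^ (2 / 3 : ℝ) + M * n / p + M + n

theorem TT_nonneg {p : ℕ} {M n : ℝ} (hM : 0 ≤ M) (hn : 0 ≤ n) : 0 ≤ TT p M n := by
  unfold TT; positivity

theorem TT_mono {p : ℕ} {M M' n : ℝ} (hM : 0 ≤ M) (h : M ≤ M') (hn : 0 ≤ n) :
    TT p M n ≤ TT p M' n := by
  unfold TT
  have h1 : M ^ (2 / 3 : ℝ) ≤ M' ^ (2 / 3 : ℝ) := Real.rpow_le_rpow hM h (by norm_num)
  have h2 : M ^ (2 / 3 : ℝ) * n ^ (2 / 3 : ℝ) ≤ M' ^ (2 / 3 : ℝ) * n ^ (2 / 3 : ℝ) :=
    mul_le_mul_of_nonneg_right h1 (by positivity)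
  have h3 : M * n / p ≤ M' * n / p :=
    div_le_div_of_nonneg_right (mul_le_mul_of_nonneg_right h hn) (by positivity)
  linarith

/-- `TT` grows at most linearly in `M`. -/
theorem TT_mul_le {p : ℕ} {M n a : ℝ} (hM : 0 ≤ M) (ha : 1 ≤ a) (hn : 0 ≤ n) :
    TT p (a * M) n ≤ a * TT p M n := by
  unfold TT
  have h1 : (a * M) ^ (2 / 3 : ℝ) ≤ a * M ^ (2 / 3 : ℝ) := by
    rw [Real.mul_rpow (by linarith) hM]
    refine mul_le_mul_of_nonneg_right ?_ (by positivity)
    calc a ^ (2 / 3 : ℝ) ≤ a ^ (1 : ℝ) := Real.rpow_le_rpow_of_exponent_le ha (by norm_num)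
      _ = a := Real.rpow_one a
  have h2 : (a * M) ^ (2 / 3 : ℝ) * n ^ (2 / 3 : ℝ) ≤ a * M ^ (2 / 3 : ℝ) * n ^ (2 / 3 : ℝ) :=
    mul_le_mul_of_nonneg_right h1 (by positivity)
  have h3 : a * M * n / p = a * (M * n / p) := by ring
  have h4 : n ≤ a * n := by nlinarith
  rw [h3]
  nlinarith

end Pool.Agent.Lib.MP_fdf47d_co.SD
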