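import Pool.Agent.Lib.MP_fdf47d_co.SD.Defs

section

/-!
# First moment (E1) and the degenerate case

`card_dot_eq_zero`: for `z ≠ 0` exactly `p` vectors `l` satisfy `dot l z = 0`
(they are the multiples of `perp z`, see `exists_smul_of_dot_perp`).

`card_two_le_nn`: an `l` with `2 ≤ nn v N l` has `x ≠ 0` in `bx N` with `dot l (lin v x) = 0`, and
`lin v x ≠ 0` by properness.  So the set is contained in the union over `x ∈ bx N`, `x ≠ 0` of sets
of size `p`.

`card_two_le_nn_of_degenerate`: if all `v_i` are orthogonal to `μ₀ ≠ 0`, then so is every `lin v x`;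
an `l ≠ 0` with `2 ≤ nn v N l` is orthogonal to some `z = lin v x ≠ 0`, `dot μ₀ z = 0`, so
`l = c • μ₀` (`exists_smul_of_dot_eq_zero`); at most `p` such `l`.
-/

namespace Pool.Agent.Lib.MP_fdf47d_co.SD

open Finset

private theorem firstMoment_exists_ne {p : ℕ} {ι : Type} [Fintype ι] [DecidableEq ι]
    (v : ι → V p) (N : ι → ℕ) (hP : Proper v N) {l : V p} (h : 2 ≤ nn v N l) :
    ∃ x ∈ bx N, x ≠ 0 ∧ lin v x ≠ 0 ∧ dot l (lin v x) = 0 := by
  unfold nn at h
  obtain ⟨x, hx, hx0⟩ := Finset.exists_mem_ne (Nat.lt_of_succ_le h) (0 : ι → ℤ)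
  rw [mem_filter] at hx
  exact ⟨x, hx.1, hx0, fun h0 => hx0 (hP x hx.1 h0), hx.2⟩

theorem card_dot_eq_zero {p : ℕ} [Fact p.Prime] {z : V p} (hz : z ≠ 0) :
    ((univ : Finset (V p)).filter fun l => dot l z = 0).card = p := by
  have hpz : perp z ≠ 0 := by simpa using hz
  have himg : ((univ : Finset (V p)).filter fun l => dot l z = 0) =
      (univ : Finset (ZMod p)).image fun c => c • perp z := by
    ext l
    simp only [mem_filter, mem_univ, true_and, mem_image]
    constructor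
    · intro h
      obtain ⟨c, hc⟩ := exists_smul_of_dot_perp hpz (z := l) (by
        rw [perp_perp, dot_comm, dot_neg, h, neg_zero])
      exact ⟨c, hc.symm⟩
    · rintro ⟨c, rfl⟩
      rw [smul_dot, dot_perp_self, mul_zero]
  rw [himg, card_image_of_injective, card_univ, ZMod.card]
  intro a b hab
  exact smul_left_injective _ hpz hab

theorem card_two_le_nn {p : ℕ} [Fact p.Prime] {ι : Type} [Fintype ι] [DecidableEq ι]
    (v : ι → V p) (N : ι → ℕ) (hP : Proper v N) :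
    (((univ : Finset (V p)).filter fun l => l ≠ 0 ∧ 2 ≤ nn v N l).card : ℝ)
      ≤ p * (bx N).card := by
  have hsub : ((univ : Finset (V p)).filter fun l => l ≠ 0 ∧ 2 ≤ nn v N l) ⊆
      ((bx N).filter fun x => lin v x ≠ 0).biUnion fun x =>
        (univ : Finset (V p)).filter fun l => dot l (lin v x) = 0 := by
    intro l hl
    simp only [mem_filter, mem_univ, true_and] at hl
    obtain ⟨x, hx, -, h1, h2⟩ := firstMoment_exists_ne v N hP hl.2
    simp only [mem_biUnion, mem_filter, mem_univ, true_and]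
    exact ⟨x, ⟨hx, h1⟩, h2⟩
  have h1 : ((univ : Finset (V p)).filter fun l => l ≠ 0 ∧ 2 ≤ nn v N l).card ≤
      (bx N).card * p := by
    refine (card_le_card hsub).trans ((card_biUnion_le_card_mul _ _ p ?_).trans ?_)
    · intro x hx
      exact (card_dot_eq_zero (mem_filter.1 hx).2).le
    · exact Nat.mul_le_mul_right _ (card_filter_le _ _)
  calc (((univ : Finset (V p)).filter fun l => l ≠ 0 ∧ 2 ≤ nn v N l).card : ℝ)
      ≤ (((bx N).card * p : ℕ) : ℝ) := by exact_mod_cast h1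
    _ = p * (bx N).card := by push_cast; ring

theorem card_two_le_nn_of_degenerate {p : ℕ} [Fact p.Prime] {ι : Type} [Fintype ι]
    [DecidableEq ι] (v : ι → V p) (N : ι → ℕ) (hP : Proper v N) {μ₀ : V p} (hμ : μ₀ ≠ 0)
    (h : ∀ i, dot μ₀ (v i) = 0) :
    ((univ : Finset (V p)).filter fun l => l ≠ 0 ∧ 2 ≤ nn v N l).card ≤ p := by
  have hsub : ((univ : Finset (V p)).filter fun l => l ≠ 0 ∧ 2 ≤ nn v N l) ⊆
      (univ : Finset (ZMod p)).image fun c => c • μ₀ := by
    intro l hl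
    simp only [mem_filter, mem_univ, true_and] at hl
    obtain ⟨x, -, -, h1, h2⟩ := firstMoment_exists_ne v N hP hl.2
    have h3 : dot μ₀ (lin v x) = 0 := by
      rw [dot_lin]
      exact sum_eq_zero fun i _ => by rw [h i, mul_zero]
    obtain ⟨c, hc⟩ := exists_smul_of_dot_eq_zero hμ h1 h3 h2
    simp only [mem_image, mem_univ, true_and]
    exact ⟨c, hc.symm⟩
  refine (card_le_card hsub).trans (card_image_le.trans ?_)
  rw [card_univ, ZMod.card]

end Pool.Agent.Lib.MP_fdf47d_co.SD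
end

section

section

/-!
# The kernel of a functional on a box is at most a Bohr set (L3)

Let `n = card ι`, `m_i = ⌊c₀ p / N_i⌋₊`, `J_i = m_i + 1 > c₀ p / N_i`, `m_i ≤ p/8`.  For `y ∈ ZMod p`
let `g_i y = ‖Σ_{t=0}^{m_i} e(t y / p)‖² / J_i²` (`e(t y / p)` = additive character
`ZMod.stdAddChar (t * y)`).
(1) `g_i ≥ 0`, and `g_i (z : ZMod p) ≥ 1/2` for integers `|z| ≤ N_i`: the phases `2 π t z / p` have
absolute value `≤ 2 π c₀ ≤ π/4`, so every term has real part `≥ cos (π/4) = √2/2`, so the sum has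
real part `≥ J_i √2/2`.
(2) Cast `(bx N) → (ι → ZMod p)`: every fibre has at most `2^n` elements (the interval
`[-N_i, N_i]` has `2 N_i + 1 ≤ 2 p - 1` elements, so at most two in a residue class).  Hence
`|K| ≤ Σ_{x ∈ K} ∏ 2 g_i(x_i) ≤ 4^n Σ_{y : ι → ZMod p, Σ y_i a_i = 0} ∏ g_i (y_i)`,
`K` the set on the left hand side.
(3) Orthogonality `1[s = 0] = (1/p) Σ_c e(c s / p)`:
`Σ_{y, Σ y_i a_i = 0} ∏ g_i(y_i) = (1/p) Σ_c ∏_i (Σ_{y ∈ ZMod p} g_i(y) e(c a_i y / p))`
(`Finset.prod_univ_sum`), and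
`Σ_y g_i(y) e(c a_i y / p) = (p / J_i²) #{(t,t') ∈ [0,m_i]² : t - t' + c a_i = 0 in ZMod p}`,
which is `0` unless `c a_i = t' - t` with `|t' - t| ≤ m_i`, i.e. `|valMinAbs (c a_i)| ≤ m_i`
(`m_i < p/2`), and is at most `(p / J_i²) J_i = p / J_i ≤ N_i / c₀` (for each `t` at most one `t'`,
`m_i < p`).
(4) So `Σ ≤ (1/p) ∏ (N_i / c₀) * |bohr a N c₀|`; multiply by `4^n p`.
(Any other proof is fine; (3) can be done with complex numbers or by counting
`(y, t, t')` directly: `Σ_y e(y s/p) = p 1[s = 0]`, `AddChar.sum_eq_ite` / `ZMod` lemmas.)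
-/

namespace Pool.Agent.Lib.MP_fdf47d_co.SD

open Finset

/-- The Bohr set of the `c` with all `c a_i` small. -/
noncomputable def bohr {p : ℕ} [Fact p.Prime] {ι : Type*} [Fintype ι] (a : ι → ZMod p)
    (N : ι → ℕ) (c₀ : ℝ) : Finset (ZMod p) := by
  classical exact univ.filter fun c => ∀ i, |((c * a i).valMinAbs : ℝ)| * N i ≤ c₀ * p

theorem mem_bohr {p : ℕ} [Fact p.Prime] {ι : Type*} [Fintype ι] {a : ι → ZMod p}
    {N : ι → ℕ} {c₀ : ℝ} {c : ZMod p} :
    c ∈ bohr a N c₀ ↔ ∀ i, |((c * a i).valMinAbs : ℝ)| * N i ≤ c₀ * p := by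
  simp [bohr]

private theorem bohr_char_sum {p : ℕ} [Fact p.Prime] {ι : Type*} (s : Finset ι)
    (f : ι → ZMod p) :
    (ZMod.stdAddChar (∑ i ∈ s, f i) : ℂ) = ∏ i ∈ s, ZMod.stdAddChar (f i) := by
  classical
  induction s using Finset.induction_on with
  | empty => simp
  | insert a s ha ih => rw [sum_insert ha, prod_insert ha, AddChar.map_add_eq_mul, ih]

private noncomputable def bohrG (p : ℕ) [Fact p.Prime] (m : ℕ) (y : ZMod p) : ℝ :=
  ‖∑ t ∈ range (m + 1), (ZMod.stdAddChar ((t : ZMod p) * y) : ℂ)‖ ^ 2 / ((m : ℝ) + 1) ^ 2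

private theorem bohrG_nonneg {p : ℕ} [Fact p.Prime] (m : ℕ) (y : ZMod p) : 0 ≤ bohrG p m y := by
  unfold bohrG; positivity

private noncomputable def bohrR (p : ℕ) [Fact p.Prime] (m : ℕ) (s : ZMod p) : ℕ :=
  ((range (m + 1) ×ˢ range (m + 1)).filter fun q : ℕ × ℕ =>
    (q.1 : ZMod p) - (q.2 : ZMod p) + s = 0).card

private theorem bohr_fourier {p : ℕ} [Fact p.Prime] (m : ℕ) (s : ZMod p) :
    ∑ y : ZMod p, (bohrG p m y : ℂ) * ZMod.stdAddChar (s * y) =
      (p : ℂ) * (bohrR p m s : ℂ) / ((m : ℂ) + 1) ^ 2 := by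
  classical
  have h1 : ∀ y : ZMod p, (bohrG p m y : ℂ) * ZMod.stdAddChar (s * y) =
      (∑ q ∈ range (m + 1) ×ˢ range (m + 1),
        (ZMod.stdAddChar (y * ((q.1 : ZMod p) - (q.2 : ZMod p) + s)) : ℂ)) /
        ((m : ℂ) + 1) ^ 2 := by
    intro y
    unfold bohrG
    push_cast
    rw [← Complex.mul_conj', map_sum, sum_mul_sum, ← sum_product', div_mul_eq_mul_div, sum_mul]
    congr 1
    refine sum_congr rfl fun q _ => ?_
    rw [← AddChar.map_neg_eq_conj, ← AddChar.map_add_eq_mul, ← AddChar.map_add_eq_mul]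
    congr 1
    ring
  rw [sum_congr rfl fun y _ => h1 y, ← sum_div, sum_comm]
  congr 1
  have h2 : ∀ q ∈ range (m + 1) ×ˢ range (m + 1),
      ∑ y : ZMod p, (ZMod.stdAddChar (y * ((q.1 : ZMod p) - (q.2 : ZMod p) + s)) : ℂ) =
        if (q.1 : ZMod p) - (q.2 : ZMod p) + s = 0 then (p : ℂ) else 0 := by
    intro q _
    rw [AddChar.sum_mulShift _ (ZMod.isPrimitive_stdAddChar p), ZMod.card]
    split_ifs <;> simp
  rw [sum_congr rfl h2, ← sum_filter, sum_const, nsmul_eq_mul, mul_comm]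
  rfl

private theorem bohr_orth {p : ℕ} [Fact p.Prime] {ι : Type} [Fintype ι] [DecidableEq ι]
    (a : ι → ZMod p) (f : ι → ZMod p → ℂ) :
    (p : ℂ) * ∑ y ∈ (univ : Finset (ι → ZMod p)).filter (fun y => ∑ i, y i * a i = 0),
      ∏ i, f i (y i) = ∑ c : ZMod p, ∏ i, ∑ y : ZMod p, f i y * ZMod.stdAddChar (c * a i * y) := by
  have h1 : ∀ c : ZMod p, ∏ i, ∑ y : ZMod p, f i y * ZMod.stdAddChar (c * a i * y) =
      ∑ y : ι → ZMod p, (∏ i, f i (y i)) * ZMod.stdAddChar (c * ∑ i, y i * a i) := by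
    intro c
    rw [Finset.prod_univ_sum, Fintype.piFinset_univ]
    refine sum_congr rfl fun y _ => ?_
    rw [prod_mul_distrib]
    congr 1
    rw [mul_sum, bohr_char_sum]
    exact prod_congr rfl fun i _ => by congr 1; ring
  rw [sum_congr rfl fun c _ => h1 c, sum_comm, mul_sum]
  have h2 : ∀ y : ι → ZMod p, ∑ c : ZMod p, (∏ i, f i (y i)) *
      (ZMod.stdAddChar (c * ∑ i, y i * a i) : ℂ) =
        if ∑ i, y i * a i = 0 then (p : ℂ) * ∏ i, f i (y i) else 0 := by
    intro y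
    rw [← mul_sum, AddChar.sum_mulShift _ (ZMod.isPrimitive_stdAddChar p), ZMod.card]
    split_ifs
    · rw [mul_comm]
    · simp
  rw [sum_congr rfl fun y _ => h2 y, ← sum_filter]

private theorem bohrG_half {p : ℕ} [Fact p.Prime] (m N : ℕ) (z : ℤ) (hz : |z| ≤ (N : ℤ))
    (hm : (m : ℝ) * N ≤ p / 8) : 1 / 2 ≤ bohrG p m (z : ZMod p) := by
  have hp : (0 : ℝ) < p := by exact_mod_cast (Fact.out : p.Prime).pos
  have hterm : ∀ t ∈ range (m + 1),
      √2 / 2 ≤ (ZMod.stdAddChar ((t : ZMod p) * (z : ZMod p)) : ℂ).re := by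
    intro t ht
    have htm : t ≤ m := Nat.lt_succ_iff.1 (mem_range.1 ht)
    have h1 : (t : ZMod p) * (z : ZMod p) = (((t : ℤ) * z : ℤ) : ZMod p) := by push_cast; rfl
    rw [h1, ZMod.stdAddChar_coe]
    have h2 : 2 * (Real.pi : ℂ) * Complex.I * (((t : ℤ) * z : ℤ) : ℂ) / (p : ℂ)
        = ((2 * Real.pi * ((t : ℝ) * z) / p : ℝ) : ℂ) * Complex.I := by
      push_cast; ring
    rw [h2, Complex.exp_ofReal_mul_I_re, ← Real.cos_pi_div_four,
      ← Real.cos_abs (2 * Real.pi * ((t : ℝ) * z) / p)]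
    have h3 : |2 * Real.pi * ((t : ℝ) * z) / p| ≤ Real.pi / 4 := by
      rw [abs_div, abs_mul, abs_mul, abs_mul, abs_of_pos hp, abs_two, abs_of_pos Real.pi_pos,
        Nat.abs_cast, div_le_iff₀ hp]
      have h4 : |(z : ℝ)| ≤ N := by exact_mod_cast hz
      have h5 : (t : ℝ) * |(z : ℝ)| ≤ m * N := by
        apply mul_le_mul (by exact_mod_cast htm) h4 (abs_nonneg _) (by positivity)
      have h6 : (t : ℝ) * |(z : ℝ)| ≤ p / 8 := h5.trans hm
      have h7 : 0 < Real.pi := Real.pi_pos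
      nlinarith
    exact Real.cos_le_cos_of_nonneg_of_le_pi (abs_nonneg _) (by linarith [Real.pi_pos]) h3
  have hJ : (0 : ℝ) < (m : ℝ) + 1 := by positivity
  have hre : ((m : ℝ) + 1) * (√2 / 2) ≤
      ‖∑ t ∈ range (m + 1), (ZMod.stdAddChar ((t : ZMod p) * (z : ZMod p)) : ℂ)‖ := by
    refine le_trans ?_ (Complex.re_le_norm _)
    rw [Complex.re_sum]
    have h8 : ∑ t ∈ range (m + 1), (√2 / 2 : ℝ) ≤
        ∑ t ∈ range (m + 1), (ZMod.stdAddChar ((t : ZMod p) * (z : ZMod p)) : ℂ).re :=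
      sum_le_sum hterm
    rw [sum_const, card_range, nsmul_eq_mul] at h8
    push_cast at h8
    exact h8
  unfold bohrG
  rw [le_div_iff₀ (by positivity)]
  have h9 : (((m : ℝ) + 1) * (√2 / 2)) ^ 2 ≤
      ‖∑ t ∈ range (m + 1), (ZMod.stdAddChar ((t : ZMod p) * (z : ZMod p)) : ℂ)‖ ^ 2 :=
    pow_le_pow_left₀ (by positivity) hre 2
  have h10 : (((m : ℝ) + 1) * (√2 / 2)) ^ 2 = 1 / 2 * ((m : ℝ) + 1) ^ 2 := by
    have h11 : √2 ^ 2 = (2 : ℝ) := Real.sq_sqrt (by norm_num)
    rw [mul_pow, div_pow, h11]; ring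
  linarith

private theorem bohr_fibre {p : ℕ} [Fact p.Prime] (N : ℕ) (hN : N < p) (y : ZMod p) :
    ((Icc (-(N : ℤ)) N).filter fun z : ℤ => (z : ZMod p) = y).card ≤ 2 := by
  have hone : ∀ u v : ℤ, v < u + p →
      ((Icc u v).filter fun z : ℤ => (z : ZMod p) = y).card ≤ 1 := by
    intro u v huv
    rw [card_le_one]
    intro z hz w hw
    rw [mem_filter, mem_Icc] at hz hw
    have h1 : ((z - w : ℤ) : ZMod p) = 0 := by
      push_cast
      rw [hz.2, hw.2, sub_self]
    rw [ZMod.intCast_zmod_eq_zero_iff_dvd] at h1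
    have h2 := Int.eq_zero_of_abs_lt_dvd h1 (by rw [abs_lt]; omega)
    omega
  have hsub : ((Icc (-(N : ℤ)) N).filter fun z : ℤ => (z : ZMod p) = y) ⊆
      ((Icc (-(N : ℤ)) (-1)).filter fun z : ℤ => (z : ZMod p) = y) ∪
        ((Icc (0 : ℤ) N).filter fun z : ℤ => (z : ZMod p) = y) := by
    intro z hz
    rw [mem_filter, mem_Icc] at hz
    rw [mem_union, mem_filter, mem_filter, mem_Icc, mem_Icc]
    by_cases h : 0 ≤ z
    · exact Or.inr ⟨⟨h, hz.1.2⟩, hz.2⟩
    · exact Or.inl ⟨⟨hz.1.1, by omega⟩, hz.2⟩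
  refine (card_le_card hsub).trans ((card_union_le _ _).trans ?_)
  have h1 := hone (-(N : ℤ)) (-1) (by omega)
  have h2 := hone 0 N (by omega)
  omega

private theorem bohr_w {p : ℕ} [Fact p.Prime] (m N : ℕ) (hN : N < p)
    (hm : (m : ℝ) * N ≤ p / 8) (y : ZMod p) :
    (((Icc (-(N : ℤ)) N).filter fun z : ℤ => (z : ZMod p) = y).card : ℝ) ≤ 4 * bohrG p m y := by
  rcases Finset.eq_empty_or_nonempty ((Icc (-(N : ℤ)) N).filter fun z : ℤ => (z : ZMod p) = y)
    with h | ⟨z, hz⟩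
  · rw [h]
    have := bohrG_nonneg m y
    simp only [card_empty, Nat.cast_zero]
    linarith
  · rw [mem_filter, mem_Icc] at hz
    have h1 := bohrG_half (p := p) m N z (abs_le.2 hz.1) hm
    rw [hz.2] at h1
    have h2 : (((Icc (-(N : ℤ)) N).filter fun z : ℤ => (z : ZMod p) = y).card : ℝ) ≤ 2 := by
      exact_mod_cast bohr_fibre N hN y
    linarith

private theorem bohrR_le {p : ℕ} [Fact p.Prime] (m : ℕ) (hm : m < p) (s : ZMod p) :
    bohrR p m s ≤ m + 1 := by
  unfold bohrR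
  refine le_trans (card_le_card_of_injOn (t := range (m + 1)) (fun q => q.1) ?_ ?_)
    (card_range (m + 1)).le
  · intro q hq
    have hq' := (mem_filter.1 (mem_coe.1 hq)).1
    rw [mem_product] at hq'
    exact mem_coe.2 hq'.1
  · intro q hq r hr hqr
    have hq' := mem_filter.1 (mem_coe.1 hq)
    have hr' := mem_filter.1 (mem_coe.1 hr)
    rw [mem_product, mem_range, mem_range] at hq' hr'
    simp only at hqr
    have h1 : ((q.2 : ℕ) : ZMod p) = ((r.2 : ℕ) : ZMod p) := by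
      have e1 := hq'.2
      have e2 := hr'.2
      rw [hqr] at e1
      linear_combination e2 - e1
    have h2 : q.2 = r.2 := by
      rw [ZMod.natCast_eq_natCast_iff'] at h1
      rwa [Nat.mod_eq_of_lt (by omega), Nat.mod_eq_of_lt (by omega)] at h1
    exact Prod.ext hqr h2

private theorem bohrR_zero {p : ℕ} [Fact p.Prime] (m : ℕ) (hm : 2 * m < p) (s : ZMod p)
    (hs : (m : ℤ) < |s.valMinAbs|) : bohrR p m s = 0 := by
  unfold bohrR
  rw [card_eq_zero, filter_eq_empty_iff]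
  intro q hq h
  rw [mem_product, mem_range, mem_range] at hq
  have h1 : s.valMinAbs = (q.2 : ℤ) - q.1 := by
    rw [ZMod.valMinAbs_spec]
    refine ⟨?_, ?_⟩
    · push_cast
      linear_combination h
    · rw [Set.mem_Ioc]
      constructor <;> omega
  rw [h1] at hs
  have h2 : |(q.2 : ℤ) - q.1| ≤ m := by rw [abs_le]; omega
  omega

theorem card_kernel_le_bohr {p : ℕ} [Fact p.Prime] {ι : Type} [Fintype ι] [DecidableEq ι]
    (a : ι → ZMod p) (N : ι → ℕ) (hN : ∀ i, 1 ≤ N i) (hNp : ∀ i, N i < p) {c₀ : ℝ}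
    (hc : 0 < c₀) (hc1 : c₀ ≤ 1 / 8) :
    (((bx N).filter fun x => ∑ i, ((x i : ℤ) : ZMod p) * a i = 0).card : ℝ) * p ≤
      (4 / c₀) ^ Fintype.card ι * (∏ i, (N i : ℝ)) * (bohr a N c₀).card := by
  classical
  have hp : (0 : ℝ) < p := by exact_mod_cast (Fact.out : p.Prime).pos
  set m : ι → ℕ := fun i => ⌊c₀ * p / N i⌋₊ with hm
  have hNpos : ∀ i, (0 : ℝ) < N i := fun i => by exact_mod_cast hN i
  have hmle : ∀ i, (m i : ℝ) ≤ c₀ * p / N i := fun i =>
    Nat.floor_le (by have := hNpos i; positivity)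
  have hmN : ∀ i, (m i : ℝ) * N i ≤ c₀ * p := fun i => by
    have := hmle i
    rwa [le_div_iff₀ (hNpos i)] at this
  have hmN8 : ∀ i, (m i : ℝ) * N i ≤ p / 8 := fun i => by
    have := hmN i
    nlinarith
  have hm8 : ∀ i, (m i : ℝ) ≤ p / 8 := fun i => by
    have h1 := hmN8 i
    have h2 : (1 : ℝ) ≤ N i := by exact_mod_cast hN i
    have h3 : (0 : ℝ) ≤ m i := Nat.cast_nonneg _
    nlinarith
  have hm2 : ∀ i, 2 * m i < p := fun i => by
    have h1 := hm8 i
    have h2 : 2 * (m i : ℝ) < p := by linarith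
    exact_mod_cast h2
  have hJ : ∀ i, c₀ * p / N i < (m i : ℝ) + 1 := fun i => Nat.lt_floor_add_one _
  set ker : Finset (ι → ZMod p) := (univ : Finset (ι → ZMod p)).filter
    (fun y => ∑ i, y i * a i = 0) with hker
  set K : Finset (ι → ℤ) := (bx N).filter fun x => ∑ i, ((x i : ℤ) : ZMod p) * a i = 0 with hK
  -- step 1: fibres
  have hcard : (K.card : ℝ) ≤ ∑ y ∈ ker, ∏ i, (4 * bohrG p (m i) (y i)) := by
    have h1 : K.card = ∑ y ∈ ker,
        (K.filter fun x => (fun i => ((x i : ℤ) : ZMod p)) = y).card := by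
      refine card_eq_sum_card_fiberwise ?_
      intro x hx
      have hx' := mem_filter.1 (mem_coe.1 hx)
      exact mem_coe.2 (mem_filter.2 ⟨mem_univ _, hx'.2⟩)
    rw [h1]
    push_cast
    refine sum_le_sum fun y _ => ?_
    have h2 : (K.filter fun x => (fun i => ((x i : ℤ) : ZMod p)) = y) ⊆
        Fintype.piFinset fun i => (Icc (-(N i : ℤ)) (N i)).filter
          fun z : ℤ => (z : ZMod p) = y i := by
      intro x hx
      rw [mem_filter] at hx
      have hx1 := mem_bx.1 (mem_filter.1 hx.1).1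
      rw [Fintype.mem_piFinset]
      intro i
      rw [mem_filter, mem_Icc]
      exact ⟨abs_le.1 (hx1 i), congrFun hx.2 i⟩
    have h3 := card_le_card h2
    rw [Fintype.card_piFinset] at h3
    have h4 : ((K.filter fun x => (fun i => ((x i : ℤ) : ZMod p)) = y).card : ℝ) ≤
        ∏ i, ((((Icc (-(N i : ℤ)) (N i)).filter fun z : ℤ => (z : ZMod p) = y i).card : ℕ) : ℝ) := by
      exact_mod_cast h3
    refine h4.trans (prod_le_prod (fun i _ => Nat.cast_nonneg _) fun i _ => ?_)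
    exact bohr_w (m i) (N i) (hNp i) (hmN8 i) (y i)
  -- step 2: Fourier
  have hfour : (p : ℝ) * ∑ y ∈ ker, ∏ i, bohrG p (m i) (y i) =
      ∑ c : ZMod p, ∏ i, ((p : ℝ) * (bohrR p (m i) (c * a i) : ℝ) / ((m i : ℝ) + 1) ^ 2) := by
    have h1 := bohr_orth a (fun i y => (bohrG p (m i) y : ℂ))
    have h2 : ∀ c : ZMod p, ∏ i, ∑ y : ZMod p,
        (bohrG p (m i) y : ℂ) * ZMod.stdAddChar (c * a i * y) =
          ∏ i, ((p : ℂ) * (bohrR p (m i) (c * a i) : ℂ) / ((m i : ℂ) + 1) ^ 2) := fun c =>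
      prod_congr rfl fun i _ => bohr_fourier (m i) (c * a i)
    rw [sum_congr rfl fun c _ => h2 c] at h1
    apply Complex.ofReal_injective
    push_cast
    exact h1
  -- step 3: bound
  have hb : ∀ c : ZMod p, ∏ i, ((p : ℝ) * (bohrR p (m i) (c * a i) : ℝ) / ((m i : ℝ) + 1) ^ 2) ≤
      if c ∈ bohr a N c₀ then ∏ i, ((N i : ℝ) / c₀) else 0 := by
    intro c
    split_ifs with hcb
    · refine prod_le_prod (fun i _ => by positivity) fun i _ => ?_
      have h1 : (bohrR p (m i) (c * a i) : ℝ) ≤ (m i : ℝ) + 1 := by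
        exact_mod_cast bohrR_le (m i) (by have := hm2 i; omega) (c * a i)
      have h2 : (0 : ℝ) < (m i : ℝ) + 1 := by positivity
      have h3 := hJ i
      rw [div_lt_iff₀ (hNpos i)] at h3
      rw [div_le_div_iff₀ (by positivity) hc]
      have h4 : (p : ℝ) * (bohrR p (m i) (c * a i) : ℝ) * c₀ ≤ p * ((m i : ℝ) + 1) * c₀ := by
        have : (p : ℝ) * (bohrR p (m i) (c * a i) : ℝ) ≤ p * ((m i : ℝ) + 1) :=
          mul_le_mul_of_nonneg_left h1 hp.le
        exact mul_le_mul_of_nonneg_right this hc.le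
      have h5 : (p : ℝ) * ((m i : ℝ) + 1) * c₀ ≤ (N i : ℝ) * ((m i : ℝ) + 1) ^ 2 := by
        have h6 : (c₀ * p) * ((m i : ℝ) + 1) ≤ (((m i : ℝ) + 1) * N i) * ((m i : ℝ) + 1) :=
          mul_le_mul_of_nonneg_right h3.le h2.le
        nlinarith
      linarith
    · rw [mem_bohr] at hcb
      push Not at hcb
      obtain ⟨i, hi⟩ := hcb
      refine (prod_eq_zero (mem_univ i) ?_).le
      have h1 : (m i : ℤ) < |(c * a i).valMinAbs| := by
        have h2 : (m i : ℝ) < |((c * a i).valMinAbs : ℝ)| := by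
          have h3 := lt_of_le_of_lt (hmN i) hi
          exact lt_of_mul_lt_mul_right h3 (hNpos i).le
        exact_mod_cast h2
      rw [bohrR_zero (m i) (hm2 i) (c * a i) h1]
      simp
  -- assembly
  have h4 : ∑ y ∈ ker, ∏ i, (4 * bohrG p (m i) (y i)) =
      4 ^ Fintype.card ι * ∑ y ∈ ker, ∏ i, bohrG p (m i) (y i) := by
    rw [mul_sum]
    refine sum_congr rfl fun y _ => ?_
    rw [prod_mul_distrib, prod_const, card_univ]
  calc (K.card : ℝ) * p ≤ (4 ^ Fintype.card ι * ∑ y ∈ ker, ∏ i, bohrG p (m i) (y i)) * p := by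
        rw [← h4]; exact mul_le_mul_of_nonneg_right hcard hp.le
    _ = 4 ^ Fintype.card ι * (p * ∑ y ∈ ker, ∏ i, bohrG p (m i) (y i)) := by ring
    _ = 4 ^ Fintype.card ι * ∑ c : ZMod p,
          ∏ i, ((p : ℝ) * (bohrR p (m i) (c * a i) : ℝ) / ((m i : ℝ) + 1) ^ 2) := by rw [hfour]
    _ ≤ 4 ^ Fintype.card ι * ∑ c : ZMod p,
          (if c ∈ bohr a N c₀ then ∏ i, ((N i : ℝ) / c₀) else 0) :=
        mul_le_mul_of_nonneg_left (sum_le_sum fun c _ => hb c) (by positivity)
    _ = (4 / c₀) ^ Fintype.card ι * (∏ i, (N i : ℝ)) * (bohr a N c₀).card := by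
        rw [← sum_filter, sum_const, filter_mem_eq_inter, univ_inter, nsmul_eq_mul,
          prod_div_distrib, prod_const, card_univ, div_pow]
        ring

end Pool.Agent.Lib.MP_fdf47d_co.SD
end

section

/-!
# Separated sets in the unit ball

Proof: the open balls `ball x (s/2)`, `x ∈ X`, are pairwise disjoint and lie in `ball 0 (3/2)`
(`‖x‖ + s/2 ≤ 3/2`).  With the Haar measure `μ` of `E` (`MeasureTheory.Measure.addHaar`;
`μ (ball x r) = r ^ finrank * μ (ball 0 1)`, `0 < μ (ball 0 1) < ∞`):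
`|X| (s/2)^d ≤ (3/2)^d`.  Same proof as Mathlib's `Besicovitch.card_le_of_separated`.
-/

namespace Pool.Agent.Lib.MP_fdf47d_co.SD

open Finset MeasureTheory Metric Module
open scoped ENNReal

theorem card_le_of_sep {E : Type*} [NormedAddCommGroup E] [NormedSpace ℝ E]
    [FiniteDimensional ℝ E] (X : Finset E) {s : ℝ} (hs : 0 < s) (hs1 : s ≤ 1)
    (hX : ∀ x ∈ X, ‖x‖ ≤ 1) (hsep : ∀ x ∈ X, ∀ y ∈ X, x ≠ y → s < ‖x - y‖) :
    (X.card : ℝ) ≤ (3 / s) ^ Module.finrank ℝ E := by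
  borelize E
  let μ : Measure E := Measure.addHaar
  let δ : ℝ := s / 2
  let ρ : ℝ := (3 : ℝ) / 2
  have ρpos : 0 < ρ := by norm_num [ρ]
  have δpos : 0 < δ := half_pos hs
  set A := ⋃ c ∈ X, ball (c : E) δ with hA
  have D : Set.Pairwise (X : Set E) (Function.onFun Disjoint fun c => ball (c : E) δ) := by
    rintro c hc d hd hcd
    apply ball_disjoint_ball
    rw [dist_eq_norm]
    have h1 : δ + δ = s := add_halves s
    rw [h1]
    exact (hsep c hc d hd hcd).le
  have A_subset : A ⊆ ball (0 : E) ρ := by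
    refine Set.iUnion₂_subset fun x hx => ?_
    apply ball_subset_ball'
    have h1 : dist x 0 ≤ 1 := by rw [dist_zero_right]; exact hX x hx
    have h2 : δ ≤ 1 / 2 := by
      change s / 2 ≤ 1 / 2
      linarith
    change δ + dist x 0 ≤ 3 / 2
    linarith
  have I : (X.card : ℝ≥0∞) * ENNReal.ofReal (δ ^ finrank ℝ E) * μ (ball 0 1) ≤
      ENNReal.ofReal (ρ ^ finrank ℝ E) * μ (ball 0 1) :=
    calc
      (X.card : ℝ≥0∞) * ENNReal.ofReal (δ ^ finrank ℝ E) * μ (ball 0 1) = μ A := by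
        rw [hA, measure_biUnion_finset D fun c _ => measurableSet_ball]
        simp only [μ.addHaar_ball_of_pos _ δpos]
        simp only [Finset.sum_const, nsmul_eq_mul, mul_assoc]
      _ ≤ μ (ball (0 : E) ρ) := measure_mono A_subset
      _ = ENNReal.ofReal (ρ ^ finrank ℝ E) * μ (ball 0 1) := by
        simp only [μ.addHaar_ball_of_pos _ ρpos]
  have J : (X.card : ℝ≥0∞) * ENNReal.ofReal (δ ^ finrank ℝ E) ≤ ENNReal.ofReal (ρ ^ finrank ℝ E) :=
    (ENNReal.mul_le_mul_iff_left (measure_ball_pos _ _ zero_lt_one).ne' measure_ball_lt_top.ne).1 I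
  have K := ENNReal.toReal_le_of_le_ofReal (pow_nonneg ρpos.le _) J
  rw [ENNReal.toReal_mul, ENNReal.toReal_natCast, ENNReal.toReal_ofReal (pow_nonneg δpos.le _)] at K
  have h3 : 3 / s = ρ / δ := by
    change 3 / s = (3 / 2) / (s / 2)
    field_simp
  rw [h3, div_pow, le_div_iff₀ (pow_pos δpos _)]
  exact K

end Pool.Agent.Lib.MP_fdf47d_co.SD
end

section

/-!
# Dropping the coordinates with `N_i = 0`

A vector of `bx N` vanishes at every `i` with `N i = 0`; restriction to `{i // N i ≠ 0}` is a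
bijection of the boxes (inverse: extension by zero) which preserves `lin`.
-/

namespace Pool.Agent.Lib.MP_fdf47d_co.SD

open Finset

private theorem restrict_lin {p : ℕ} {ι : Type} [Fintype ι] (v : ι → V p) (N : ι → ℕ)
    (x : ι → ℤ) (hx : ∀ i, N i = 0 → x i = 0) :
    lin v x = lin (fun i : {i // N i ≠ 0} => v i.1) (fun i => x i.1) := by
  classical
  unfold lin
  rw [← Finset.sum_subtype (univ.filter fun i => N i ≠ 0) (fun i => by simp)
    (fun i => x i • v i)]
  symm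
  refine Finset.sum_subset (Finset.filter_subset _ _) fun i _ hi => ?_
  have : N i = 0 := by simpa using hi
  rw [hx i this, zero_smul]

private theorem restrict_zero {ι : Type} [Fintype ι] [DecidableEq ι] {N : ι → ℕ} {x : ι → ℤ}
    (hx : x ∈ bx N) (i : ι) (hi : N i = 0) : x i = 0 := by
  have := mem_bx.mp hx i
  rw [hi, Nat.cast_zero] at this
  exact abs_nonpos_iff.mp this

private theorem restrict_mem {ι : Type} [Fintype ι] [DecidableEq ι] {N : ι → ℕ} {x : ι → ℤ}
    (hx : x ∈ bx N) : (fun i : {i // N i ≠ 0} => x i.1) ∈ bx (fun i : {i // N i ≠ 0} => N i.1) :=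
  mem_bx.mpr fun i => mem_bx.mp hx i.1

private def restrictExt {ι : Type} (N : ι → ℕ) (y : {i // N i ≠ 0} → ℤ) : ι → ℤ :=
  fun i => if h : N i ≠ 0 then y ⟨i, h⟩ else 0

private theorem restrictExt_apply {ι : Type} (N : ι → ℕ) (y : {i // N i ≠ 0} → ℤ)
    (i : {i // N i ≠ 0}) : restrictExt N y i.1 = y i := by
  unfold restrictExt
  rw [dif_pos i.2]

private theorem restrictExt_zero {ι : Type} (N : ι → ℕ) (y : {i // N i ≠ 0} → ℤ)
    (i : ι) (hi : N i = 0) : restrictExt N y i = 0 := by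
  unfold restrictExt
  rw [dif_neg (by simpa using hi)]

private theorem restrictExt_mem {ι : Type} [Fintype ι] [DecidableEq ι] (N : ι → ℕ)
    (y : {i // N i ≠ 0} → ℤ) (hy : y ∈ bx (fun i : {i // N i ≠ 0} => N i.1)) :
    restrictExt N y ∈ bx N := by
  rw [mem_bx]
  intro i
  by_cases hi : N i = 0
  · rw [restrictExt_zero N y i hi, abs_zero]
    exact Int.natCast_nonneg _
  · rw [restrictExt_apply N y ⟨i, hi⟩]
    exact mem_bx.mp hy ⟨i, hi⟩

private theorem restrictExt_lin {p : ℕ} {ι : Type} [Fintype ι] (v : ι → V p) (N : ι → ℕ)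
    (y : {i // N i ≠ 0} → ℤ) :
    lin v (restrictExt N y) = lin (fun i : {i // N i ≠ 0} => v i.1) y := by
  rw [restrict_lin v N _ (fun i hi => restrictExt_zero N y i hi)]
  congr 1
  funext i
  exact restrictExt_apply N y i

theorem nn_restrict {p : ℕ} {ι : Type} [Fintype ι] [DecidableEq ι] (v : ι → V p) (N : ι → ℕ)
    (l : V p) :
    nn v N l = nn (fun i : {i // N i ≠ 0} => v i.1) (fun i => N i.1) l := by
  unfold nn
  refine Finset.card_nbij' (fun x => fun i => x i.1) (restrictExt N) ?_ ?_ ?_ ?_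
  · intro x hx
    rw [Finset.mem_coe, Finset.mem_filter] at hx ⊢
    refine ⟨restrict_mem hx.1, ?_⟩
    rw [← restrict_lin v N x (fun i hi => restrict_zero hx.1 i hi)]
    exact hx.2
  · intro y hy
    rw [Finset.mem_coe, Finset.mem_filter] at hy ⊢
    refine ⟨restrictExt_mem N y hy.1, ?_⟩
    rw [restrictExt_lin]
    exact hy.2
  · intro x hx
    rw [Finset.mem_coe, Finset.mem_filter] at hx
    funext i
    by_cases hi : N i = 0
    · rw [restrictExt_zero N _ i hi, restrict_zero hx.1 i hi]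
    · exact restrictExt_apply N _ ⟨i, hi⟩
  · intro y _
    funext i
    exact restrictExt_apply N y i

theorem Proper.restrict {p : ℕ} {ι : Type} [Fintype ι] [DecidableEq ι] {v : ι → V p} {N : ι → ℕ}
    (h : Proper v N) : Proper (fun i : {i // N i ≠ 0} => v i.1) (fun i => N i.1) := by
  intro y hy hlin
  have h1 := h (restrictExt N y) (restrictExt_mem N y hy) (by rw [restrictExt_lin]; exact hlin)
  funext i
  rw [← restrictExt_apply N y i, h1]
  rfl

end Pool.Agent.Lib.MP_fdf47d_co.SD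
end

section

/-!
# Scaling the box (L1)

Proof: let `S = {x ∈ bx N | dot l (lin v x) = 0}` and `ρ x = (x_i / N_i)_i ∈ (ι → ℝ)` (sup norm), so
`‖ρ x‖ ≤ 1` on `S`.  Take a maximal subset `X ⊆ S` with `s < ‖ρ x - ρ y‖` for all distinct
`x, y ∈ X` (exists: finite).  Every `x ∈ S` has `x' ∈ X` with `‖ρ (x - x')‖ ≤ s`, and `x - x'`
is an integer vector with `|(x - x')_i| ≤ s N_i`, hence in `bx ⌊s N⌋₊`, and it is in the kernel of
`dot l (lin v ·)`.  So `x ↦ (x', x - x')` is injective: `|S| ≤ |X| * nn v ⌊s N⌋₊ l`.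
`X` embeds (by `ρ`) into the real span `W` of `ρ '' S`, a finite-dimensional normed space;
`card_le_of_sep` in `W` gives `|X| ≤ (3/s)^(finrank ℝ W)`, and `finrank ℝ W ≤ jj v N l`: choose a
rational basis of the rational span of `S` consisting of elements of `S` (or of any vectors); every
`x ∈ S` is a rational combination of it, so `ρ x` is a real combination of the images
(`ρ` extends to a linear map over `ℚ`/`ℝ`).  Finally `(3/s)^(finrank) ≤ (3/s)^(jj)` as `3/s ≥ 1`.
-/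

namespace Pool.Agent.Lib.MP_fdf47d_co.SD

open Finset

/-- The real span of the rescaled vectors has dimension at most `jj`. -/
private theorem scale_finrank {ι : Type} [Fintype ι] (N : ι → ℕ) (A : Set (ι → ℤ)) :
    Module.finrank ℝ (Submodule.span ℝ ((fun (x : ι → ℤ) (i : ι) => ((x i : ℤ) : ℝ) / N i) '' A)) ≤
      Module.finrank ℚ (Submodule.span ℚ ((fun (x : ι → ℤ) (i : ι) => ((x i : ℤ) : ℚ)) '' A)) := by
  classical
  set U := Submodule.span ℚ ((fun (x : ι → ℤ) (i : ι) => ((x i : ℤ) : ℚ)) '' A) with hU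
  let b := Module.finBasis ℚ U
  let w : Fin (Module.finrank ℚ U) → ι → ℝ := fun k i => (((b k : ι → ℚ) i : ℚ) : ℝ) / N i
  have hsub : Submodule.span ℝ ((fun (x : ι → ℤ) (i : ι) => ((x i : ℤ) : ℝ) / N i) '' A) ≤
      Submodule.span ℝ (Set.range w) := by
    rw [Submodule.span_le]
    rintro _ ⟨x, hx, rfl⟩
    have hxU : (fun i => ((x i : ℤ) : ℚ)) ∈ U := Submodule.subset_span ⟨x, hx, rfl⟩
    have h1 := b.sum_repr ⟨_, hxU⟩
    have h2 : ∀ i, ((x i : ℤ) : ℚ) = ∑ k, b.repr ⟨_, hxU⟩ k * (b k : ι → ℚ) i := by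
      intro i
      have h3 := congrArg (fun u : U => (u : ι → ℚ) i) h1
      simp only [Submodule.coe_sum, Finset.sum_apply, Submodule.coe_smul, Pi.smul_apply,
        smul_eq_mul] at h3
      exact h3.symm
    have h4 : (fun (i : ι) => ((x i : ℤ) : ℝ) / N i) =
        ∑ k, ((b.repr ⟨_, hxU⟩ k : ℚ) : ℝ) • w k := by
      funext i
      rw [Finset.sum_apply]
      simp only [Pi.smul_apply, smul_eq_mul, w]
      have h5 : ((x i : ℤ) : ℝ) = (((x i : ℤ) : ℚ) : ℝ) := by push_cast; rfl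
      rw [h5, h2 i]
      push_cast
      rw [Finset.sum_div]
      exact Finset.sum_congr rfl fun k _ => by ring
    change (fun (i : ι) => ((x i : ℤ) : ℝ) / N i) ∈ Submodule.span ℝ (Set.range w)
    rw [h4]
    exact Submodule.sum_mem _ fun k _ =>
      Submodule.smul_mem _ _ (Submodule.subset_span ⟨k, rfl⟩)
  calc _ ≤ Module.finrank ℝ (Submodule.span ℝ (Set.range w)) := Submodule.finrank_mono hsub
    _ ≤ Fintype.card (Fin (Module.finrank ℚ U)) := finrank_range_le_card w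
    _ = _ := Fintype.card_fin _

theorem nn_le_scale {p : ℕ} {ι : Type} [Fintype ι] [DecidableEq ι] (v : ι → V p) {N : ι → ℕ}
    (hN : ∀ i, 1 ≤ N i) (l : V p) {s : ℝ} (hs : 0 < s) (hs1 : s ≤ 1) :
    (nn v N l : ℝ) ≤ (3 / s) ^ jj v N l * nn v (fun i => ⌊s * N i⌋₊) l := by
  classical
  set S : Finset (ι → ℤ) := (bx N).filter fun x => dot l (lin v x) = 0 with hS
  set T : Finset (ι → ℤ) := (bx fun i => ⌊s * N i⌋₊).filter fun x => dot l (lin v x) = 0 with hT
  let ρ : (ι → ℤ) → ι → ℝ := fun x i => ((x i : ℤ) : ℝ) / N i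
  have hNpos : ∀ i, (0 : ℝ) < N i := fun i => by exact_mod_cast (hN i)
  let P : Finset (ι → ℤ) → Prop := fun X => ∀ x ∈ X, ∀ y ∈ X, x ≠ y → s < ‖ρ x - ρ y‖
  obtain ⟨X, hXmem, hXmax⟩ := Finset.exists_max_image (S.powerset.filter P) Finset.card
    ⟨∅, by
      refine mem_filter.2 ⟨empty_mem_powerset S, fun x hx => absurd hx (notMem_empty x)⟩⟩
  obtain ⟨hXS', hXP⟩ := mem_filter.1 hXmem
  have hXS : X ⊆ S := mem_powerset.1 hXS'
  have hnet : ∀ x ∈ S, ∃ y ∈ X, ‖ρ x - ρ y‖ ≤ s := by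
    intro x hx
    by_contra hcon
    push Not at hcon
    have hxX : x ∉ X := by
      intro h
      have := hcon x h
      rw [sub_self, norm_zero] at this
      linarith
    have h1 : insert x X ∈ S.powerset.filter P := by
      refine mem_filter.2 ⟨mem_powerset.2 (insert_subset hx hXS), ?_⟩
      intro a ha b hb hab
      rcases mem_insert.1 ha with rfl | ha
      · rcases mem_insert.1 hb with rfl | hb
        · exact absurd rfl hab
        · exact hcon b hb
      · rcases mem_insert.1 hb with hbx | hb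
        · rw [hbx, norm_sub_rev]
          exact hcon a ha
        · exact hXP a ha b hb hab
    have h2 := hXmax _ h1
    rw [card_insert_of_notMem hxX] at h2
    omega
  have hcard : S.card ≤ X.card * T.card := by
    have h1 : S ⊆ (X ×ˢ T).image fun z => z.1 + z.2 := by
      intro x hx
      obtain ⟨y, hy, hxy⟩ := hnet x hx
      refine mem_image.2 ⟨(y, x - y), mem_product.2 ⟨hy, ?_⟩, by simp⟩
      have hxk := (mem_filter.1 hx).2
      have hyk := (mem_filter.1 (hXS hy)).2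
      refine mem_filter.2 ⟨mem_bx.2 fun i => ?_, ?_⟩
      · have h2 := norm_le_pi_norm (ρ x - ρ y) i
        have h3 : |((x i : ℤ) : ℝ) / N i - ((y i : ℤ) : ℝ) / N i| ≤ s := by
          rw [← Real.norm_eq_abs]
          exact h2.trans hxy
        rw [← sub_div, abs_div, abs_of_pos (hNpos i), div_le_iff₀ (hNpos i)] at h3
        have h4 : (((|(x - y) i|).toNat : ℕ) : ℝ) ≤ s * N i := by
          have h5 : (((|(x - y) i|).toNat : ℕ) : ℝ) = |((x i : ℤ) : ℝ) - ((y i : ℤ) : ℝ)| := by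
            have h6 : (((|(x - y) i|).toNat : ℕ) : ℤ) = |(x - y) i| :=
              Int.toNat_of_nonneg (abs_nonneg _)
            have h7 : (((|(x - y) i|).toNat : ℕ) : ℝ) = ((((|(x - y) i|).toNat : ℕ) : ℤ) : ℝ) := by
              push_cast
              rfl
            rw [h7, h6, Pi.sub_apply, Int.cast_abs, Int.cast_sub]
          rw [h5]
          exact h3
        have h8 := Nat.le_floor h4
        have h9 : (|(x - y) i|) = (((|(x - y) i|).toNat : ℕ) : ℤ) :=
          (Int.toNat_of_nonneg (abs_nonneg _)).symm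
        rw [h9]
        exact_mod_cast h8
      · rw [lin_sub, dot_sub, hxk, hyk, sub_zero]
    calc S.card ≤ ((X ×ˢ T).image fun z => z.1 + z.2).card := card_le_card h1
      _ ≤ (X ×ˢ T).card := card_image_le
      _ = X.card * T.card := card_product _ _
  -- the separated set
  set A : Set (ι → ℤ) := {x | x ∈ bx N ∧ dot l (lin v x) = 0} with hA
  set W := Submodule.span ℝ ((fun (x : ι → ℤ) (i : ι) => ((x i : ℤ) : ℝ) / N i) '' A) with hW
  have hmemW : ∀ x ∈ X, ρ x ∈ W := by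
    intro x hx
    have h1 := mem_filter.1 (hXS hx)
    exact Submodule.subset_span ⟨x, ⟨h1.1, h1.2⟩, rfl⟩
  let g : X → W := fun x => ⟨ρ x.1, hmemW x.1 x.2⟩
  have hgn : ∀ x y : X, ‖g x - g y‖ = ‖ρ x.1 - ρ y.1‖ := fun x y => rfl
  have hginj : Function.Injective g := by
    intro x y hxy
    by_contra hne
    have h1 := hXP x.1 x.2 y.1 y.2 (fun h => hne (Subtype.ext h))
    rw [← hgn, hxy, sub_self, norm_zero] at h1
    linarith
  have hXcard : (X.card : ℝ) ≤ (3 / s) ^ Module.finrank ℝ W := by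
    have h1 := card_le_of_sep (E := W) (X.attach.image g) hs hs1 (by
      intro z hz
      obtain ⟨x, -, rfl⟩ := mem_image.1 hz
      have h2 := mem_bx.1 (mem_filter.1 (hXS x.2)).1
      change ‖ρ x.1‖ ≤ 1
      rw [pi_norm_le_iff_of_nonneg zero_le_one]
      intro i
      change ‖((x.1 i : ℤ) : ℝ) / N i‖ ≤ 1
      rw [Real.norm_eq_abs, abs_div, abs_of_pos (hNpos i), div_le_one (hNpos i)]
      exact_mod_cast h2 i) (by
      intro z hz z' hz' hne
      obtain ⟨x, -, rfl⟩ := mem_image.1 hz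
      obtain ⟨y, -, rfl⟩ := mem_image.1 hz'
      rw [hgn]
      exact hXP x.1 x.2 y.1 y.2 (fun h => hne (by rw [Subtype.ext h])))
    rwa [card_image_of_injective _ hginj, card_attach] at h1
  have hfin : Module.finrank ℝ W ≤ jj v N l := scale_finrank N A
  have h3s : 1 ≤ 3 / s := by
    rw [le_div_iff₀ hs]
    linarith
  have hnnS : nn v N l = S.card := rfl
  have hnnT : nn v (fun i => ⌊s * N i⌋₊) l = T.card := rfl
  rw [hnnS, hnnT]
  calc (S.card : ℝ) ≤ (X.card : ℝ) * T.card := by exact_mod_cast hcard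
    _ ≤ (3 / s) ^ jj v N l * T.card := by
        refine mul_le_mul_of_nonneg_right ?_ (Nat.cast_nonneg _)
        exact hXcard.trans (pow_le_pow_right₀ h3s hfin)

end Pool.Agent.Lib.MP_fdf47d_co.SD
end

section

/-!
# The step for `2 * jj ≤ n`

`n = 0`: `bx N = {0}`, `nn = 1`, and `k ≥ C (1 + 1/p) > 1`, so the set is empty (`C = 1`).

`n ≥ 1`: let `C' ≥ 1` be one constant with `GStmt m C'` for all `m < n` (`GStmt.mono`, finite
maximum) and `C = 4 * 36^n * C'^2`.  Write `M = ∏ N_i`.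
(1) For `0 < t ≤ 1` and `l` in the set, `nn_le_scale` with `s = t²` gives
`nn v ⌊t² N⌋₊ l ≥ k (t²/3)^jj ≥ k t^n / 3^n`, as `(t²)^jj = t^(2 jj) ≥ t^n` and `3^jj ≤ 3^n`.
(2) Let `i₀` minimise `N`, `t = √(1 / (2 N_{i₀}))`, `s = t²`, `N_s = ⌊s N⌋₊`, so `N_s i₀ = 0` and
`1 ≤ 2 s N_i` for all `i`.  Let `M_s` be the product of `N_s i` over `{i // N_s i ≠ 0}` (fewer than
`n` indices): `M_s ≤ ∏ (2 s N_i) = 2^n t^(2n) M` (use `N_s i ≤ s N_i` for the indices with
`N_s i ≠ 0` and `1 ≤ 2 s N_i` for the others).  `k_s := k t^n / 3^n`; `M_s / k_s² ≤ 18^n M / k²`.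
(3) If `k_s ≥ C' (1 + M_s / p)`: apply `GStmt m C'` to the restricted system (`nn_restrict`,
`Proper.restrict`): the count is `≤ C' p (1 + M_s/k_s²) ≤ 18^n C' p (1 + M/k²)`.
(4) Otherwise `k_s < C' (1 + M_s / p)`.  If `M_s ≥ p` then `k_s < 2 C' M_s / p`, so
`k < 2 C' 6^n t^n M / p ≤ C M / p`, contradiction.  So `M_s < p`, `k_s < 2 C'`.  Let
`t' = (2 C' 3^n / k)^(1/n)` (real power), so `k t'^n / 3^n = 2 C'`; `t' ≤ 1` since
`k ≥ C ≥ 2 C' 3^n`, and `t ≤ t'` since `k t^n / 3^n = k_s < 2 C'`.  By (1)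
`nn v ⌊t'² N⌋₊ l ≥ 2 C' ≥ 2` for all `l` of the set, so by `card_two_le_nn` the count is at most
`p * |bx ⌊t'² N⌋₊| = p ∏ (2 ⌊t'² N_i⌋ + 1) ≤ p ∏ (4 t'² N_i) = p 4^n (t'^n)² M
= 4 * 36^n * C'^2 * p * M / k²` (`1 ≤ 2 s N_i ≤ 2 t'² N_i`; properness: `Proper.mono`).
-/

namespace Pool.Agent.Lib.MP_fdf47d_co.SD

open Finset

private theorem AStep_key {p : ℕ} {ι : Type} [Fintype ι] [DecidableEq ι] {n : ℕ}
    (v : ι → V p) {N : ι → ℕ} (hN : ∀ i, 1 ≤ N i) (l : V p) {k t : ℝ} (ht : 0 < t)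
    (ht1 : t ≤ 1) (hkl : k ≤ (nn v N l : ℝ)) (hj : 2 * jj v N l ≤ n) :
    k * t ^ n / 3 ^ n ≤ (nn v (fun i => ⌊t ^ 2 * N i⌋₊) l : ℝ) := by
  have h1 := nn_le_scale v hN l (s := t ^ 2) (by positivity) (pow_le_one₀ ht.le ht1)
  set J := jj v N l with hJ
  set X : ℝ := (nn v (fun i => ⌊t ^ 2 * N i⌋₊) l : ℝ) with hX
  have hX0 : 0 ≤ X := by positivity
  have h2 : (3 / t ^ 2) ^ J ≤ 3 ^ n / t ^ n := by
    rw [div_pow, ← pow_mul]
    apply div_le_div₀ (by positivity) (pow_le_pow_right₀ (by norm_num) (by omega)) (by positivity)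
    exact pow_le_pow_of_le_one ht.le ht1 hj
  have h3 : k ≤ 3 ^ n / t ^ n * X := hkl.trans (h1.trans (mul_le_mul_of_nonneg_right h2 hX0))
  rw [div_le_iff₀ (by positivity)]
  calc k * t ^ n ≤ (3 ^ n / t ^ n * X) * t ^ n := mul_le_mul_of_nonneg_right h3 (by positivity)
    _ = X * 3 ^ n := by field_simp

private theorem AStep_zero {p : ℕ} {ι : Type} [Fintype ι] [DecidableEq ι] [IsEmpty ι]
    (v : ι → V p) (N : ι → ℕ) (l : V p) : nn v N l ≤ 1 := by
  refine (nn_le_card_bx v N l).trans ?_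
  rw [card_bx]
  simp

theorem aStep (n : ℕ) (hG : ∀ m < n, ∃ C : ℝ, 1 ≤ C ∧ GStmt m C) :
    ∃ C : ℝ, 1 ≤ C ∧ AStmt n C := by
  classical
  rcases Nat.eq_zero_or_pos n with hn0 | hn0
  · -- the case `n = 0`
    refine ⟨1, le_rfl, ?_⟩
    intro ι _ _ hι p _ v N hN hP k hk
    have hemp : IsEmpty ι := Fintype.card_eq_zero_iff.mp (hι.trans hn0)
    have hp0 : (0 : ℝ) < p := by exact_mod_cast (Fact.out : p.Prime).pos
    have hk1 : 1 < k := by
      have h1 : (0 : ℝ) < (∏ i, (N i : ℝ)) / p := by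
        apply div_pos _ hp0
        simp
      linarith
    have hempty : ((univ : Finset (V p)).filter fun l =>
        l ≠ 0 ∧ k ≤ (nn v N l : ℝ) ∧ 2 * jj v N l ≤ n) = ∅ := by
      rw [Finset.filter_eq_empty_iff]
      rintro l - ⟨-, h2, -⟩
      have h3 : (nn v N l : ℝ) ≤ 1 := by exact_mod_cast AStep_zero v N l
      linarith
    rw [hempty, Finset.card_empty, Nat.cast_zero]
    have hM : (0 : ℝ) ≤ (∏ i, (N i : ℝ)) := prod_nonneg fun i _ => by positivity
    positivity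
  -- the constant
  obtain ⟨C', hC'1, hC'⟩ : ∃ C' : ℝ, 1 ≤ C' ∧ ∀ m < n, GStmt m C' := by
    choose f hf1 hf2 using hG
    refine ⟨1 + ∑ m : Fin n, f m.1 m.2, ?_, ?_⟩
    · have : 0 ≤ ∑ m : Fin n, f m.1 m.2 :=
        Finset.sum_nonneg fun m _ => zero_le_one.trans (hf1 m.1 m.2)
      linarith
    · intro m hm
      refine (hf2 m hm).mono ?_
      have h1 : f m hm ≤ ∑ m : Fin n, f m.1 m.2 :=
        Finset.single_le_sum (f := fun m : Fin n => f m.1 m.2)
          (fun m _ => zero_le_one.trans (hf1 m.1 m.2)) (Finset.mem_univ (⟨m, hm⟩ : Fin n))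
      linarith
  have hC'0 : 0 < C' := by linarith
  have h36 : (1 : ℝ) ≤ 36 ^ n := one_le_pow₀ (by norm_num)
  have hC'sq : C' ≤ C' ^ 2 := by nlinarith
  set C : ℝ := 4 * 36 ^ n * C' ^ 2 with hCdef
  have hC1 : 1 ≤ C := by
    have : (1 : ℝ) ≤ C' ^ 2 := by nlinarith
    rw [hCdef]
    nlinarith
  have hC0 : 0 < C := by linarith
  -- numerical comparisons with `C`
  have hcmp : ∀ a : ℝ, 0 ≤ a → a ≤ 36 → 4 * a ^ n * C' ≤ C := by
    intro a ha ha2
    have h1 : a ^ n ≤ 36 ^ n := pow_le_pow_left₀ ha ha2 n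
    rw [hCdef]
    exact mul_le_mul (mul_le_mul_of_nonneg_left h1 (by norm_num)) hC'sq hC'0.le (by positivity)
  refine ⟨C, hC1, ?_⟩
  intro ι _ _ hι p _ v N hN hP k hk
  set M : ℝ := ∏ i, (N i : ℝ) with hMdef
  have hM1 : 1 ≤ M := one_le_prod hN
  have hM0 : 0 < M := by linarith
  have hp0 : (0 : ℝ) < p := by exact_mod_cast (Fact.out : p.Prime).pos
  have hkC : C ≤ k := by
    have : 0 ≤ C * (M / p) := by positivity
    linarith
  have hkM : C * (M / p) ≤ k := by linarith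
  have hk0 : 0 < k := by linarith
  set A := (univ : Finset (V p)).filter fun l =>
        l ≠ 0 ∧ k ≤ (nn v N l : ℝ) ∧ 2 * jj v N l ≤ n with hAdef
  have hkey : ∀ l ∈ A, ∀ t : ℝ, 0 < t → t ≤ 1 →
      k * t ^ n / 3 ^ n ≤ (nn v (fun i => ⌊t ^ 2 * N i⌋₊) l : ℝ) := by
    intro l hl t ht ht1
    rw [hAdef, Finset.mem_filter] at hl
    exact AStep_key v hN l ht ht1 hl.2.2.1 hl.2.2.2
  -- the minimal index
  have hne : Nonempty ι := by
    rw [← Fintype.card_pos_iff, hι]
    exact hn0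
  obtain ⟨i₀, hi₀⟩ := Finite.exists_min N
  have hNi₀ : (1 : ℝ) ≤ N i₀ := by exact_mod_cast hN i₀
  set t : ℝ := √(1 / (2 * N i₀)) with htdef
  have ht2 : t ^ 2 = 1 / (2 * N i₀) := Real.sq_sqrt (by positivity)
  have ht0 : 0 < t := Real.sqrt_pos.2 (by positivity)
  have ht1 : t ≤ 1 := by
    have h1 : t ^ 2 ≤ 1 := by
      rw [ht2, div_le_one (by positivity)]
      linarith
    nlinarith
  have h2s : ∀ i, 1 ≤ 2 * t ^ 2 * (N i : ℝ) := by
    intro i
    have h1 : (N i₀ : ℝ) ≤ N i := by exact_mod_cast hi₀ i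
    rw [ht2]
    have h2 : 2 * (1 / (2 * (N i₀ : ℝ))) * (N i : ℝ) = N i / N i₀ := by field_simp
    rw [h2, le_div_iff₀ (by linarith)]
    linarith
  set Ns : ι → ℕ := fun i => ⌊t ^ 2 * N i⌋₊ with hNs
  have hNs0 : Ns i₀ = 0 := by
    rw [hNs]
    simp only [Nat.floor_eq_zero]
    rw [ht2]
    have : 1 / (2 * (N i₀ : ℝ)) * (N i₀ : ℝ) = 1 / 2 := by field_simp
    rw [this]
    norm_num
  have hNsle : ∀ i, (Ns i : ℝ) ≤ t ^ 2 * N i := fun i => Nat.floor_le (by positivity)
  have hNsN : ∀ i, Ns i ≤ N i := by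
    intro i
    have h1 : (Ns i : ℝ) ≤ N i := by
      refine (hNsle i).trans ?_
      have h2 : t ^ 2 ≤ 1 := pow_le_one₀ ht0.le ht1
      have h3 : (0 : ℝ) ≤ N i := by positivity
      nlinarith
    exact_mod_cast h1
  set Ms : ℝ := ∏ i : {i // Ns i ≠ 0}, (Ns i.1 : ℝ) with hMs
  have hMs0 : 0 ≤ Ms := prod_nonneg fun i _ => by positivity
  have hMsle : Ms ≤ 2 ^ n * t ^ (2 * n) * M := by
    have h1 : Ms ≤ ∏ i : {i // Ns i ≠ 0}, (2 * t ^ 2 * (N i.1 : ℝ)) := by
      refine prod_le_prod (fun i _ => by positivity) fun i _ => ?_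
      refine (hNsle i.1).trans ?_
      have h3 : (0 : ℝ) ≤ t ^ 2 * N i.1 := by positivity
      linarith
    have h2 : ∏ i : {i // Ns i ≠ 0}, (2 * t ^ 2 * (N i.1 : ℝ)) ≤ ∏ i, (2 * t ^ 2 * (N i : ℝ)) := by
      rw [← Finset.prod_subtype (univ.filter fun i => Ns i ≠ 0) (by simp)
        (fun i => 2 * t ^ 2 * (N i : ℝ))]
      rw [← Finset.prod_filter_mul_prod_filter_not univ (fun i => Ns i ≠ 0)
        (fun i => 2 * t ^ 2 * (N i : ℝ))]
      refine le_mul_of_one_le_right (prod_nonneg fun i _ => by positivity) ?_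
      calc (1 : ℝ) = ∏ _i ∈ univ.filter (fun i => ¬ Ns i ≠ 0), (1 : ℝ) := by simp
        _ ≤ _ := prod_le_prod (fun _ _ => zero_le_one) fun i _ => h2s i
    refine h1.trans (h2.trans (le_of_eq ?_))
    rw [Finset.prod_mul_distrib, Finset.prod_const, Finset.card_univ, hι, mul_pow, ← pow_mul]
  have hcard : Fintype.card {i // Ns i ≠ 0} < n := by
    rw [← hι]
    exact Fintype.card_subtype_lt (x := i₀) (by simpa using hNs0)
  set ks : ℝ := k * t ^ n / 3 ^ n with hks
  have hks0 : 0 < ks := by positivity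
  have hratio : Ms / ks ^ 2 ≤ 18 ^ n * (M / k ^ 2) := by
    have h1 : Ms / ks ^ 2 ≤ (2 ^ n * t ^ (2 * n) * M) / ks ^ 2 :=
      div_le_div_of_nonneg_right hMsle (by positivity)
    refine h1.trans (le_of_eq ?_)
    rw [hks]
    have h18 : (18 : ℝ) ^ n = 2 ^ n * (3 ^ n) ^ 2 := by
      rw [← pow_mul, mul_comm n 2, pow_mul, ← mul_pow]
      norm_num
    have htt : t ^ (2 * n) = (t ^ n) ^ 2 := by rw [← pow_mul, mul_comm]
    rw [h18, htt]
    field_simp
  by_cases hcase : C' * (1 + Ms / p) ≤ ks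
  · -- apply the induction hypothesis
    have hPs : Proper v Ns := hP.mono hNsN
    have hind := hC' _ hcard {i // Ns i ≠ 0} rfl p (fun i => v i.1) (fun i => Ns i.1)
      (fun i => Nat.one_le_iff_ne_zero.mpr i.2) hPs.restrict ks hcase
    have hsub : A ⊆ (univ : Finset (V p)).filter fun l =>
        l ≠ 0 ∧ ks ≤ (nn (fun i : {i // Ns i ≠ 0} => v i.1) (fun i => Ns i.1) l : ℝ) := by
      intro l hl
      have h1 := hkey l hl t ht0 ht1
      rw [hAdef, Finset.mem_filter] at hl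
      rw [Finset.mem_filter]
      refine ⟨Finset.mem_univ _, hl.2.1, ?_⟩
      rw [← nn_restrict v Ns l]
      exact h1
    have hle : (A.card : ℝ) ≤ C' * p * (1 + Ms / ks ^ 2) := by
      refine le_trans ?_ hind
      exact_mod_cast Finset.card_le_card hsub
    refine hle.trans ?_
    have h1 : C' * p * (1 + Ms / ks ^ 2) ≤ C' * p * (1 + 18 ^ n * (M / k ^ 2)) :=
      mul_le_mul_of_nonneg_left (by linarith) (by positivity)
    refine h1.trans ?_
    have h18 := hcmp 18 (by norm_num) (by norm_num)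
    have h1' := hcmp 1 (by norm_num) (by norm_num)
    rw [one_pow] at h1'
    have hMk : 0 ≤ M / k ^ 2 := by positivity
    have e1 : C' * p ≤ C * p := mul_le_mul_of_nonneg_right (by linarith) hp0.le
    have h18' : C' * 18 ^ n ≤ C := by
      have : 0 ≤ 18 ^ n * C' := by positivity
      linarith
    have e2 : C' * 18 ^ n * (p * (M / k ^ 2)) ≤ C * (p * (M / k ^ 2)) :=
      mul_le_mul_of_nonneg_right h18' (by positivity)
    calc C' * p * (1 + 18 ^ n * (M / k ^ 2)) = C' * p + C' * 18 ^ n * (p * (M / k ^ 2)) := by ring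
      _ ≤ C * p + C * (p * (M / k ^ 2)) := add_le_add e1 e2
      _ = C * p * (1 + M / k ^ 2) := by ring
  · push Not at hcase
    have h3n : (0 : ℝ) < 3 ^ n := by positivity
    have htn0 : 0 < t ^ n := by positivity
    have htn1 : t ^ n ≤ 1 := pow_le_one₀ ht0.le ht1
    have hMsp : Ms < p := by
      by_contra hcon
      push Not at hcon
      have h1 : 1 ≤ Ms / p := (one_le_div hp0).mpr hcon
      have h2 : ks < 2 * C' * (Ms / p) := by nlinarith
      have h3 : Ms / p ≤ 2 ^ n * t ^ (2 * n) * M / p := div_le_div_of_nonneg_right hMsle hp0.le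
      have h4 : ks < 2 * C' * (2 ^ n * t ^ (2 * n) * M / p) :=
        h2.trans_le (mul_le_mul_of_nonneg_left h3 (by positivity))
      have h5 : k < 2 * C' * 6 ^ n * t ^ n * (M / p) := by
        rw [hks, div_lt_iff₀ h3n] at h4
        have h6 : 2 * C' * (2 ^ n * t ^ (2 * n) * M / p) * 3 ^ n =
            (2 * C' * 6 ^ n * t ^ n * (M / p)) * t ^ n := by
          have : (6 : ℝ) ^ n = 2 ^ n * 3 ^ n := by rw [← mul_pow]; norm_num
          rw [this, two_mul n, pow_add]
          ring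
        rw [h6] at h4
        exact lt_of_mul_lt_mul_right h4 htn0.le
      have h7 : 2 * C' * 6 ^ n * t ^ n * (M / p) ≤ C * (M / p) := by
        have h8 := hcmp 6 (by norm_num) (by norm_num)
        have h9 : 2 * C' * 6 ^ n * t ^ n ≤ 2 * C' * 6 ^ n :=
          mul_le_of_le_one_right (by positivity) htn1
        have h10 : 0 ≤ 6 ^ n * C' := by positivity
        refine mul_le_mul_of_nonneg_right ?_ (by positivity)
        linarith
      linarith
    have hks2 : ks < 2 * C' := by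
      have h1 : Ms / p < 1 := (div_lt_one hp0).mpr hMsp
      nlinarith
    set t' : ℝ := (2 * C' * 3 ^ n / k) ^ ((1 : ℝ) / n) with ht'def
    have hbase0 : 0 < 2 * C' * 3 ^ n / k := by positivity
    have ht'0 : 0 < t' := Real.rpow_pos_of_pos hbase0 _
    have hn0' : (n : ℝ) ≠ 0 := by exact_mod_cast hn0.ne'
    have ht'n : t' ^ n = 2 * C' * 3 ^ n / k := by
      rw [ht'def, ← Real.rpow_natCast, ← Real.rpow_mul hbase0.le, one_div, inv_mul_cancel₀ hn0',
        Real.rpow_one]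
    have ht'1 : t' ≤ 1 := by
      apply Real.rpow_le_one hbase0.le _ (by positivity)
      rw [div_le_one hk0]
      have h8 := hcmp 3 (by norm_num) (by norm_num)
      have h10 : 0 ≤ 3 ^ n * C' := by positivity
      linarith
    have htt' : t ≤ t' := by
      have h1 : t ^ n < t' ^ n := by
        rw [ht'n, lt_div_iff₀ hk0]
        rw [hks, div_lt_iff₀ h3n] at hks2
        linarith
      exact (lt_of_pow_lt_pow_left₀ n ht'0.le h1).le
    have ht'k : k * t' ^ n / 3 ^ n = 2 * C' := by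
      rw [ht'n]
      field_simp
    set N' : ι → ℕ := fun i => ⌊t' ^ 2 * N i⌋₊ with hN'
    have hN'le : ∀ i, (N' i : ℝ) ≤ t' ^ 2 * N i := fun i => Nat.floor_le (by positivity)
    have hN'N : ∀ i, N' i ≤ N i := by
      intro i
      have h1 : (N' i : ℝ) ≤ N i := by
        refine (hN'le i).trans ?_
        have h2 : t' ^ 2 ≤ 1 := pow_le_one₀ ht'0.le ht'1
        have h3 : (0 : ℝ) ≤ N i := by positivity
        nlinarith
      exact_mod_cast h1
    have hsub : A ⊆ (univ : Finset (V p)).filter fun l => l ≠ 0 ∧ 2 ≤ nn v N' l := by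
      intro l hl
      have h1 := hkey l hl t' ht'0 ht'1
      rw [hAdef, Finset.mem_filter] at hl
      rw [Finset.mem_filter]
      refine ⟨Finset.mem_univ _, hl.2.1, ?_⟩
      rw [ht'k] at h1
      have h2 : (2 : ℝ) ≤ (nn v N' l : ℝ) := by linarith
      exact_mod_cast h2
    have hle := card_two_le_nn v N' (hP.mono hN'N)
    have hcardA : (A.card : ℝ) ≤ p * (bx N').card := by
      refine le_trans ?_ hle
      exact_mod_cast Finset.card_le_card hsub
    have hbx : ((bx N').card : ℝ) ≤ C * (M / k ^ 2) := by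
      rw [card_bx]
      push_cast
      calc (∏ i, (2 * (N' i : ℝ) + 1)) ≤ ∏ i, (4 * t' ^ 2 * (N i : ℝ)) := by
            refine prod_le_prod (fun i _ => by positivity) fun i _ => ?_
            have h1 := hN'le i
            have h2 := h2s i
            have h3 : t ^ 2 ≤ t' ^ 2 := pow_le_pow_left₀ ht0.le htt' 2
            have h4 : (0 : ℝ) ≤ N i := by positivity
            have h5 : t ^ 2 * (N i : ℝ) ≤ t' ^ 2 * N i := mul_le_mul_of_nonneg_right h3 h4
            linarith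
        _ = (4 * t' ^ 2) ^ n * M := by
            rw [Finset.prod_mul_distrib, Finset.prod_const, Finset.card_univ, hι]
        _ = 4 ^ n * (t' ^ n) ^ 2 * M := by
            rw [mul_pow, ← pow_mul, ← pow_mul, mul_comm 2 n]
        _ = C * (M / k ^ 2) := by
            rw [ht'n, hCdef]
            have h36' : (36 : ℝ) ^ n = 4 ^ n * (3 ^ n) ^ 2 := by
              rw [← pow_mul, mul_comm n 2, pow_mul, ← mul_pow]
              norm_num
            rw [h36']
            field_simp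
            norm_num
    refine hcardA.trans ?_
    calc (p : ℝ) * (bx N').card ≤ p * (C * (M / k ^ 2)) := mul_le_mul_of_nonneg_left hbx hp0.le
      _ ≤ C * p * (1 + M / k ^ 2) := by
          have : 0 ≤ C * (p : ℝ) := by positivity
          nlinarith

end Pool.Agent.Lib.MP_fdf47d_co.SD
end

section

/-!
# The dual system is proper and its kernels contain Bohr sets

`DualSys.proper`: let `x ∈ bx N'`, `lin u x = 0`, `W_j = Σ_i x_i b i j`.  Its cast to `ZMod p` is
`dot (lin u x) (v j) = 0`, so `p ∣ W_j`; `|W_j| ≤ |W_j| N_j ≤ δ p < p`, so `W_j = 0`.  Hence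
`Σ x_i • b_i = 0` and `x = 0` by linear independence.

`DualSys.count`: for `c ∈ bohr (dot l ∘ v) N c₀` let `W_j = valMinAbs (c * dot l (v j))`, an integer
lift of `dot (c • l) (v j)`; by `expand` there is `x ∈ bx N'` with `W_j = Σ_i x_i b i j`.  Then
`dot (lin u x) (v j) = W_j = dot (c • l) (v j)` for all `j`, so `lin u x = c • l` by the spanning
hypothesis (applied to the difference), hence `dot (perp l) (lin u x) = 0`; and `c ↦ x` is injective
as `c • l = lin u x` and `l ≠ 0`.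
-/

namespace Pool.Agent.Lib.MP_fdf47d_co.SD

open Finset

theorem dualProper_cast {p : ℕ} [Fact p.Prime] {ι κ : Type} [Fintype ι] [DecidableEq ι]
    [Fintype κ] [DecidableEq κ] {v : ι → V p} {N : ι → ℕ} {u : κ → V p} {N' : κ → ℕ}
    {b : κ → ι → ℤ} {δ c₀ : ℝ} (h : DualSys v N u N' b δ c₀) (x : κ → ℤ) (j : ι) :
    ((∑ i, x i * b i j : ℤ) : ZMod p) = dot (lin u x) (v j) := by
  rw [dot_comm, dot_lin]
  push_cast
  refine sum_congr rfl fun i _ => ?_
  rw [h.lift, dot_comm]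

theorem DualSys.proper {p : ℕ} [Fact p.Prime] {ι κ : Type} [Fintype ι] [DecidableEq ι]
    [Fintype κ] [DecidableEq κ] {v : ι → V p} {N : ι → ℕ} {u : κ → V p} {N' : κ → ℕ}
    {b : κ → ι → ℤ} {δ c₀ : ℝ} (h : DualSys v N u N' b δ c₀) (hN : ∀ j, 1 ≤ N j) (hδ : δ < 1) :
    Proper u N' := by
  intro x hx hlin
  have hp : (0 : ℝ) < p := by exact_mod_cast (Fact.out : p.Prime).pos
  have hW : ∀ j, (∑ i, x i * b i j : ℤ) = 0 := by
    intro j
    have h1 : ((∑ i, x i * b i j : ℤ) : ZMod p) = 0 := by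
      rw [dualProper_cast h, hlin]
      exact zero_dot _
    rw [ZMod.intCast_zmod_eq_zero_iff_dvd] at h1
    refine Int.eq_zero_of_abs_lt_dvd h1 ?_
    have h2 := h.small x hx j
    have h3 : (1 : ℝ) ≤ N j := by exact_mod_cast hN j
    have h4 : |((∑ i, x i * b i j : ℤ) : ℝ)| < p := by
      have h5 : (0 : ℝ) ≤ |((∑ i, x i * b i j : ℤ) : ℝ)| := abs_nonneg _
      nlinarith
    exact_mod_cast h4
  have h5 : ∑ i, x i • b i = 0 := by
    funext j
    rw [Finset.sum_apply, Pi.zero_apply, ← hW j]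
    refine sum_congr rfl fun i _ => ?_
    rw [Pi.smul_apply, smul_eq_mul]
  have h6 := Fintype.linearIndependent_iff.1 h.indep x h5
  funext i
  exact h6 i

theorem DualSys.count {p : ℕ} [Fact p.Prime] {ι κ : Type} [Fintype ι] [DecidableEq ι]
    [Fintype κ] [DecidableEq κ] {v : ι → V p} {N : ι → ℕ} {u : κ → V p} {N' : κ → ℕ}
    {b : κ → ι → ℤ} {δ c₀ : ℝ} (h : DualSys v N u N' b δ c₀)
    (hspan : ∀ μ : V p, (∀ j, dot μ (v j) = 0) → μ = 0) {l : V p} (hl : l ≠ 0) :
    (bohr (fun j => dot l (v j)) N c₀).card ≤ nn u N' (perp l) := by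
  have key : ∀ c : ZMod p, ∃ x : κ → ℤ, c ∈ bohr (fun j => dot l (v j)) N c₀ →
      x ∈ bx N' ∧ lin u x = c • l := by
    intro c
    by_cases hc : c ∈ bohr (fun j => dot l (v j)) N c₀
    · obtain ⟨x, hx, hW⟩ := h.expand (fun j => (c * dot l (v j)).valMinAbs)
        ⟨c • l, fun j => by rw [smul_dot, ZMod.coe_valMinAbs]⟩ (fun j => mem_bohr.1 hc j)
      refine ⟨x, fun _ => ⟨hx, ?_⟩⟩
      rw [← sub_eq_zero]
      refine hspan _ fun j => ?_
      have e1 := dualProper_cast h x j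
      rw [← hW j, ZMod.coe_valMinAbs] at e1
      have e2 : dot (lin u x - c • l) (v j) = dot (lin u x) (v j) - dot (c • l) (v j) := by
        rw [dot_comm, dot_sub, dot_comm, dot_comm (v j)]
      rw [e2, ← e1, smul_dot, sub_self]
    · exact ⟨0, fun h => absurd h hc⟩
  choose f hf using key
  unfold nn
  refine card_le_card_of_injOn f (fun c hc => ?_) fun c hc c' hc' hcc => ?_
  · obtain ⟨h1, h2⟩ := hf c (mem_coe.1 hc)
    rw [mem_coe, mem_filter]
    refine ⟨h1, ?_⟩
    rw [h2, dot_smul, dot_perp_self, mul_zero]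
  · have h1 := (hf c (mem_coe.1 hc)).2
    have h2 := (hf c' (mem_coe.1 hc')).2
    rw [hcc, h2] at h1
    exact (smul_left_injective (ZMod p) hl h1).symm

end Pool.Agent.Lib.MP_fdf47d_co.SD
end
end
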