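import Pool.Agent.Lib.MP_fdf47d_co.SD.Defs

section

/-!
# Lower bound: definitions
-/

namespace Pool.Agent.Lib.MP_fdf47d_co.SD

open Finset
open scoped Pointwise

/-- `X` incidences are attained by `m` points of doubling at most `6` and `n` lines. -/
def Good (p : ℕ) [Fact p.Prime] (m n : ℕ) (X : ℝ) : Prop :=
  ∃ (P : Finset (V p)) (L : Finset (Finset (V p))), P.card = m ∧ (P + P).card ≤ 6 * m ∧
    L.card = n ∧ (∀ ℓ ∈ L, IsLine ℓ) ∧ X ≤ ∑ ℓ ∈ L, ((P ∩ ℓ).card : ℝ)

theorem Good.mono {p : ℕ} [Fact p.Prime] {m n : ℕ} {X X' : ℝ} (h : Good p m n X) (hX : X' ≤ X) :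
    Good p m n X' := by
  obtain ⟨P, L, h1, h2, h3, h4, h5⟩ := h
  exact ⟨P, L, h1, h2, h3, h4, hX.trans h5⟩

/-- All lines. -/
def lines (p : ℕ) [Fact p.Prime] : Finset (Finset (V p)) :=
  ((univ : Finset (V p × ZMod p)).filter fun q => q.1 ≠ 0).image fun q => ln q.1 q.2

theorem mem_lines {p : ℕ} [Fact p.Prime] {ℓ : Finset (V p)} : ℓ ∈ lines p ↔ IsLine ℓ := by
  simp only [lines, mem_image, mem_filter, mem_univ, true_and, Prod.exists]
  constructor
  · rintro ⟨x, y, c, h, rfl⟩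
    exact isLine_ln h c
  · intro h
    obtain ⟨l, hl, c, rfl⟩ := h.exists_ln
    exact ⟨l.1, l.2, c, hl, rfl⟩

/-- The non-vertical line `y = s x + t`, as `ln (-s, 1) t`. -/
def nv {p : ℕ} [Fact p.Prime] (s t : ZMod p) : Finset (V p) := ln (-s, 1) t

theorem mem_nv {p : ℕ} [Fact p.Prime] {s t : ZMod p} {z : V p} :
    z ∈ nv s t ↔ z.2 = s * z.1 + t := by
  rw [nv, mem_ln, dot]
  constructor
  · intro h; linear_combination h
  · intro h; linear_combination h

theorem isLine_nv {p : ℕ} [Fact p.Prime] (s t : ZMod p) : IsLine (nv s t) :=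
  isLine_ln (by simp) t

theorem nv_injective {p : ℕ} [Fact p.Prime] :
    Function.Injective (fun q : ZMod p × ZMod p => nv q.1 q.2) := by
  rintro ⟨s, t⟩ ⟨s', t'⟩ h
  simp only at h
  have h0 : ((0, t) : V p) ∈ nv s' t' := by rw [← h, mem_nv]; simp
  have h1 : ((1, s + t) : V p) ∈ nv s' t' := by rw [← h, mem_nv]; simp
  rw [mem_nv] at h0 h1
  simp only [mul_zero, zero_add, mul_one] at h0 h1
  subst h0
  simpa using h1

/-- The row-major initial segment of width `w` with `m` points. -/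
def seg (p w m : ℕ) : Finset (V p) :=
  (range m).image fun k => (((k % w : ℕ) : ZMod p), ((k / w : ℕ) : ZMod p))

end Pool.Agent.Lib.MP_fdf47d_co.SD
end

section

/-!
# The number of lines; completing a set of lines

`card_lines`: every line is `nv s t` (`p²` of them, `nv_injective`) or vertical `ln (1, 0) c` (`p` of
them), and these are different.  Or: `(p - 1) |lines| = #{(l, c) | l ≠ 0} = (p² - 1) p`.

`good_of_sub`: complete `L₀ ⊆ lines p` to a set `L` of exactly `n ≤ p² + p` lines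
(`Finset.exists_subsuperset_card_eq`); the sum only grows.
-/

namespace Pool.Agent.Lib.MP_fdf47d_co.SD

open Finset
open scoped Pointwise

private theorem lowLines_eq (p : ℕ) [Fact p.Prime] :
    lines p = (univ : Finset (ZMod p × ZMod p)).image (fun q => nv q.1 q.2) ∪
      (univ : Finset (ZMod p)).image (fun c => ln ((1, 0) : V p) c) := by
  ext ℓ
  rw [mem_lines, mem_union, mem_image, mem_image]
  constructor
  · intro h
    obtain ⟨l, hl, c, rfl⟩ := h.exists_ln
    by_cases h2 : l.2 = 0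
    · right
      have h1 : l.1 ≠ 0 := fun h1 => hl (Prod.ext h1 h2)
      refine ⟨c / l.1, mem_univ _, ?_⟩
      ext z
      rw [mem_ln, mem_ln, dot, dot, h2]
      simp only [one_mul, zero_mul, add_zero]
      rw [eq_div_iff h1, mul_comm]
    · left
      refine ⟨(-l.1 / l.2, c / l.2), mem_univ _, ?_⟩
      ext z
      rw [mem_nv, mem_ln, dot]
      constructor
      · intro h
        rw [h]
        field_simp
        ring
      · intro h
        rw [← h]
        field_simp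
        ring
  · rintro (⟨q, -, rfl⟩ | ⟨c, -, rfl⟩)
    · exact isLine_nv _ _
    · exact isLine_ln (by simp) c

theorem card_lines (p : ℕ) [Fact p.Prime] : (lines p).card = p ^ 2 + p := by
  rw [lowLines_eq, card_union_of_disjoint]
  · rw [card_image_of_injective _ nv_injective, card_image_of_injective]
    · simp only [card_univ, Fintype.card_prod, ZMod.card]
      ring
    · intro c c' h
      simp only at h
      have h1 : ((c, 0) : V p) ∈ ln ((1, 0) : V p) c' := by
        rw [← h, mem_ln, dot]; simp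
      rw [mem_ln, dot] at h1
      simpa using h1
  · rw [disjoint_left]
    intro ℓ h1 h2
    rw [mem_image] at h1 h2
    obtain ⟨⟨s, t⟩, -, rfl⟩ := h1
    obtain ⟨c, -, h⟩ := h2
    simp only at h
    have h0 : ((0, t) : V p) ∈ ln ((1, 0) : V p) c := by rw [h, mem_nv]; simp
    have h1 : ((1, s + t) : V p) ∈ ln ((1, 0) : V p) c := by rw [h, mem_nv]; simp
    rw [mem_ln, dot] at h0 h1
    simp only [mul_zero, zero_mul, add_zero, mul_one] at h0 h1
    rw [← h0] at h1
    exact one_ne_zero h1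

theorem good_of_sub {p : ℕ} [Fact p.Prime] {m n : ℕ} {X : ℝ} (hn : n ≤ p ^ 2 + p)
    (P : Finset (V p)) (L₀ : Finset (Finset (V p))) (hP : P.card = m)
    (hPP : (P + P).card ≤ 6 * m) (hL : ∀ ℓ ∈ L₀, IsLine ℓ) (hc : L₀.card ≤ n)
    (hX : X ≤ ∑ ℓ ∈ L₀, ((P ∩ ℓ).card : ℝ)) : Good p m n X := by
  have hsub : L₀ ⊆ lines p := fun ℓ hℓ => mem_lines.2 (hL ℓ hℓ)
  obtain ⟨L, h1, h2, h3⟩ := Finset.exists_subsuperset_card_eq hsub hc (by rw [card_lines]; exact hn)
  refine ⟨P, L, hP, hPP, h3, fun ℓ hℓ => mem_lines.1 (h2 hℓ), hX.trans ?_⟩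
  exact Finset.sum_le_sum_of_subset_of_nonneg h1 fun _ _ _ => Nat.cast_nonneg _

end Pool.Agent.Lib.MP_fdf47d_co.SD
end

section

/-!
# The segment

`card_seg`: the map `k ↦ (k % w, k / w)` is injective on `range m`: `k % w < w ≤ p`,
`k / w < p` (as `k < m ≤ w p`), so the casts to `ZMod p` are injective there.

`mem_seg`: `k = j w + i < m` since `(j + 1) w ≤ (m / w) w ≤ m`.

`seg_doubling`: let `h = m / w`.  If `h = 0` then `m < w` and `seg` is `{(k, 0) | k < m}`; the sumset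
is in `{(k, 0) | k < 2 m - 1}`.  If `h ≥ 1`: every element is `(i, j)` with `i < w`, `j ≤ h`, so the
sumset is in the image of `range (2 w - 1) ×ˢ range (2 h + 1)`, of size
`≤ (2 w) (3 h) = 6 w h ≤ 6 m`.
-/

namespace Pool.Agent.Lib.MP_fdf47d_co.SD

open Finset
open scoped Pointwise

theorem card_seg {p w m : ℕ} [Fact p.Prime] (hw : 1 ≤ w) (hwp : w ≤ p) (hm : m ≤ w * p) :
    (seg p w m).card = m := by
  unfold seg
  rw [card_image_of_injOn, card_range]
  intro k hk k' hk' h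
  rw [mem_coe, mem_range] at hk hk'
  simp only [Prod.mk.injEq] at h
  obtain ⟨h1, h2⟩ := h
  rw [ZMod.natCast_eq_natCast_iff'] at h1 h2
  have hm1 : k % w < p := (Nat.mod_lt _ hw).trans_le hwp
  have hm2 : k' % w < p := (Nat.mod_lt _ hw).trans_le hwp
  have hd1 : k / w < p := Nat.div_lt_of_lt_mul (hk.trans_le hm)
  have hd2 : k' / w < p := Nat.div_lt_of_lt_mul (hk'.trans_le hm)
  rw [Nat.mod_eq_of_lt hm1, Nat.mod_eq_of_lt hm2] at h1
  rw [Nat.mod_eq_of_lt hd1, Nat.mod_eq_of_lt hd2] at h2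
  rw [← Nat.div_add_mod k w, ← Nat.div_add_mod k' w, h1, h2]

theorem mem_seg {p w m i j : ℕ} (hi : i < w) (hj : j < m / w) :
    (((i : ℕ) : ZMod p), ((j : ℕ) : ZMod p)) ∈ seg p w m := by
  unfold seg
  have hw : 0 < w := by omega
  refine mem_image.2 ⟨w * j + i, ?_, ?_⟩
  · rw [mem_range]
    have h1 : w * (j + 1) ≤ w * (m / w) := Nat.mul_le_mul_left w hj
    have h2 : w * (m / w) ≤ m := Nat.mul_div_le m w
    have h3 : w * (j + 1) = w * j + w := by ring
    omega
  · have h1 : (w * j + i) % w = i := by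
      rw [Nat.mul_add_mod, Nat.mod_eq_of_lt hi]
    have h2 : (w * j + i) / w = j := by
      rw [Nat.mul_add_div hw, Nat.div_eq_of_lt hi, add_zero]
    rw [h1, h2]

/-- The first row. -/
theorem mem_seg_row {p w m i : ℕ} (hi : i < w) (him : i < m) :
    (((i : ℕ) : ZMod p), (0 : ZMod p)) ∈ seg p w m := by
  unfold seg
  refine mem_image.2 ⟨i, mem_range.2 him, ?_⟩
  rw [Nat.mod_eq_of_lt hi, Nat.div_eq_of_lt hi, Nat.cast_zero]

theorem seg_doubling {p w m : ℕ} [Fact p.Prime] (hw : 1 ≤ w) :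
    (seg p w m + seg p w m).card ≤ 6 * m := by
  have hsub : seg p w m + seg p w m ⊆
      (range (2 * min w m) ×ˢ range (2 * (m / w) + 1)).image
        fun q : ℕ × ℕ => (((q.1 : ℕ) : ZMod p), ((q.2 : ℕ) : ZMod p)) := by
    intro z hz
    obtain ⟨x, hx, y, hy, rfl⟩ := mem_add.1 hz
    unfold seg at hx hy
    obtain ⟨k, hk, rfl⟩ := mem_image.1 hx
    obtain ⟨l, hl, rfl⟩ := mem_image.1 hy
    rw [mem_range] at hk hl
    refine mem_image.2 ⟨(k % w + l % w, k / w + l / w), ?_, ?_⟩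
    · rw [mem_product, mem_range, mem_range]
      have h1 : k % w < w := Nat.mod_lt _ hw
      have h2 : l % w < w := Nat.mod_lt _ hw
      have h3 : k % w ≤ k := Nat.mod_le _ _
      have h4 : l % w ≤ l := Nat.mod_le _ _
      have h5 : k / w ≤ m / w := Nat.div_le_div_right hk.le
      have h6 : l / w ≤ m / w := Nat.div_le_div_right hl.le
      constructor
      · show k % w + l % w < 2 * min w m
        omega
      · show k / w + l / w < 2 * (m / w) + 1
        omega
    · simp only [Nat.cast_add, Prod.mk_add_mk]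
  have hcard : (seg p w m + seg p w m).card ≤ (2 * min w m) * (2 * (m / w) + 1) := by
    refine (card_le_card hsub).trans (card_image_le.trans ?_)
    rw [card_product, card_range, card_range]
  refine hcard.trans ?_
  rcases Nat.eq_zero_or_pos (m / w) with h | h
  · rw [h]
    have : min w m ≤ m := min_le_right _ _
    omega
  · have h1 : min w m ≤ w := min_le_left _ _
    have h2 : w * (m / w) ≤ m := Nat.mul_div_le m w
    calc (2 * min w m) * (2 * (m / w) + 1) ≤ (2 * w) * (3 * (m / w)) :=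
          Nat.mul_le_mul (by omega) (by omega)
      _ = 6 * (w * (m / w)) := by ring
      _ ≤ 6 * m := Nat.mul_le_mul_left 6 h2

end Pool.Agent.Lib.MP_fdf47d_co.SD
end

section

/-!
# The term `m n / p`

`exists_rich_subset`: any finite set `S` has an `n`-subset with at least the average sum
(induction on `|S| - n`: remove an element with minimal `f`).

`good_avg`: `P = seg p p m`; every point is on exactly `p + 1` lines, so
`Σ_{ℓ ∈ lines p} |P ∩ ℓ| = m (p + 1)`, and `|lines p| = p (p + 1)`.  Take the `n` richest lines.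
(Only `≥` is needed: the lines `nv s (y - s x)`, `s ∈ ZMod p`, and `ln (1, 0) x` are `p + 1` distinct
lines through `(x, y)`.)
-/

namespace Pool.Agent.Lib.MP_fdf47d_co.SD

open Finset
open scoped Pointwise

theorem exists_rich_subset {α : Type*} [DecidableEq α] (S : Finset α) (f : α → ℝ) {n : ℕ}
    (hn : n ≤ S.card) : ∃ T ⊆ S, T.card = n ∧ (n : ℝ) * ∑ x ∈ S, f x ≤ S.card * ∑ x ∈ T, f x := by
  obtain ⟨d, hd⟩ : ∃ d, S.card = n + d := ⟨S.card - n, by omega⟩
  induction d generalizing S with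
  | zero =>
    refine ⟨S, Subset.refl _, by omega, ?_⟩
    rw [hd]; simp
  | succ d ih =>
    have hne : S.Nonempty := by
      rw [← card_pos]; omega
    obtain ⟨x, hx, hmin⟩ := S.exists_min_image f hne
    have hc : (S.erase x).card = n + d := by rw [card_erase_of_mem hx]; omega
    obtain ⟨T, hT, hTc, h⟩ := ih (S.erase x) (by omega) hc
    refine ⟨T, hT.trans (erase_subset _ _), hTc, ?_⟩
    have h1 : ∑ y ∈ S, f y = f x + ∑ y ∈ S.erase x, f y := (add_sum_erase _ _ hx).symm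
    have h2 : (n : ℝ) * f x ≤ ∑ y ∈ T, f y := by
      have := Finset.card_nsmul_le_sum T f (f x) fun y hy =>
        hmin y (mem_of_mem_erase (hT hy))
      rw [hTc, nsmul_eq_mul] at this
      exact this
    rw [hc] at h
    rw [h1, hd]
    push_cast at h ⊢
    nlinarith

private theorem goodAvg_count {p : ℕ} [Fact p.Prime] (z : V p) :
    p + 1 ≤ ((lines p).filter fun ℓ => z ∈ ℓ).card := by
  have hsub : insert (ln ((1, 0) : V p) z.1)
      ((univ : Finset (ZMod p)).image fun s => nv s (z.2 - s * z.1)) ⊆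
      (lines p).filter fun ℓ => z ∈ ℓ := by
    intro ℓ hℓ
    rw [mem_insert, mem_image] at hℓ
    rw [mem_filter]
    rcases hℓ with rfl | ⟨s, -, rfl⟩
    · refine ⟨mem_lines.2 (isLine_ln (by simp) _), ?_⟩
      rw [mem_ln, dot]; simp
    · refine ⟨mem_lines.2 (isLine_nv _ _), ?_⟩
      rw [mem_nv]; ring
  refine le_trans ?_ (card_le_card hsub)
  rw [card_insert_of_notMem, card_image_of_injective, card_univ, ZMod.card]
  · intro s s' h
    have h' : (fun q : ZMod p × ZMod p => nv q.1 q.2) (s, z.2 - s * z.1) =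
        (fun q : ZMod p × ZMod p => nv q.1 q.2) (s', z.2 - s' * z.1) := h
    exact (Prod.ext_iff.1 (nv_injective h')).1
  · intro h
    rw [mem_image] at h
    obtain ⟨s, -, h⟩ := h
    have h1 : ((z.1 + 1, z.2 + s) : V p) ∈ ln ((1, 0) : V p) z.1 := by
      rw [← h, mem_nv]; ring
    rw [mem_ln, dot] at h1
    simp at h1

theorem good_avg {p : ℕ} [Fact p.Prime] {m n : ℕ} (hm : m ≤ p ^ 2) (hn : n ≤ p ^ 2 + p) :
    Good p m n ((m : ℝ) * n / p) := by
  have hp : 0 < p := (Fact.out : p.Prime).pos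
  obtain ⟨T, hT, hTc, h⟩ := exists_rich_subset (lines p)
    (fun ℓ => ((seg p p m ∩ ℓ).card : ℝ)) (n := n) (by rw [card_lines]; exact hn)
  have hcard : (seg p p m).card = m := card_seg hp le_rfl (by rw [← sq]; exact hm)
  refine ⟨seg p p m, T, hcard, seg_doubling hp, hTc, fun ℓ hℓ => mem_lines.1 (hT hℓ), ?_⟩
  have hsum : (m : ℝ) * (p + 1) ≤ ∑ ℓ ∈ lines p, ((seg p p m ∩ ℓ).card : ℝ) := by
    have h1 : ∑ ℓ ∈ lines p, (seg p p m ∩ ℓ).card =
        ∑ z ∈ seg p p m, ((lines p).filter fun ℓ => z ∈ ℓ).card := by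
      have e1 : ∀ ℓ ∈ lines p, (seg p p m ∩ ℓ).card = ∑ z ∈ seg p p m, if z ∈ ℓ then 1 else 0 := by
        intro ℓ _
        rw [← filter_mem_eq_inter, card_filter]
      have e2 : ∀ z ∈ seg p p m, ((lines p).filter fun ℓ => z ∈ ℓ).card =
          ∑ ℓ ∈ lines p, if z ∈ ℓ then 1 else 0 := by
        intro z _
        rw [card_filter]
      rw [sum_congr rfl e1, sum_congr rfl e2, sum_comm]
    have h2 : m * (p + 1) ≤ ∑ ℓ ∈ lines p, (seg p p m ∩ ℓ).card := by
      rw [h1]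
      calc m * (p + 1) = (seg p p m).card • (p + 1) := by rw [hcard, smul_eq_mul]
        _ ≤ _ := Finset.card_nsmul_le_sum _ _ _ fun z _ => goodAvg_count z
    exact_mod_cast h2
  rw [card_lines] at h
  push_cast at h
  have hp' : (0 : ℝ) < p := by exact_mod_cast hp
  have hn' : (0 : ℝ) ≤ n := by positivity
  have h3 := mul_le_mul_of_nonneg_left hsum hn'
  have h4 : (n : ℝ) * (m * (p + 1)) ≤ ((p : ℝ) ^ 2 + p) * ∑ ℓ ∈ T, ((seg p p m ∩ ℓ).card : ℝ) :=
    h3.trans h
  rw [div_le_iff₀ hp']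
  have h5 : (m * n : ℝ) * (p + 1) ≤ ((∑ ℓ ∈ T, ((seg p p m ∩ ℓ).card : ℝ)) * p) * (p + 1) := by
    calc (m * n : ℝ) * (p + 1) = n * (m * (p + 1)) := by ring
      _ ≤ _ := h4
      _ = _ := by ring
  exact le_of_mul_le_mul_right h5 (by positivity)

end Pool.Agent.Lib.MP_fdf47d_co.SD
end

section

/-!
# The grid: the term `(m n)^(2/3)`

`1 ≤ m ≤ n²`, `1 ≤ n ≤ m²`, `m n ≤ p³`.  Real numbers: `α = (m²/n)^(1/3) ≥ 1`,
`m / α = (m n)^(1/3) ≤ p`, `α n = (m n)^(2/3)`, `α ≤ √m` (as `n ≥ √m`), `α ≤ (m n)^(1/3) ≤ p` (as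
`m ≤ n²`).
Let `a = ⌊α⌋₊ ≥ α/2`, `w = max a ⌈m/p⌉ ≤ p`, `P = seg p w m` (`m ≤ w p`), `h = m / w` (floor):
`1 ≤ h` (`a ≤ √m ≤ m`, `⌈m/p⌉ ≤ m`), `h ≤ p` (`w ≥ m / p`).
Let `h' = (h + 1) / 2`, `b' = 1 + h / (2 a)` (floors).  Lines `nv s t`, `s < b'`, `t < h'`: distinct
(`b' ≤ 1 + p/2 ≤ p`, `h' ≤ p`), and each contains the `a` points `(x, s x + t)`, `x < a`, which lie
in `P` (`mem_seg`: `x < a ≤ w`,
`s x + t ≤ (b' - 1)(a - 1) + h' - 1 ≤ h/2 + (h + 1)/2 - 1 = h - 1`).
Take `min n (b' h')` of these lines: the sum is at least `a min(n, b' h')`.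
`a n ≥ α n / 2 = (m n)^(2/3) / 2`; `a b' h' ≥ a (h / (2a)) (h / 2) = h² / 4` (real division;
`b' ≥ h/(2a)`, `h' ≥ h/2`).
`h ≥ m / (2 w)` as `m / w ≥ 1`.  If `w = a`: `h ≥ m / (2 α) = (m n)^(1/3) / 2`.  If
`w = ⌈m/p⌉ > a ≥ 1`: `m > p`, `w ≤ 2 m / p`, so `h ≥ p / 4 ≥ (m n)^(1/3) / 4`.  So
`h² / 4 ≥ (m n)^(2/3) / 64`.
-/

namespace Pool.Agent.Lib.MP_fdf47d_co.SD

open Finset
open scoped Pointwise

private theorem goodGrid_real {m n : ℕ} (hm : 1 ≤ m) (hn : 1 ≤ n) (h1 : m ≤ n ^ 2)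
    (h2 : n ≤ m ^ 2) :
    ∃ α Q : ℝ, 1 ≤ α ∧ α ≤ Q ∧ α * Q = m ∧ α * n = Q ^ 2 ∧ α ^ 2 ≤ m ∧ Q ^ 3 = m * n ∧
      Q ^ 2 = (m : ℝ) ^ (2 / 3 : ℝ) * (n : ℝ) ^ (2 / 3 : ℝ) := by
  have hm0 : (0 : ℝ) < m := by exact_mod_cast hm
  have hn0 : (0 : ℝ) < n := by exact_mod_cast hn
  have h1r : (m : ℝ) ≤ (n : ℝ) ^ 2 := by exact_mod_cast h1
  have h2r : (n : ℝ) ≤ (m : ℝ) ^ 2 := by exact_mod_cast h2
  obtain ⟨Q, hQ⟩ : ∃ Q : ℝ, Q = ((m : ℝ) * n) ^ (1 / 3 : ℝ) := ⟨_, rfl⟩
  have hmn : (0 : ℝ) < (m : ℝ) * n := mul_pos hm0 hn0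
  have hQ0 : 0 < Q := by rw [hQ]; exact Real.rpow_pos_of_pos hmn _
  have hQ3 : Q ^ 3 = m * n := by
    rw [hQ, ← Real.rpow_natCast, ← Real.rpow_mul hmn.le]
    norm_num
  have hQ2 : Q ^ 2 = (m : ℝ) ^ (2 / 3 : ℝ) * (n : ℝ) ^ (2 / 3 : ℝ) := by
    rw [← Real.mul_rpow hm0.le hn0.le, hQ, ← Real.rpow_natCast, ← Real.rpow_mul hmn.le]
    norm_num
  have hmQ : (m : ℝ) ≤ Q ^ 2 := by
    have h3 : (m : ℝ) ^ 3 ≤ (Q ^ 2) ^ 3 := by
      have e : (Q ^ 2) ^ 3 = (m : ℝ) ^ 2 * (n : ℝ) ^ 2 := by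
        calc (Q ^ 2) ^ 3 = (Q ^ 3) ^ 2 := by ring
          _ = _ := by rw [hQ3]; ring
      rw [e]
      calc (m : ℝ) ^ 3 = (m : ℝ) ^ 2 * m := by ring
        _ ≤ (m : ℝ) ^ 2 * (n : ℝ) ^ 2 := mul_le_mul_of_nonneg_left h1r (by positivity)
    exact (pow_le_pow_iff_left₀ hm0.le (by positivity) (by norm_num)).1 h3
  have hQm : Q ≤ m := by
    have h3 : Q ^ 3 ≤ (m : ℝ) ^ 3 := by
      rw [hQ3]
      calc (m : ℝ) * n ≤ m * (m : ℝ) ^ 2 := mul_le_mul_of_nonneg_left h2r hm0.le
        _ = _ := by ring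
    exact (pow_le_pow_iff_left₀ hQ0.le hm0.le (by norm_num)).1 h3
  refine ⟨m / Q, Q, ?_, ?_, ?_, ?_, ?_, hQ3, hQ2⟩
  · rw [le_div_iff₀ hQ0]; linarith
  · rw [div_le_iff₀ hQ0]; nlinarith
  · field_simp
  · rw [div_mul_eq_mul_div, div_eq_iff hQ0.ne', ← hQ3]; ring
  · rw [div_pow, div_le_iff₀ (by positivity)]
    calc (m : ℝ) ^ 2 = m * m := by ring
      _ ≤ m * Q ^ 2 := mul_le_mul_of_nonneg_left hmQ hm0.le

private theorem goodGrid_ceil {p m : ℕ} (hp : 2 ≤ p) (hm : 1 ≤ m) (hmp : m ≤ p ^ 2) :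
    ∃ c : ℕ, m ≤ c * p ∧ c * p < m + p ∧ c ≤ p ∧ c ≤ m := by
  have hp0 : 0 < p := by omega
  have e1 : (m + p - 1) / p * p ≤ m + p - 1 := Nat.div_mul_le_self _ _
  have e2 : m + p - 1 < p * ((m + p - 1) / p + 1) := Nat.lt_mul_div_succ _ hp0
  generalize (m + p - 1) / p = c at e1 e2
  have e3 : p * (c + 1) = c * p + p := by ring
  have e4 : c * p < m + p := by omega
  refine ⟨c, by omega, e4, ?_, ?_⟩
  · have : c * p < (p + 1) * p := by
      calc c * p < m + p := e4
        _ ≤ p ^ 2 + p := by omega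
        _ = (p + 1) * p := by ring
    have := Nat.lt_of_mul_lt_mul_right this
    omega
  · have h5 : m + p - 1 ≤ m * p := by
      obtain ⟨m', rfl⟩ : ∃ m', m = m' + 1 := ⟨m - 1, by omega⟩
      have h6 : (m' + 1) * p = m' * p + p := by ring
      have h7 : m' * 1 ≤ m' * p := Nat.mul_le_mul_left m' (by omega)
      omega
    exact Nat.le_of_mul_le_mul_right (e1.trans h5) hp0

/-- `a` points of the line in the segment. -/
private theorem goodGrid_line {p w m a s t : ℕ} [Fact p.Prime] (haw : a ≤ w) (hap : a ≤ p)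
    (hst : ∀ x < a, s * x + t < m / w) :
    a ≤ (seg p w m ∩ nv (s : ZMod p) (t : ZMod p)).card := by
  have hsub : ((range a).image fun x : ℕ => (((x : ℕ) : ZMod p), ((s * x + t : ℕ) : ZMod p))) ⊆
      seg p w m ∩ nv (s : ZMod p) (t : ZMod p) := by
    intro z hz
    obtain ⟨x, hx, rfl⟩ := mem_image.1 hz
    rw [mem_range] at hx
    rw [mem_inter]
    refine ⟨mem_seg (hx.trans_le haw) (hst x hx), ?_⟩
    rw [mem_nv]
    push_cast
    ring
  refine le_trans (le_of_eq ?_) (card_le_card hsub)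
  rw [card_image_of_injOn, card_range]
  intro x hx y hy h
  rw [mem_coe, mem_range] at hx hy
  simp only [Prod.mk.injEq] at h
  have h1 := h.1
  rw [ZMod.natCast_eq_natCast_iff', Nat.mod_eq_of_lt (hx.trans_le hap),
    Nat.mod_eq_of_lt (hy.trans_le hap)] at h1
  exact h1

/-- The lines of the grid. -/
private theorem goodGrid_lines {p B H : ℕ} [Fact p.Prime] (hB : B ≤ p) (hH : H ≤ p) :
    ((range B ×ˢ range H).image fun q : ℕ × ℕ => nv (q.1 : ZMod p) (q.2 : ZMod p)).card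
      = B * H := by
  rw [card_image_of_injOn, card_product, card_range, card_range]
  rintro ⟨s, t⟩ h1 ⟨s', t'⟩ h2 h
  rw [mem_coe, mem_product, mem_range, mem_range] at h1 h2
  simp only at h h1 h2
  have h3 : (((s : ZMod p), (t : ZMod p)) : ZMod p × ZMod p) = ((s' : ZMod p), (t' : ZMod p)) :=
    nv_injective h
  simp only [Prod.mk.injEq] at h3
  obtain ⟨h4, h5⟩ := h3
  rw [ZMod.natCast_eq_natCast_iff', Nat.mod_eq_of_lt (h1.1.trans_le hB),
    Nat.mod_eq_of_lt (h2.1.trans_le hB)] at h4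
  rw [ZMod.natCast_eq_natCast_iff', Nat.mod_eq_of_lt (h1.2.trans_le hH),
    Nat.mod_eq_of_lt (h2.2.trans_le hH)] at h5
  rw [h4, h5]

theorem good_grid {p : ℕ} [Fact p.Prime] {m n : ℕ} (hm : 1 ≤ m) (hn : 1 ≤ n) (hmp : m ≤ p ^ 2)
    (hnp : n ≤ p ^ 2 + p) (h1 : m ≤ n ^ 2) (h2 : n ≤ m ^ 2) (h3 : m * n ≤ p ^ 3) :
    Good p m n (((m : ℝ) ^ (2 / 3 : ℝ) * (n : ℝ) ^ (2 / 3 : ℝ)) / 64) := by
  obtain ⟨α, Q, hα1, hαQ, hαQm, hαn, hαm, hQ3, hQ2⟩ := goodGrid_real hm hn h1 h2
  have hp2 : 2 ≤ p := (Fact.out : p.Prime).two_le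
  have hp0 : (0 : ℝ) < p := by
    have : 0 < p := by omega
    exact_mod_cast this
  have hm0 : (0 : ℝ) < m := by exact_mod_cast hm
  have hn0 : (0 : ℝ) < n := by exact_mod_cast hn
  have hQ0 : 0 < Q := by linarith
  have hQp : Q ≤ p := by
    have h4 : Q ^ 3 ≤ (p : ℝ) ^ 3 := by rw [hQ3]; exact_mod_cast h3
    exact (pow_le_pow_iff_left₀ hQ0.le hp0.le (by norm_num)).1 h4
  obtain ⟨a, ha⟩ : ∃ a : ℕ, a = ⌊α⌋₊ := ⟨_, rfl⟩
  have ha1 : 1 ≤ a := by
    rw [ha]; exact Nat.le_floor (by simpa using hα1)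
  have haα : (a : ℝ) ≤ α := by rw [ha]; exact Nat.floor_le (by linarith)
  have hαa : α < a + 1 := by rw [ha]; exact Nat.lt_floor_add_one α
  have ha1r : (1 : ℝ) ≤ a := by exact_mod_cast ha1
  have hap : a ≤ p := by
    have : (a : ℝ) ≤ p := haα.trans (hαQ.trans hQp)
    exact_mod_cast this
  have ham : a ≤ m := by
    have : (a : ℝ) ≤ m := by nlinarith
    exact_mod_cast this
  obtain ⟨c, hc1, hc2, hc3, hc4⟩ := goodGrid_ceil hp2 hm hmp
  obtain ⟨w, hw⟩ : ∃ w : ℕ, w = max a c := ⟨_, rfl⟩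
  have haw : a ≤ w := by rw [hw]; exact le_max_left _ _
  have hcw : c ≤ w := by rw [hw]; exact le_max_right _ _
  have hw1 : 1 ≤ w := ha1.trans haw
  have hwp : w ≤ p := by rw [hw]; exact max_le hap hc3
  have hwm : w ≤ m := by rw [hw]; exact max_le ham hc4
  have hmw : m ≤ w * p := hc1.trans (Nat.mul_le_mul_right p hcw)
  obtain ⟨h, hh⟩ : ∃ h : ℕ, h = m / w := ⟨_, rfl⟩
  have hh1 : 1 ≤ h := by rw [hh]; exact (Nat.one_le_div_iff (by omega)).2 hwm
  have hhp : h ≤ p := by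
    rw [hh]
    have : m / w ≤ w * p / w := Nat.div_le_div_right hmw
    rwa [Nat.mul_div_cancel_left p (by omega)] at this
  -- the real lower bound for `h`
  have hw0 : (0 : ℝ) < w := by exact_mod_cast hw1
  have hh1r : (1 : ℝ) ≤ h := by exact_mod_cast hh1
  have hhw : (m : ℝ) ≤ 2 * h * w := by
    have e : m < w * (h + 1) := by rw [hh]; exact Nat.lt_mul_div_succ m (by omega)
    have e' : (m : ℝ) < w * (h + 1) := by exact_mod_cast e
    nlinarith
  have hQh : Q ≤ 4 * h := by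
    rcases le_or_gt c a with hca | hca
    · have hwa : w = a := by rw [hw]; exact max_eq_left hca
      have e1 : α * Q ≤ α * (2 * h) := by
        rw [hαQm]
        calc (m : ℝ) ≤ 2 * h * w := hhw
          _ = 2 * h * a := by rw [hwa]
          _ ≤ 2 * h * α := mul_le_mul_of_nonneg_left haα (by positivity)
          _ = _ := by ring
      have e2 : Q ≤ 2 * h := le_of_mul_le_mul_left e1 (by linarith)
      linarith
    · have hwc : w = c := by rw [hw]; exact max_eq_right hca.le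
      have hc2' : 2 ≤ c := by omega
      have hpm : p ≤ m := by
        have : 2 * p ≤ c * p := Nat.mul_le_mul_right p hc2'
        omega
      have hpmr : (p : ℝ) ≤ m := by exact_mod_cast hpm
      have hc2r : (c : ℝ) * p < m + p := by exact_mod_cast hc2
      have e1 : (m : ℝ) * p ≤ m * (4 * h) := by
        have e2 : (m : ℝ) * p ≤ 2 * h * (c * p) := by
          calc (m : ℝ) * p ≤ (2 * h * w) * p := mul_le_mul_of_nonneg_right hhw hp0.le
            _ = 2 * h * (c * p) := by rw [hwc]; ring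
        have e3 : 2 * (h : ℝ) * (c * p) ≤ 2 * h * (2 * m) :=
          mul_le_mul_of_nonneg_left (by linarith) (by positivity)
        calc (m : ℝ) * p ≤ 2 * h * (c * p) := e2
          _ ≤ 2 * h * (2 * m) := e3
          _ = _ := by ring
      have e2 : (p : ℝ) ≤ 4 * h := le_of_mul_le_mul_left e1 hm0
      linarith
  -- the lines
  obtain ⟨B, hB⟩ : ∃ B : ℕ, B = 1 + h / (2 * a) := ⟨_, rfl⟩
  obtain ⟨H, hH⟩ : ∃ H : ℕ, H = (h + 1) / 2 := ⟨_, rfl⟩
  have hBa : h / (2 * a) * a ≤ h / 2 := by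
    rw [Nat.le_div_iff_mul_le (by norm_num)]
    calc h / (2 * a) * a * 2 = h / (2 * a) * (2 * a) := by ring
      _ ≤ h := Nat.div_mul_le_self _ _
  have hB2 : h / (2 * a) ≤ h / 2 := by
    calc h / (2 * a) = h / (2 * a) * 1 := by ring
      _ ≤ h / (2 * a) * a := Nat.mul_le_mul_left _ ha1
      _ ≤ h / 2 := hBa
  have hBp : B ≤ p := by omega
  have hHp : H ≤ p := by omega
  obtain ⟨L₁, hL₁⟩ : ∃ L₁ : Finset (Finset (V p)), L₁ = (range B ×ˢ range H).image
    fun q : ℕ × ℕ => nv (q.1 : ZMod p) (q.2 : ZMod p) := ⟨_, rfl⟩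
  have hL₁c : L₁.card = B * H := by rw [hL₁]; exact goodGrid_lines hBp hHp
  obtain ⟨L₀, hL₀, hL₀c⟩ := Finset.exists_subset_card_eq (s := L₁) (n := min n (B * H))
    (by rw [hL₁c]; exact min_le_right _ _)
  have hrich : ∀ ℓ ∈ L₁, IsLine ℓ ∧ a ≤ (seg p w m ∩ ℓ).card := by
    intro ℓ hℓ
    rw [hL₁] at hℓ
    obtain ⟨⟨s, t⟩, hq, rfl⟩ := mem_image.1 hℓ
    rw [mem_product, mem_range, mem_range] at hq
    refine ⟨isLine_nv _ _, goodGrid_line haw hap ?_⟩
    intro x hx
    rw [← hh]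
    simp only at hq
    have e1 : s ≤ h / (2 * a) := by omega
    have e2 : s * x ≤ h / (2 * a) * a := Nat.mul_le_mul e1 hx.le
    show s * x + t < h
    omega
  refine good_of_sub hnp (seg p w m) L₀ (card_seg hw1 hwp hmw) (seg_doubling hw1)
    (fun ℓ hℓ => (hrich ℓ (hL₀ hℓ)).1) (by rw [hL₀c]; exact min_le_left _ _) ?_
  have hsum : (L₀.card : ℝ) * a ≤ ∑ ℓ ∈ L₀, ((seg p w m ∩ ℓ).card : ℝ) := by
    rw [← nsmul_eq_mul]
    exact card_nsmul_le_sum _ _ _ fun ℓ hℓ => by exact_mod_cast (hrich ℓ (hL₀ hℓ)).2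
  refine le_trans ?_ hsum
  rw [hL₀c, ← hQ2]
  rcases le_total n (B * H) with hc | hc
  · rw [min_eq_left hc]
    have e1 : Q ^ 2 ≤ (2 * a) * n := by
      rw [← hαn]
      exact mul_le_mul_of_nonneg_right (by linarith) hn0.le
    nlinarith
  · rw [min_eq_right hc]
    have hBr : (h : ℝ) ≤ B * (2 * a) := by
      have e : h < 2 * a * (h / (2 * a) + 1) := Nat.lt_mul_div_succ h (by omega)
      have e' : h ≤ B * (2 * a) := by
        rw [hB]
        calc h ≤ 2 * a * (h / (2 * a) + 1) := e.le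
          _ = _ := by ring
      exact_mod_cast e'
    have hHr : (h : ℝ) ≤ 2 * H := by
      have e : h ≤ 2 * H := by omega
      exact_mod_cast e
    have e3 : (h : ℝ) * h ≤ (B * (2 * a)) * (2 * H) := mul_le_mul hBr hHr (by positivity)
      (by positivity)
    have e4 : Q ^ 2 ≤ 16 * (h * h) := by nlinarith
    push_cast
    nlinarith

end Pool.Agent.Lib.MP_fdf47d_co.SD
end

section

/-!
# The terms `m` and `n`

`good_m`: `P = seg p p m`, horizontal lines `nv 0 j`.  With `r = ⌈m / p⌉ ≤ p` (the number of nonempty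
rows): if `n ≥ r` take the lines `j < r`, they cover `P`, the sum is `m`.  If `n < r` take the
lines `j < n`: `n ≤ r - 1 ≤ m / p` (floor), the rows `j < n` are full (`mem_seg`), the sum is `n p`.

`good_n`: `P = seg p p m`, `m' = min m p`; `(x, 0) ∈ P` for `x < m'` (`mem_seg_row`).  The lines
`nv s (-s x)`, `x < m'`, `s ≠ 0`, pass through `(x, 0)` and are `m' (p - 1)` distinct lines.  Take
`min n (m' (p - 1))` of them: the sum is at least `min n (m' (p-1))`.  If `m' = m` then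
`m (p - 1) ≥ m p / 2`; if `m' = p` then `p (p - 1) ≥ (p² + p)/3 ≥ n / 3`.
-/

namespace Pool.Agent.Lib.MP_fdf47d_co.SD

open Finset
open scoped Pointwise

private theorem goodMN_cast_inj {p : ℕ} {i j : ℕ} (hi : i < p) (hj : j < p)
    (h : ((i : ℕ) : ZMod p) = ((j : ℕ) : ZMod p)) : i = j := by
  rw [ZMod.natCast_eq_natCast_iff'] at h
  rwa [Nat.mod_eq_of_lt hi, Nat.mod_eq_of_lt hj] at h

theorem good_m {p : ℕ} [Fact p.Prime] {m n : ℕ} (hm : m ≤ p ^ 2) (hn : n ≤ p ^ 2 + p) :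
    Good p m n (min (m : ℝ) (n * p)) := by
  have hp : 0 < p := (Fact.out : p.Prime).pos
  have hcard : (seg p p m).card = m := card_seg hp le_rfl (by rw [← sq]; exact hm)
  by_cases hr : m ≤ n * p
  · -- the lines cover
    set r := (m + p - 1) / p with hrdef
    have hrn : r ≤ n := by
      rw [hrdef, ← Nat.lt_succ_iff, Nat.div_lt_iff_lt_mul hp, Nat.succ_mul]
      omega
    refine good_of_sub hn (seg p p m) ((range r).image fun j : ℕ => nv (0 : ZMod p) (j : ZMod p)) hcard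
      (seg_doubling hp) ?_ (card_image_le.trans (by rw [card_range]; exact hrn)) ?_
    · intro ℓ hℓ
      rw [mem_image] at hℓ
      obtain ⟨j, -, rfl⟩ := hℓ
      exact isLine_nv _ _
    · refine (min_le_left _ _).trans ?_
      have hsub : seg p p m ⊆ ((range r).image fun j : ℕ => nv (0 : ZMod p) (j : ZMod p)).biUnion
          fun ℓ => seg p p m ∩ ℓ := by
        intro z hz
        rw [mem_biUnion]
        have hz' := hz
        rw [seg, mem_image] at hz'
        obtain ⟨k, hk, rfl⟩ := hz'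
        rw [mem_range] at hk
        refine ⟨nv (0 : ZMod p) ((k / p : ℕ) : ZMod p), mem_image.2 ⟨k / p, ?_, rfl⟩, ?_⟩
        · rw [mem_range, Nat.div_lt_iff_lt_mul hp]
          have h1 : m + p - 1 < (r + 1) * p := by
            have := Nat.lt_succ_self r
            rw [hrdef] at this
            rw [Nat.succ_eq_add_one, Nat.div_lt_iff_lt_mul hp] at this
            rw [hrdef]
            exact this
          rw [Nat.add_mul, one_mul] at h1
          omega
        · rw [mem_inter]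
          refine ⟨hz, ?_⟩
          rw [mem_nv]; simp
      have h1 := (card_le_card hsub).trans card_biUnion_le
      rw [hcard] at h1
      exact_mod_cast h1
  · push Not at hr
    have hnp : n < p := by
      by_contra hcon
      push Not at hcon
      have : p * p ≤ n * p := Nat.mul_le_mul_right p hcon
      rw [← sq] at this
      omega
    have hinj : Set.InjOn (fun j : ℕ => nv (0 : ZMod p) (j : ZMod p)) (range n : Set ℕ) := by
      intro i hi j hj h
      simp only [coe_range, Set.mem_Iio] at hi hj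
      have h' : (fun q : ZMod p × ZMod p => nv q.1 q.2) (0, (i : ZMod p)) =
        (fun q : ZMod p × ZMod p => nv q.1 q.2) (0, (j : ZMod p)) := h
      exact goodMN_cast_inj (hi.trans hnp) (hj.trans hnp) (Prod.ext_iff.1 (nv_injective h')).2
    refine good_of_sub hn (seg p p m) ((range n).image fun j : ℕ => nv (0 : ZMod p) (j : ZMod p)) hcard
      (seg_doubling hp) ?_ (card_image_le.trans (by rw [card_range])) ?_
    · intro ℓ hℓ
      rw [mem_image] at hℓ
      obtain ⟨j, -, rfl⟩ := hℓ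
      exact isLine_nv _ _
    · refine (min_le_right _ _).trans ?_
      rw [sum_image hinj]
      have h1 : ∀ j ∈ range n, p ≤ (seg p p m ∩ nv (0 : ZMod p) (j : ZMod p)).card := by
        intro j hj
        rw [mem_range] at hj
        have hjm : j < m / p := by
          rw [Nat.lt_iff_add_one_le, Nat.le_div_iff_mul_le hp]
          calc (j + 1) * p ≤ n * p := Nat.mul_le_mul_right p hj
            _ ≤ m := hr.le
        have hsub : ((range p).image fun i : ℕ => (((i : ℕ) : ZMod p), ((j : ℕ) : ZMod p))) ⊆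
            seg p p m ∩ nv (0 : ZMod p) (j : ZMod p) := by
          intro z hz
          rw [mem_image] at hz
          obtain ⟨i, hi, rfl⟩ := hz
          rw [mem_range] at hi
          rw [mem_inter]
          refine ⟨mem_seg hi hjm, ?_⟩
          rw [mem_nv]; simp
        refine le_trans ?_ (card_le_card hsub)
        rw [card_image_of_injOn, card_range]
        intro i hi i' hi' h
        simp only [coe_range, Set.mem_Iio] at hi hi'
        exact goodMN_cast_inj hi hi' (Prod.ext_iff.1 h).1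
      have h2 := Finset.card_nsmul_le_sum (range n)
        (fun j => (seg p p m ∩ nv (0 : ZMod p) (j : ZMod p)).card) p h1
      rw [card_range, smul_eq_mul] at h2
      exact_mod_cast h2

theorem good_n {p : ℕ} [Fact p.Prime] {m n : ℕ} (hm : m ≤ p ^ 2) (hn : n ≤ p ^ 2 + p) :
    Good p m n (min (n : ℝ) (m * p) / 3) := by
  have hp : 0 < p := (Fact.out : p.Prime).pos
  have hp2 : 2 ≤ p := (Fact.out : p.Prime).two_le
  have hcard : (seg p p m).card = m := card_seg hp le_rfl (by rw [← sq]; exact hm)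
  set m' := min m p with hm'
  set S : Finset (ℕ × ZMod p) := range m' ×ˢ (univ.erase 0) with hS
  have hScard : S.card = m' * (p - 1) := by
    rw [hS, card_product, card_range, card_erase_of_mem (mem_univ _), card_univ, ZMod.card]
  have hinj : Set.InjOn (fun q : ℕ × ZMod p => nv q.2 (-(q.2 * (q.1 : ZMod p)))) (S : Set _) := by
    rintro ⟨i, s⟩ hi ⟨j, t⟩ hj h
    rw [mem_coe, hS, mem_product, mem_range, mem_erase] at hi hj
    simp only at hi hj h
    have h' : (fun q : ZMod p × ZMod p => nv q.1 q.2) (s, -(s * (i : ZMod p))) =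
      (fun q : ZMod p × ZMod p => nv q.1 q.2) (t, -(t * (j : ZMod p))) := h
    obtain ⟨e1, e2⟩ := Prod.ext_iff.1 (nv_injective h')
    simp only at e1 e2
    subst e1
    have e3 : (i : ZMod p) = (j : ZMod p) := mul_left_cancel₀ hi.2.1 (neg_injective e2)
    have hip : i < p := lt_of_lt_of_le hi.1 (min_le_right _ _)
    have hjp : j < p := lt_of_lt_of_le hj.1 (min_le_right _ _)
    rw [goodMN_cast_inj hip hjp e3]
  set L₁ : Finset (Finset (V p)) :=
    S.image (fun q : ℕ × ZMod p => nv q.2 (-(q.2 * (q.1 : ZMod p)))) with hL₁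
  have hL₁c : L₁.card = m' * (p - 1) := by rw [hL₁, card_image_of_injOn hinj, hScard]
  obtain ⟨L₀, hL₀, hL₀c⟩ := exists_subset_card_eq
    (show min n (m' * (p - 1)) ≤ L₁.card by rw [hL₁c]; exact min_le_right _ _)
  have hline : ∀ ℓ ∈ L₀, IsLine ℓ := by
    intro ℓ hℓ
    have := hL₀ hℓ
    rw [hL₁, mem_image] at this
    obtain ⟨q, -, rfl⟩ := this
    exact isLine_nv _ _
  refine good_of_sub hn (seg p p m) L₀ hcard (seg_doubling hp) hline
    (hL₀c.le.trans (min_le_left _ _)) ?_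
  have h1 : ∀ ℓ ∈ L₀, 1 ≤ (seg p p m ∩ ℓ).card := by
    intro ℓ hℓ
    have := hL₀ hℓ
    rw [hL₁, mem_image] at this
    obtain ⟨⟨i, s⟩, hq, rfl⟩ := this
    rw [hS, mem_product, mem_range] at hq
    rw [Nat.succ_le_iff, card_pos]
    refine ⟨(((i : ℕ) : ZMod p), (0 : ZMod p)), mem_inter.2 ⟨mem_seg_row
      (lt_of_lt_of_le hq.1 (min_le_right _ _)) (lt_of_lt_of_le hq.1 (min_le_left _ _)), ?_⟩⟩
    rw [mem_nv]; ring
  have h2 := Finset.card_nsmul_le_sum L₀ (fun ℓ => (seg p p m ∩ ℓ).card) 1 h1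
  rw [hL₀c, smul_eq_mul, mul_one] at h2
  have h3 : ((min n (m' * (p - 1)) : ℕ) : ℝ) ≤ ∑ ℓ ∈ L₀, ((seg p p m ∩ ℓ).card : ℝ) := by
    exact_mod_cast h2
  refine le_trans ?_ h3
  rw [Nat.cast_min, le_min_iff]
  have hn0 : (0 : ℝ) ≤ n := by positivity
  have hp2' : (2 : ℝ) ≤ p := by exact_mod_cast hp2
  constructor
  · have : min (n : ℝ) (m * p) ≤ n := min_le_left _ _
    linarith
  · rw [Nat.cast_mul, Nat.cast_sub hp, Nat.cast_one]
    rcases le_total m p with h | h
    · have e : m' = m := min_eq_left h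
      rw [e]
      have h4 : min (n : ℝ) (m * p) ≤ m * p := min_le_right _ _
      have hm0 : (0 : ℝ) ≤ m := by positivity
      nlinarith
    · have e : m' = p := min_eq_right h
      rw [e]
      have h4 : min (n : ℝ) (m * p) ≤ n := min_le_left _ _
      have h5 : (n : ℝ) ≤ (p : ℝ) ^ 2 + p := by exact_mod_cast hn
      nlinarith

end Pool.Agent.Lib.MP_fdf47d_co.SD
end

section

/-!
# The lower bound

Let `X` be the largest of the four terms of `TT p m n`, so `TT ≤ 4 X`.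
`X = m n / p`: `good_avg`.  `X = m`: `good_m`.  `X = n`: `good_n`.  `X = (m n)^(2/3)`: if `n² < m`
then `(m n)^(2/3) ≤ m` (`good_m`); if `m² < n` then `≤ n` (`good_n`); if `m n > p³` then
`(m n)^(2/3) ≤ m n / p` (`good_avg`); otherwise `good_grid`.
-/

namespace Pool.Agent.Lib.MP_fdf47d_co.SD

open Finset
open scoped Pointwise

private theorem lower_rpow_le {x y : ℝ} (hx : 0 < x) (hy : 0 ≤ y) (h : y ^ 2 ≤ x) :
    x ^ (2 / 3 : ℝ) * y ^ (2 / 3 : ℝ) ≤ x := by
  have h1 : y ^ (2 / 3 : ℝ) = (y ^ 2) ^ (1 / 3 : ℝ) := by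
    rw [← Real.rpow_natCast, ← Real.rpow_mul hy]
    norm_num
  have h2 : (y ^ 2) ^ (1 / 3 : ℝ) ≤ x ^ (1 / 3 : ℝ) :=
    Real.rpow_le_rpow (by positivity) h (by norm_num)
  calc x ^ (2 / 3 : ℝ) * y ^ (2 / 3 : ℝ) ≤ x ^ (2 / 3 : ℝ) * x ^ (1 / 3 : ℝ) := by
        rw [h1]
        exact mul_le_mul_of_nonneg_left h2 (by positivity)
    _ = x := by
        rw [← Real.rpow_add hx]
        norm_num

private theorem lower_rpow_le' {x q : ℝ} (hx : 0 < x) (hq : 0 < q) (h : q ^ 3 ≤ x) :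
    x ^ (2 / 3 : ℝ) ≤ x / q := by
  have h1 : q = (q ^ 3) ^ (1 / 3 : ℝ) := by
    rw [← Real.rpow_natCast, ← Real.rpow_mul hq.le]
    norm_num
  have h2 : q ≤ x ^ (1 / 3 : ℝ) := by
    rw [h1]
    exact Real.rpow_le_rpow (by positivity) h (by norm_num)
  rw [le_div_iff₀ hq]
  calc x ^ (2 / 3 : ℝ) * q ≤ x ^ (2 / 3 : ℝ) * x ^ (1 / 3 : ℝ) :=
        mul_le_mul_of_nonneg_left h2 (by positivity)
    _ = x := by
        rw [← Real.rpow_add hx]
        norm_num

theorem lower {p : ℕ} [Fact p.Prime] {m n : ℕ} (hm : 1 ≤ m) (hn : 1 ≤ n) (hmp : m ≤ p ^ 2)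
    (hnp : n ≤ p ^ 2 + p) :
    Good p m n (min (TT p m n) (min ((m : ℝ) * p) (n * p)) / 256) := by
  have hp0 : (0 : ℝ) < p := by exact_mod_cast (Fact.out : p.Prime).pos
  have hm0 : (0 : ℝ) < m := by exact_mod_cast hm
  have hn0 : (0 : ℝ) < n := by exact_mod_cast hn
  set a : ℝ := (m : ℝ) ^ (2 / 3 : ℝ) * (n : ℝ) ^ (2 / 3 : ℝ) with ha
  set b : ℝ := (m : ℝ) * n / p with hb
  have ha0 : 0 ≤ a := by positivity
  have hb0 : 0 ≤ b := by positivity
  have hmp0 : (0 : ℝ) ≤ (m : ℝ) * p := by positivity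
  have hnp0 : (0 : ℝ) ≤ (n : ℝ) * p := by positivity
  have hTT : TT p m n = a + b + m + n := rfl
  set Z : ℝ := min (TT p m n) (min ((m : ℝ) * p) (n * p)) with hZ
  have hZ1 : Z ≤ a + b + m + n := by rw [← hTT]; exact min_le_left _ _
  have hZ2 : Z ≤ (m : ℝ) * p := (min_le_right _ _).trans (min_le_left _ _)
  have hZ3 : Z ≤ (n : ℝ) * p := (min_le_right _ _).trans (min_le_right _ _)
  -- the cases
  have caseb : Z ≤ 4 * b → Good p m n (Z / 256) := fun h =>
    (good_avg hmp hnp).mono (by rw [← hb]; linarith)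
  have casem : Z ≤ 4 * m → Good p m n (Z / 256) := fun h =>
    (good_m hmp hnp).mono (le_min (by linarith) (by linarith))
  have casen : Z ≤ 4 * n → Good p m n (Z / 256) := fun h =>
    (good_n hmp hnp).mono (by
      have : Z / 85 ≤ min (n : ℝ) (m * p) := le_min (by linarith) (by linarith)
      rcases le_or_gt 0 Z with h0 | h0
      · linarith
      · have h1 : (0 : ℝ) ≤ min (n : ℝ) (m * p) := le_min hn0.le hmp0
        linarith)
  rcases le_total a (max b (max (m : ℝ) n)) with h | h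
  · rcases le_total b (max (m : ℝ) n) with h' | h'
    · rw [max_eq_right h'] at h
      rcases le_total (m : ℝ) n with h'' | h''
      · rw [max_eq_right h''] at h h'
        exact casen (by linarith)
      · rw [max_eq_left h''] at h h'
        exact casem (by linarith)
    · rw [max_eq_left h'] at h
      have h1 := (le_max_left (m : ℝ) (n : ℝ)).trans h'
      have h2 := (le_max_right (m : ℝ) (n : ℝ)).trans h'
      exact caseb (by linarith)
  · have h1 := (le_max_left b (max (m : ℝ) n)).trans h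
    have h2 := ((le_max_left (m : ℝ) (n : ℝ)).trans (le_max_right b _)).trans h
    have h3 := ((le_max_right (m : ℝ) (n : ℝ)).trans (le_max_right b _)).trans h
    have h4 : Z ≤ 4 * a := by linarith
    rcases Nat.lt_or_ge (n ^ 2) m with c1 | c1
    · have h5 : a ≤ m := lower_rpow_le hm0 hn0.le (by exact_mod_cast c1.le)
      exact casem (by linarith)
    rcases Nat.lt_or_ge (m ^ 2) n with c2 | c2
    · have h5 : a ≤ n := by
        rw [ha, mul_comm]
        exact lower_rpow_le hn0 hm0.le (by exact_mod_cast c2.le)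
      exact casen (by linarith)
    rcases Nat.lt_or_ge (p ^ 3) (m * n) with c3 | c3
    · have h5 : a ≤ b := by
        rw [ha, hb, ← Real.mul_rpow hm0.le hn0.le]
        exact lower_rpow_le' (by positivity) hp0 (by exact_mod_cast c3.le)
      exact caseb (by linarith)
    exact (good_grid hm hn hmp hnp c1 c2 c3).mono (by rw [← ha]; linarith)

end Pool.Agent.Lib.MP_fdf47d_co.SD
end
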