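import Pool.Agent.Lib.MP_fdf47d_co.SD.Upper
import Pool.Agent.Lib.MP_fdf47d_co.SD.Lower

/-!
# Final assembly

`inc P L` is the number of incidences; `tt p m n = min (TT p m n) (min (m p) (n p))`.

`inc_le`: `inc P L = Σ_{ℓ ∈ L} |P ∩ ℓ|`.
`upper_tt`: the bound `C TT` from `upper`; `inc ≤ n p` (a line has `p` points); `inc ≤ m (p + 1) ≤
2 m p` (a point `z` is on the lines `ln l (dot l z)` only; there are `p + 1` of them).
`upper_dual`: for `S ⊆ V p` with `|S + S| ≤ K |S|`, the lines `nv a b`, `(a, b) ∈ S`, and `P` any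
point set: `(x, y) ∈ nv a b ↔ (a, b) ∈ nv (-x) y`, so `inc P {nv a b} = inc S {nv (-x) y | (x,y) ∈ P}`.
-/

namespace Pool.Agent.Lib.MP_fdf47d_co.SD

open Finset
open scoped Pointwise

/-- The number of incidences. -/
def inc {p : ℕ} (P : Finset (V p)) (L : Finset (Finset (V p))) : ℕ :=
  ((P ×ˢ L).filter fun q => q.1 ∈ q.2).card

theorem inc_eq_sum {p : ℕ} (P : Finset (V p)) (L : Finset (Finset (V p))) :
    inc P L = ∑ ℓ ∈ L, (P ∩ ℓ).card := by
  rw [inc, card_filter, sum_product_right]
  refine sum_congr rfl fun ℓ _ => ?_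
  rw [← card_filter, filter_mem_eq_inter]

private theorem main_card_ln {p : ℕ} [Fact p.Prime] {l : V p} (hl : l ≠ 0) (c : ZMod p) :
    (ln l c).card ≤ p := by
  have hcard : (univ : Finset (ZMod p)).card = p := by
    rw [card_univ, ZMod.card]
  by_cases h2 : l.2 = 0
  · have h1 : l.1 ≠ 0 := fun h1 => hl (Prod.ext h1 h2)
    calc (ln l c).card ≤ (univ : Finset (ZMod p)).card := by
          refine card_le_card_of_injOn (fun z => z.2) (fun _ _ => by simp) ?_
          intro z hz w hw hzw
          simp only [mem_coe, mem_ln, dot, h2, zero_mul, add_zero] at hz hw hzw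
          have : l.1 * (z.1 - w.1) = 0 := by linear_combination hz - hw
          rcases mul_eq_zero.mp this with h | h
          · exact absurd h h1
          · exact Prod.ext (sub_eq_zero.mp h) hzw
      _ = p := hcard
  · calc (ln l c).card ≤ (univ : Finset (ZMod p)).card := by
          refine card_le_card_of_injOn (fun z => z.1) (fun _ _ => by simp) ?_
          intro z hz w hw hzw
          simp only [mem_coe, mem_ln, dot] at hz hw hzw
          have : l.2 * (z.2 - w.2) = 0 := by
            rw [hzw] at hz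
            linear_combination hz - hw
          rcases mul_eq_zero.mp this with h | h
          · exact absurd h h2
          · exact Prod.ext hzw (sub_eq_zero.mp h)
      _ = p := hcard

theorem inc_le_n {p : ℕ} [Fact p.Prime] (P : Finset (V p)) (L : Finset (Finset (V p)))
    (hL : ∀ ℓ ∈ L, IsLine ℓ) : inc P L ≤ L.card * p := by
  rw [inc_eq_sum]
  calc ∑ ℓ ∈ L, (P ∩ ℓ).card ≤ ∑ _ℓ ∈ L, p := by
        refine sum_le_sum fun ℓ hℓ => ?_
        obtain ⟨l, hl, c, rfl⟩ := (hL ℓ hℓ).exists_ln
        exact (card_le_card inter_subset_right).trans (main_card_ln hl c)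
    _ = L.card * p := by rw [sum_const, smul_eq_mul]

private theorem main_lines_through {p : ℕ} [Fact p.Prime] (z : V p) {ℓ : Finset (V p)}
    (hℓ : IsLine ℓ) (hz : z ∈ ℓ) :
    ℓ ∈ insert (ln (1, 0) z.1) ((univ : Finset (ZMod p)).image fun s => nv s (z.2 - s * z.1)) := by
  obtain ⟨l, hl, c, rfl⟩ := hℓ.exists_ln
  rw [mem_ln, dot] at hz
  by_cases h2 : l.2 = 0
  · have h1 : l.1 ≠ 0 := fun h1 => hl (Prod.ext h1 h2)
    refine mem_insert.mpr (Or.inl ?_)
    ext w
    rw [mem_ln, mem_ln, dot, dot]
    simp only [h2, zero_mul, add_zero, one_mul] at hz ⊢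
    constructor
    · intro h
      exact mul_left_cancel₀ h1 (h.trans hz.symm)
    · intro h
      rw [h, hz]
  · refine mem_insert.mpr (Or.inr (mem_image.mpr ⟨-l.1 / l.2, mem_univ _, ?_⟩))
    ext w
    rw [mem_ln, mem_nv, dot]
    constructor
    · intro h
      rw [h]
      field_simp
      linear_combination hz
    · intro h
      field_simp
      linear_combination h - hz

theorem inc_le_m {p : ℕ} [Fact p.Prime] (P : Finset (V p)) (L : Finset (Finset (V p)))
    (hL : ∀ ℓ ∈ L, IsLine ℓ) : inc P L ≤ P.card * (p + 1) := by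
  rw [inc, card_filter, sum_product]
  calc ∑ z ∈ P, ∑ ℓ ∈ L, (if z ∈ ℓ then 1 else 0) ≤ ∑ _z ∈ P, (p + 1) := by
        refine sum_le_sum fun z _ => ?_
        rw [← card_filter]
        calc (L.filter fun ℓ => z ∈ ℓ).card
            ≤ (insert (ln (1, 0) z.1)
                ((univ : Finset (ZMod p)).image fun s => nv s (z.2 - s * z.1))).card := by
              refine card_le_card fun ℓ hℓ => ?_
              rw [mem_filter] at hℓ
              exact main_lines_through z (hL ℓ hℓ.1) hℓ.2
          _ ≤ ((univ : Finset (ZMod p)).image fun s => nv s (z.2 - s * z.1)).card + 1 :=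
              card_insert_le _ _
          _ ≤ p + 1 := by
              have := card_image_le (s := (univ : Finset (ZMod p)))
                (f := fun s => nv s (z.2 - s * z.1))
              rw [card_univ, ZMod.card] at this
              omega
    _ = P.card * (p + 1) := by rw [sum_const, smul_eq_mul]

private theorem main_nv_injective' {p : ℕ} [Fact p.Prime] :
    Function.Injective (fun z : V p => nv (-z.1) z.2) := by
  intro z w h
  have := nv_injective (p := p) (a₁ := (-z.1, z.2)) (a₂ := (-w.1, w.2)) h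
  simp only [Prod.mk.injEq, neg_inj] at this
  exact Prod.ext this.1 this.2

theorem inc_dual {p : ℕ} [Fact p.Prime] (P S : Finset (V p)) :
    inc P (S.image fun q => nv q.1 q.2) = inc S (P.image fun z => nv (-z.1) z.2) := by
  rw [inc_eq_sum, inc_eq_sum, sum_image fun a _ b _ h => nv_injective h,
    sum_image fun a _ b _ h => main_nv_injective' h]
  have h1 : ∀ q ∈ S, (P ∩ nv q.1 q.2).card = ∑ z ∈ P, if z ∈ nv q.1 q.2 then 1 else 0 := by
    intro q _
    rw [← filter_mem_eq_inter, card_filter]
  have h2 : ∀ z ∈ P, (S ∩ nv (-z.1) z.2).card = ∑ q ∈ S, if q ∈ nv (-z.1) z.2 then 1 else 0 := by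
    intro z _
    rw [← filter_mem_eq_inter, card_filter]
  rw [sum_congr rfl h1, sum_congr rfl h2, sum_comm]
  refine sum_congr rfl fun z _ => sum_congr rfl fun q _ => ?_
  have h3 : z ∈ nv q.1 q.2 ↔ q ∈ nv (-z.1) z.2 := by
    rw [mem_nv, mem_nv]
    constructor
    · intro h; linear_combination -h
    · intro h; linear_combination -h
  simp only [h3]

end Pool.Agent.Lib.MP_fdf47d_co.SD
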