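import Mathlib
import Pool.Agent.Lib.MP_fdf47d_co.SD.Defs
import Pool.Agent.Lib.MP_fdf47d_co.SD.RB

section

/-!
# The ranks of dual kernels are complementary

Let `l ≠ 0`.  If `x ∈ bx N'` and `dot (perp l) (lin u x) = 0` then `lin u x = c • l`
(`exists_smul_of_dot_perp`).  With `W_j = Σ_i x_i b i j` and `y ∈ bx N`, `dot l (lin v y) = 0`:
`Σ_j W_j y_j` casts to `dot (lin u x) (lin v y) = c * dot l (lin v y) = 0`, so `p` divides it, and
`|Σ_j W_j y_j| ≤ Σ_j |W_j| N_j ≤ card ι * δ p < p`; so it is `0`.  So the rational span of the `W`'s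
and the rational span of the `y`'s are orthogonal in `ι → ℚ` for the standard (definite) form, so
their dimensions add up to at most `card ι` (they meet only in `0`:
`Submodule.finrank_add_finrank_le_of_disjoint`, a vector in both satisfies `Σ w_j² = 0`).
The span of the `W`'s is the image of the span of the `x`'s under the map `x ↦ Σ x_i b_i`,
`(κ → ℚ) → (ι → ℚ)`, which is injective because `b` is linearly independent over `ℤ`, hence over `ℚ`
(`LinearIndependent.iff_fractionRing` or clearing denominators); so it has dimension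
`jj u N' (perp l)` (`LinearMap.finrank_map_eq` / `finrank_map_subtype`-type lemmas:
`LinearEquiv.finrank_map_eq`, `Submodule.equivMapOfInjective`).
-/

namespace Pool.Agent.Lib.MP_fdf47d_co.SD

open Finset

private theorem DualRank_orth {p : ℕ} [Fact p.Prime] {ι κ : Type} [Fintype ι] [DecidableEq ι]
    [Fintype κ] [DecidableEq κ] {v : ι → V p} {N : ι → ℕ} {u : κ → V p} {N' : κ → ℕ}
    {b : κ → ι → ℤ} {δ c₀ : ℝ} (h : DualSys v N u N' b δ c₀)
    (hδ : (Fintype.card ι : ℝ) * δ < 1) {l : V p} (hl : l ≠ 0)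
    {x : κ → ℤ} (hx : x ∈ bx N') (hx0 : dot (perp l) (lin u x) = 0)
    {y : ι → ℤ} (hy : y ∈ bx N) (hy0 : dot l (lin v y) = 0) :
    ∑ j, (∑ i, x i * b i j) * y j = 0 := by
  have hp : 0 < p := (Fact.out : p.Prime).pos
  have hpR : (0 : ℝ) < p := by exact_mod_cast hp
  obtain ⟨c, hc⟩ := exists_smul_of_dot_perp hl hx0
  have hcast : ((∑ j, (∑ i, x i * b i j) * y j : ℤ) : ZMod p) = 0 := by
    have h1 : ∀ j, ((∑ i, x i * b i j : ℤ) : ZMod p) = dot (lin u x) (v j) := by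
      intro j
      rw [dot_comm, dot_lin]
      push_cast
      refine sum_congr rfl fun i _ => ?_
      rw [h.lift, dot_comm]
    have h2 : ((∑ j, (∑ i, x i * b i j) * y j : ℤ) : ZMod p) = dot (lin u x) (lin v y) := by
      rw [dot_lin, Int.cast_sum]
      refine sum_congr rfl fun j _ => ?_
      rw [Int.cast_mul, h1, mul_comm]
    rw [h2, hc, smul_dot, hy0, mul_zero]
  have hdvd : (p : ℤ) ∣ ∑ j, (∑ i, x i * b i j) * y j :=
    (ZMod.intCast_zmod_eq_zero_iff_dvd _ p).mp hcast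
  refine Int.eq_zero_of_abs_lt_dvd hdvd ?_
  have hR : |∑ j, (∑ i, (x i : ℝ) * (b i j : ℝ)) * (y j : ℝ)| < (p : ℝ) := by
    calc (|∑ j, (∑ i, (x i : ℝ) * (b i j : ℝ)) * (y j : ℝ)| : ℝ)
        ≤ ∑ j, |(∑ i, (x i : ℝ) * (b i j : ℝ)) * (y j : ℝ)| := abs_sum_le_sum_abs _ _
      _ ≤ ∑ _j : ι, δ * p := by
          refine sum_le_sum fun j _ => ?_
          rw [abs_mul]
          have hyj : |(y j : ℝ)| ≤ N j := by
            have := mem_bx.mp hy j
            have h3 : ((|y j| : ℤ) : ℝ) ≤ ((N j : ℤ) : ℝ) := by exact_mod_cast this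
            simpa using h3
          have hs := h.small x hx j
          push_cast at hs
          exact (mul_le_mul_of_nonneg_left hyj (abs_nonneg _)).trans hs
      _ = (Fintype.card ι : ℝ) * δ * p := by
          rw [sum_const, Finset.card_univ, nsmul_eq_mul, mul_assoc]
      _ < 1 * p := by gcongr
      _ = p := one_mul _
  exact_mod_cast hR

theorem DualSys.rank {p : ℕ} [Fact p.Prime] {ι κ : Type} [Fintype ι] [DecidableEq ι]
    [Fintype κ] [DecidableEq κ] {v : ι → V p} {N : ι → ℕ} {u : κ → V p} {N' : κ → ℕ}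
    {b : κ → ι → ℤ} {δ c₀ : ℝ} (h : DualSys v N u N' b δ c₀)
    (hδ : (Fintype.card ι : ℝ) * δ < 1) {l : V p} (hl : l ≠ 0) :
    jj u N' (perp l) + jj v N l ≤ Fintype.card ι := by
  classical
  -- the rational vectors `b`
  let B : κ → ι → ℚ := fun k j => ((b k j : ℤ) : ℚ)
  have hBZ : LinearIndependent ℤ B := by
    let φ : (ι → ℤ) →ₗ[ℤ] (ι → ℚ) := (Int.castAddHom ℚ).toIntLinearMap.compLeft ι
    have hφ : LinearMap.ker φ = ⊥ := by
      rw [LinearMap.ker_eq_bot]
      intro a c hac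
      funext j
      have := congrFun hac j
      exact Int.cast_injective (α := ℚ) this
    exact h.indep.map' φ hφ
  have hBQ : LinearIndependent ℚ B := (LinearIndependent.iff_fractionRing ℤ ℚ).mp hBZ
  let T : (κ → ℚ) →ₗ[ℚ] (ι → ℚ) := Fintype.linearCombination ℚ B
  have hT : Function.Injective T := by
    exact linearIndependent_iff_injective_fintypeLinearCombination.mp hBQ
  have hTa : ∀ (a : κ → ℚ) (j : ι), T a j = ∑ i, a i * B i j := by
    intro a j
    simp [T, Fintype.linearCombination_apply, Finset.sum_apply]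
  unfold jj
  set A := Submodule.span ℚ
    ((fun (x : κ → ℤ) (i : κ) => ((x i : ℤ) : ℚ)) ''
      {x | x ∈ bx N' ∧ dot (perp l) (lin u x) = 0}) with hA
  set C := Submodule.span ℚ
    ((fun (x : ι → ℤ) (i : ι) => ((x i : ℤ) : ℚ)) '' {x | x ∈ bx N ∧ dot l (lin v x) = 0}) with hC
  have horth : ∀ a ∈ A, ∀ z ∈ C, ∑ j, T a j * z j = 0 := by
    intro a ha
    refine Submodule.span_induction (p := fun a _ => ∀ z ∈ C, ∑ j, T a j * z j = 0)
      ?_ ?_ ?_ ?_ ha
    · rintro _ ⟨x, ⟨hx, hx0⟩, rfl⟩ z hz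
      refine Submodule.span_induction (p := fun z _ => ∑ j, T _ j * z j = 0)
        ?_ ?_ ?_ ?_ hz
      · rintro _ ⟨y, ⟨hy, hy0⟩, rfl⟩
        have := DualRank_orth h hδ hl hx hx0 hy hy0
        have h2 : ((∑ j, (∑ i, x i * b i j) * y j : ℤ) : ℚ) = 0 := by rw [this]; simp
        rw [← h2]
        push_cast
        refine sum_congr rfl fun j _ => ?_
        rw [hTa]
      · simp
      · intro z₁ z₂ _ _ h1 h2
        simp only [Pi.add_apply, mul_add, sum_add_distrib, h1, h2, add_zero]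
      · intro r z₁ _ h1
        have : ∀ j, T (fun i => ((x i : ℤ) : ℚ)) j * (r • z₁) j =
            r * (T (fun i => ((x i : ℤ) : ℚ)) j * z₁ j) := by
          intro j; rw [Pi.smul_apply, smul_eq_mul]; ring
        simp only [this, ← mul_sum, h1, mul_zero]
    · intro z _; simp
    · intro a₁ a₂ _ _ h1 h2 z hz
      simp only [map_add, Pi.add_apply, add_mul, sum_add_distrib, h1 z hz, h2 z hz, add_zero]
    · intro r a₁ _ h1 z hz
      have : ∀ j, T (r • a₁) j * z j = r * (T a₁ j * z j) := by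
        intro j; rw [map_smul, Pi.smul_apply, smul_eq_mul]; ring
      simp only [this, ← mul_sum, h1 z hz, mul_zero]
  have hdisj : Disjoint (A.map T) C := by
    rw [Submodule.disjoint_def]
    rintro w ⟨a, ha, rfl⟩ hw
    have h0 := horth a ha _ hw
    funext j
    have h1 : ∀ j ∈ (univ : Finset ι), (0 : ℚ) ≤ T a j * T a j := fun j _ => mul_self_nonneg _
    have h2 := (sum_eq_zero_iff_of_nonneg h1).mp h0 j (mem_univ j)
    exact mul_self_eq_zero.mp h2
  have hfr : Module.finrank ℚ (A.map T) = Module.finrank ℚ A :=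
    (LinearEquiv.finrank_eq (Submodule.equivMapOfInjective T hT A)).symm
  have := Submodule.finrank_add_finrank_le_of_disjoint hdisj
  rw [hfr] at this
  simpa using this

end Pool.Agent.Lib.MP_fdf47d_co.SD
end

section

/-!
# The uncertainty bound (L4)

Parseval: with `χ = ZMod.stdAddChar` (or any primitive additive character of `ZMod p`),
`Σ_{μ ∈ V p} ‖Σ_{z ∈ Q} χ(dot μ z)‖² = Σ_{z, z' ∈ Q} Σ_μ χ(dot μ (z - z')) = p² |Q|`.  For `μ ∈ U`
every term `χ(dot μ z) = exp(2 π i w / p)` has `|2 π w / p| ≤ π/3`, so real part `≥ 1/2`, so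
`‖Σ_{z ∈ Q} χ(dot μ z)‖ ≥ |Q|/2`.  Hence `|U| |Q|²/4 ≤ p² |Q|`.
-/

namespace Pool.Agent.Lib.MP_fdf47d_co.SD

open Finset

private theorem parseval_char {p : ℕ} [Fact p.Prime] (w : V p) :
    ∑ μ : V p, (ZMod.stdAddChar (dot μ w) : ℂ) = if w = 0 then ((p : ℂ) ^ 2) else 0 := by
  have h1 : ∀ μ : V p, (ZMod.stdAddChar (dot μ w) : ℂ) =
      ZMod.stdAddChar (μ.1 * w.1) * ZMod.stdAddChar (μ.2 * w.2) := by
    intro μ
    rw [dot, AddChar.map_add_eq_mul]
  simp only [h1]
  rw [Fintype.sum_prod_type]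
  simp only
  rw [← Finset.sum_mul_sum]
  rw [AddChar.sum_mulShift w.1 (ZMod.isPrimitive_stdAddChar p),
    AddChar.sum_mulShift w.2 (ZMod.isPrimitive_stdAddChar p)]
  by_cases h0 : w = 0
  · subst h0
    simp [ZMod.card, sq]
  · rw [if_neg h0]
    by_cases h2 : w.1 = 0
    · have h3 : w.2 ≠ 0 := fun h3 => h0 (Prod.ext h2 h3)
      rw [if_neg h3]
      simp
    · rw [if_neg h2]
      simp

private theorem parseval_re {p : ℕ} [Fact p.Prime] (a : ZMod p)
    (h : ∃ w : ℤ, (w : ZMod p) = a ∧ |(w : ℝ)| ≤ (p : ℝ) / 6) :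
    1 / 2 ≤ (ZMod.stdAddChar a : ℂ).re := by
  obtain ⟨w, rfl, hw⟩ := h
  have hp : (0 : ℝ) < p := by exact_mod_cast (Fact.out : p.Prime).pos
  rw [ZMod.stdAddChar_coe]
  have h1 : (2 * (Real.pi : ℂ) * Complex.I * (w : ℂ) / (p : ℂ)) =
      ((2 * Real.pi * w / p : ℝ) : ℂ) * Complex.I := by
    push_cast
    ring
  rw [h1, Complex.exp_ofReal_mul_I_re]
  have h2 : |2 * Real.pi * w / p| ≤ Real.pi / 3 := by
    rw [abs_div, abs_mul, abs_of_pos (mul_pos two_pos Real.pi_pos), abs_of_pos hp, div_le_iff₀ hp]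
    have := Real.pi_pos
    nlinarith
  rw [← Real.cos_abs, ← Real.cos_pi_div_three]
  refine Real.cos_le_cos_of_nonneg_of_le_pi (abs_nonneg _) ?_ h2
  have := Real.pi_pos
  linarith

theorem card_mul_card_le {p : ℕ} [Fact p.Prime] (U Q : Finset (V p))
    (h : ∀ μ ∈ U, ∀ z ∈ Q, ∃ w : ℤ, (w : ZMod p) = dot μ z ∧ |(w : ℝ)| ≤ (p : ℝ) / 6) :
    (U.card : ℝ) * Q.card ≤ 4 * (p : ℝ) ^ 2 := by
  classical
  set S : V p → ℂ := fun μ => ∑ z ∈ Q, (ZMod.stdAddChar (dot μ z) : ℂ) with hS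
  have hpars : ∑ μ : V p, ‖S μ‖ ^ 2 = (p : ℝ) ^ 2 * Q.card := by
    have h1 : (∑ μ : V p, ((‖S μ‖ ^ 2 : ℝ) : ℂ)) = ((p : ℂ) ^ 2 * Q.card) := by
      have h2 : ∀ μ : V p, ((‖S μ‖ ^ 2 : ℝ) : ℂ) =
          ∑ z ∈ Q, ∑ z' ∈ Q, (ZMod.stdAddChar (dot μ (z - z')) : ℂ) := by
        intro μ
        have h3 : ((‖S μ‖ ^ 2 : ℝ) : ℂ) = S μ * (starRingEnd ℂ) (S μ) := by
          rw [Complex.mul_conj, Complex.normSq_eq_norm_sq]
        rw [h3, hS]
        simp only
        rw [map_sum, Finset.sum_mul_sum]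
        refine Finset.sum_congr rfl fun z _ => Finset.sum_congr rfl fun z' _ => ?_
        rw [dot_sub, sub_eq_add_neg, AddChar.map_add_eq_mul, AddChar.map_neg_eq_conj]
      simp only [h2]
      rw [Finset.sum_comm]
      have h4 : ∀ z ∈ Q, ∑ μ : V p, ∑ z' ∈ Q, (ZMod.stdAddChar (dot μ (z - z')) : ℂ) =
          (p : ℂ) ^ 2 := by
        intro z hz
        rw [Finset.sum_comm]
        simp only [parseval_char]
        rw [Finset.sum_eq_single_of_mem z hz]
        · rw [sub_self, if_pos rfl]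
        · intro z' _ hne
          rw [if_neg]
          intro h0
          exact hne (sub_eq_zero.1 h0).symm
      rw [Finset.sum_congr rfl h4, Finset.sum_const, nsmul_eq_mul]
      ring
    have h5 : ((∑ μ : V p, ‖S μ‖ ^ 2 : ℝ) : ℂ) = (((p : ℝ) ^ 2 * Q.card : ℝ) : ℂ) := by
      rw [Complex.ofReal_sum, h1]
      push_cast
      ring
    exact_mod_cast h5
  have hlow : ∀ μ ∈ U, ((Q.card : ℝ) / 2) ^ 2 ≤ ‖S μ‖ ^ 2 := by
    intro μ hμ
    have h1 : (Q.card : ℝ) / 2 ≤ (S μ).re := by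
      rw [hS]
      simp only
      rw [Complex.re_sum]
      calc (Q.card : ℝ) / 2 = ∑ _z ∈ Q, (1 / 2 : ℝ) := by
            rw [Finset.sum_const, nsmul_eq_mul]
            ring
        _ ≤ _ := Finset.sum_le_sum fun z hz => parseval_re _ (h μ hμ z hz)
    have h2 := (h1.trans (Complex.re_le_norm (S μ)))
    exact pow_le_pow_left₀ (by positivity) h2 2
  have hle : (U.card : ℝ) * ((Q.card : ℝ) / 2) ^ 2 ≤ (p : ℝ) ^ 2 * Q.card := by
    rw [← hpars]
    calc (U.card : ℝ) * ((Q.card : ℝ) / 2) ^ 2 = ∑ _μ ∈ U, ((Q.card : ℝ) / 2) ^ 2 := by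
          rw [Finset.sum_const, nsmul_eq_mul]
      _ ≤ ∑ μ ∈ U, ‖S μ‖ ^ 2 := Finset.sum_le_sum hlow
      _ ≤ _ := Finset.sum_le_sum_of_subset_of_nonneg (Finset.subset_univ _)
          fun _ _ _ => by positivity
  rcases Nat.eq_zero_or_pos Q.card with h0 | h0
  · rw [h0]
    simp
  · have hq : (0 : ℝ) < Q.card := by exact_mod_cast h0
    have h6 : (Q.card : ℝ) * ((U.card : ℝ) * Q.card) ≤ (Q.card : ℝ) * (4 * (p : ℝ) ^ 2) := by
      nlinarith
    exact le_of_mul_le_mul_left h6 hq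

end Pool.Agent.Lib.MP_fdf47d_co.SD
end

section

/-!
# Sums over lines and over pairs `(l, c)`; unions of parallel lines

`sum_lines_le`: every line `ℓ = ln l c` of `L` (`IsLine.exists_ln`) has at least the `p - 1` distinct
representations `(a • l, a * c)`, `a ≠ 0`; group the right hand side by `ln q.1 q.2`.

`inc_cosets`: `Q` lies in the union of the cosets `s + 𝔽_p d`, `s ∈ S`.  A line `ln l c` with
`dot l d ≠ 0` meets each coset in at most one point (`dot l (s + t • d) = c` determines `t`), so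
contains at most `|S|` points of `Q`.  Two distinct lines `ln l c`, `ln l' c'` with
`dot l d = dot l' d = 0` are disjoint: `l' = a • l` (`exists_smul_of_dot_eq_zero`), `a ≠ 0`, and a
common point gives `c' = a c`, so the lines are equal.  So the sum over these lines is `≤ |Q|`.
-/

namespace Pool.Agent.Lib.MP_fdf47d_co.SD

open Finset

private theorem sumLines_card_rep {p : ℕ} [Fact p.Prime] {ℓ : Finset (V p)} (h : IsLine ℓ) :
    (p : ℝ) - 1 ≤ ((((univ : Finset (V p × ZMod p)).filter (fun q => q.1 ≠ 0)).filter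
      (fun q => ln q.1 q.2 = ℓ)).card : ℝ) := by
  obtain ⟨l, hl, c, rfl⟩ := h.exists_ln
  have hcard : ((univ : Finset (ZMod p)).filter (fun a => a ≠ 0)).card = p - 1 := by
    rw [filter_ne', card_erase_of_mem (mem_univ _), card_univ, ZMod.card]
  have hle : ((univ : Finset (ZMod p)).filter (fun a => a ≠ 0)).card ≤
      (((univ : Finset (V p × ZMod p)).filter (fun q => q.1 ≠ 0)).filter
      (fun q => ln q.1 q.2 = ln l c)).card := by
    refine card_le_card_of_injOn (fun a => (a • l, a * c)) ?_ ?_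
    · intro a ha
      have ha' : a ≠ 0 := by simpa using ha
      have h1 : a • l ≠ 0 := smul_ne_zero ha' hl
      have h2 : ln (a • l) (a * c) = ln l c := by
        ext z
        rw [mem_ln, mem_ln, smul_dot]
        exact ⟨fun h => mul_left_cancel₀ ha' h, fun h => by rw [h]⟩
      simp only [coe_filter, mem_filter, mem_univ, true_and, Set.mem_ofPred_eq]
      exact ⟨h1, h2⟩
    · intro a _ b _ hab
      simp only [Prod.mk.injEq] at hab
      have h3 : (a - b) • l = 0 := by rw [sub_smul, hab.1, sub_self]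
      rcases smul_eq_zero.mp h3 with h4 | h4
      · exact sub_eq_zero.mp h4
      · exact absurd h4 hl
  have hp : 1 ≤ p := (Fact.out : p.Prime).one_lt.le
  have h5 : ((p - 1 : ℕ) : ℝ) = (p : ℝ) - 1 := by push_cast [hp]; ring
  rw [← h5, ← hcard]
  exact_mod_cast hle

theorem sum_lines_le {p : ℕ} [Fact p.Prime] (L : Finset (Finset (V p)))
    (hL : ∀ ℓ ∈ L, IsLine ℓ) (F : Finset (V p) → ℝ) (hF : ∀ ℓ, 0 ≤ F ℓ) :
    ((p : ℝ) - 1) * ∑ ℓ ∈ L, F ℓ ≤
      ∑ q ∈ (univ : Finset (V p × ZMod p)).filter (fun q => q.1 ≠ 0), F (ln q.1 q.2) := by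
  classical
  set S := (univ : Finset (V p × ZMod p)).filter (fun q => q.1 ≠ 0) with hS
  calc ((p : ℝ) - 1) * ∑ ℓ ∈ L, F ℓ = ∑ ℓ ∈ L, ((p : ℝ) - 1) * F ℓ := by rw [mul_sum]
    _ ≤ ∑ ℓ ∈ L, ∑ q ∈ (S.filter fun q => ln q.1 q.2 ∈ L).filter (fun q => ln q.1 q.2 = ℓ),
          F (ln q.1 q.2) := by
        refine sum_le_sum fun ℓ hℓ => ?_
        have h1 : (S.filter fun q => ln q.1 q.2 ∈ L).filter (fun q => ln q.1 q.2 = ℓ) =
            S.filter (fun q => ln q.1 q.2 = ℓ) := by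
          ext q
          simp only [mem_filter]
          constructor
          · rintro ⟨⟨h1, _⟩, h3⟩; exact ⟨h1, h3⟩
          · rintro ⟨h1, h3⟩; exact ⟨⟨h1, by rw [h3]; exact hℓ⟩, h3⟩
        rw [h1]
        have h2 : ∑ q ∈ S.filter (fun q => ln q.1 q.2 = ℓ), F (ln q.1 q.2) =
            ((S.filter (fun q => ln q.1 q.2 = ℓ)).card : ℝ) * F ℓ := by
          rw [sum_congr rfl (g := fun _ => F ℓ) (fun q hq => by rw [(mem_filter.mp hq).2]),
            sum_const, nsmul_eq_mul]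
        rw [h2]
        exact mul_le_mul_of_nonneg_right (sumLines_card_rep (hL ℓ hℓ)) (hF ℓ)
    _ = ∑ q ∈ S.filter (fun q => ln q.1 q.2 ∈ L), F (ln q.1 q.2) :=
        sum_fiberwise_of_maps_to (fun q hq => (mem_filter.mp hq).2) _
    _ ≤ ∑ q ∈ S, F (ln q.1 q.2) :=
        sum_le_sum_of_subset_of_nonneg (filter_subset _ _) fun q _ _ => hF _

theorem inc_cosets {p : ℕ} [Fact p.Prime] (Q : Finset (V p)) {d : V p} (hd : d ≠ 0)
    (S : Finset (V p)) (hQ : ∀ z ∈ Q, ∃ s ∈ S, ∃ t : ZMod p, z = s + t • d)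
    (L : Finset (Finset (V p))) (hL : ∀ ℓ ∈ L, IsLine ℓ) :
    ∑ ℓ ∈ L, ((Q ∩ ℓ).card : ℝ) ≤ S.card * L.card + Q.card := by
  classical
  -- lines parallel to `d`
  let P : Finset (V p) → Prop := fun ℓ => ∃ l : V p, l ≠ 0 ∧ dot l d = 0 ∧ ∃ c : ZMod p, ℓ = ln l c
  have hsplit := (sum_filter_add_sum_filter_not L P (fun ℓ => ((Q ∩ ℓ).card : ℝ))).symm
  rw [hsplit]
  have h1 : ∑ ℓ ∈ L.filter P, ((Q ∩ ℓ).card : ℝ) ≤ Q.card := by
    have hdisj : ∀ x ∈ L.filter P, ∀ y ∈ L.filter P, x ≠ y → Disjoint (Q ∩ x) (Q ∩ y) := by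
      intro x hx y hy hxy
      obtain ⟨l, hl, hld, c, rfl⟩ := (mem_filter.mp hx).2
      obtain ⟨m, hm, hmd, e, rfl⟩ := (mem_filter.mp hy).2
      obtain ⟨a, ha⟩ := exists_smul_of_dot_eq_zero hl hd hld hmd
      have ha0 : a ≠ 0 := by rintro rfl; exact hm (by simpa using ha)
      rw [disjoint_left]
      intro z hz hz'
      have hz1 : dot l z = c := mem_ln.mp (mem_inter.mp hz).2
      have hz2 : dot m z = e := mem_ln.mp (mem_inter.mp hz').2
      apply hxy
      ext w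
      rw [mem_ln, mem_ln, ha, smul_dot]
      rw [ha, smul_dot, hz1] at hz2
      rw [← hz2]
      exact ⟨fun h => by rw [h], fun h => mul_left_cancel₀ ha0 h⟩
    have hcard := card_biUnion hdisj
    have hle : ((L.filter P).biUnion fun ℓ => Q ∩ ℓ).card ≤ Q.card :=
      card_le_card (biUnion_subset.mpr fun ℓ _ => inter_subset_left)
    rw [hcard] at hle
    exact_mod_cast hle
  have h2 : ∑ ℓ ∈ L.filter (fun ℓ => ¬ P ℓ), ((Q ∩ ℓ).card : ℝ) ≤ S.card * L.card := by
    have hb : ∀ ℓ ∈ L.filter (fun ℓ => ¬ P ℓ), ((Q ∩ ℓ).card : ℝ) ≤ S.card := by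
      intro ℓ hℓ
      rw [mem_filter] at hℓ
      obtain ⟨l, hl, c, rfl⟩ := (hL ℓ hℓ.1).exists_ln
      have hld : dot l d ≠ 0 := fun h => hℓ.2 ⟨l, hl, h, c, rfl⟩
      have hch : ∀ z : V p, ∃ s : V p, z ∈ Q → s ∈ S ∧ ∃ t : ZMod p, z = s + t • d := by
        intro z
        by_cases hz : z ∈ Q
        · obtain ⟨s, hs, ht⟩ := hQ z hz
          exact ⟨s, fun _ => ⟨hs, ht⟩⟩
        · exact ⟨0, fun h => absurd h hz⟩
      choose g hg using hch
      have : (Q ∩ ln l c).card ≤ S.card := by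
        refine card_le_card_of_injOn g ?_ ?_
        · intro z hz
          exact (hg z (mem_inter.mp hz).1).1
        · intro z hz w hw hzw
          have hz' := mem_inter.mp (mem_coe.mp hz)
          have hw' := mem_inter.mp (mem_coe.mp hw)
          obtain ⟨t, ht⟩ := (hg z hz'.1).2
          obtain ⟨u, hu⟩ := (hg w hw'.1).2
          have e1 : dot l z = c := mem_ln.mp hz'.2
          have e2 : dot l w = c := mem_ln.mp hw'.2
          rw [ht, dot_add, dot_smul] at e1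
          rw [hu, dot_add, dot_smul] at e2
          have hzw' : g z = g w := hzw
          rw [hzw'] at e1
          have e3 : (t - u) * dot l d = 0 := by linear_combination e1 - e2
          rcases mul_eq_zero.mp e3 with h | h
          · rw [ht, hu, hzw', sub_eq_zero.mp h]
          · exact absurd h hld
      exact_mod_cast this
    calc ∑ ℓ ∈ L.filter (fun ℓ => ¬ P ℓ), ((Q ∩ ℓ).card : ℝ)
        ≤ ∑ ℓ ∈ L.filter (fun ℓ => ¬ P ℓ), (S.card : ℝ) := sum_le_sum hb
      _ = (S.card : ℝ) * (L.filter (fun ℓ => ¬ P ℓ)).card := by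
          rw [sum_const, nsmul_eq_mul, mul_comm]
      _ ≤ S.card * L.card := by
          refine mul_le_mul_of_nonneg_left ?_ (by positivity)
          exact_mod_cast card_filter_le _ _
  linarith

end Pool.Agent.Lib.MP_fdf47d_co.SD
end

section

/-!
# The size of the dual system

`Q` = image of `lin v` on `{x | 0 ≤ x_i ≤ N_i}`, of size `∏ (N_i + 1)`: injective, since the
difference of two such vectors is in `bx N` and `Proper v N`.  `U` = image of `lin u` on
`{x | 0 ≤ x_i ≤ N'_i}`, of size `∏ (N'_i + 1)`.  For `μ = lin u x`, `z = lin v y`: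
`dot μ z = Σ_j y_j Σ_i x_i dot (u i) (v j)` is the cast of the integer
`w = Σ_j y_j (Σ_i x_i b i j)`, and `|w| ≤ Σ_j N_j |Σ_i x_i b i j| ≤ card ι * δ p ≤ p/6`.
Apply `card_mul_card_le`.
-/

namespace Pool.Agent.Lib.MP_fdf47d_co.SD

open Finset

/-- the box `0 ≤ x_i ≤ N_i` -/
private noncomputable def dualCard_box {ι : Type} [Fintype ι] [DecidableEq ι] (N : ι → ℕ) :
    Finset (ι → ℤ) := Fintype.piFinset fun i => Finset.Icc (0 : ℤ) (N i)

private theorem dualCard_mem {ι : Type} [Fintype ι] [DecidableEq ι] {N : ι → ℕ} {x : ι → ℤ} :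
    x ∈ dualCard_box N ↔ ∀ i, 0 ≤ x i ∧ x i ≤ (N i : ℤ) := by
  simp only [dualCard_box, Fintype.mem_piFinset, Finset.mem_Icc]

private theorem dualCard_prod_le {ι : Type} [Fintype ι] [DecidableEq ι] (N : ι → ℕ) :
    (∏ i, (N i : ℝ)) ≤ ((dualCard_box N).card : ℝ) := by
  have h : (dualCard_box N).card = ∏ i, (N i + 1) := by
    simp only [dualCard_box, Fintype.card_piFinset, Int.card_Icc]
    refine prod_congr rfl fun i _ => ?_
    omega
  rw [h]; push_cast
  refine prod_le_prod (fun i _ => by positivity) fun i _ => ?_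
  linarith

private theorem dualCard_image {p : ℕ} {ι : Type} [Fintype ι] [DecidableEq ι] [Fact p.Prime]
    {v : ι → V p} {N : ι → ℕ} (h : Proper v N) :
    ((dualCard_box N).image (lin v)).card = (dualCard_box N).card := by
  apply Finset.card_image_of_injOn
  intro x hx y hy hxy
  have hx' := dualCard_mem.1 (Finset.mem_coe.1 hx)
  have hy' := dualCard_mem.1 (Finset.mem_coe.1 hy)
  have h1 : x - y ∈ bx N := by
    rw [mem_bx]
    intro i
    have h2 := hx' i
    have h3 := hy' i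
    rw [Pi.sub_apply, abs_le]
    constructor <;> linarith [h2.1, h2.2, h3.1, h3.2]
  have h2 : lin v (x - y) = 0 := by
    rw [lin_sub]
    exact sub_eq_zero.2 hxy
  exact sub_eq_zero.1 (h _ h1 h2)

private theorem dualCard_sub {ι : Type} [Fintype ι] [DecidableEq ι] {N : ι → ℕ} {x : ι → ℤ}
    (hx : x ∈ dualCard_box N) : x ∈ bx N := by
  rw [mem_bx]
  intro i
  have := dualCard_mem.1 hx i
  rw [abs_of_nonneg this.1]
  exact this.2

theorem DualSys.card_le {p : ℕ} [Fact p.Prime] {ι κ : Type} [Fintype ι] [DecidableEq ι]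
    [Fintype κ] [DecidableEq κ] {v : ι → V p} {N : ι → ℕ} {u : κ → V p} {N' : κ → ℕ}
    {b : κ → ι → ℤ} {δ c₀ : ℝ} (h : DualSys v N u N' b δ c₀) (hP : Proper v N)
    (hP' : Proper u N') (hδ : (Fintype.card ι : ℝ) * δ ≤ 1 / 6) :
    (∏ i, (N' i : ℝ)) * ∏ i, (N i : ℝ) ≤ 4 * (p : ℝ) ^ 2 := by
  classical
  have hp : (0 : ℝ) < p := by exact_mod_cast (Fact.out : p.Prime).pos
  have key := card_mul_card_le ((dualCard_box N').image (lin u)) ((dualCard_box N).image (lin v))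
    (by
      intro μ hμ z hz
      obtain ⟨x, hx, rfl⟩ := Finset.mem_image.1 hμ
      obtain ⟨y, hy, rfl⟩ := Finset.mem_image.1 hz
      refine ⟨∑ j, y j * ∑ i, x i * b i j, ?_, ?_⟩
      · rw [dot_lin]
        push_cast
        refine Finset.sum_congr rfl fun j _ => ?_
        rw [dot_comm, dot_lin]
        congr 1
        refine Finset.sum_congr rfl fun i _ => ?_
        rw [h.lift i j, dot_comm]
      · have hs := h.small x (dualCard_sub hx)
        have hy' := dualCard_mem.1 hy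
        have h1 : |((∑ j, y j * ∑ i, x i * b i j : ℤ) : ℝ)| ≤ ∑ _j : ι, δ * p := by
          push_cast
          refine (Finset.abs_sum_le_sum_abs _ _).trans (Finset.sum_le_sum fun j _ => ?_)
          rw [abs_mul]
          have h2 : |(y j : ℝ)| ≤ N j := by
            have h3 := hy' j
            rw [abs_of_nonneg (by exact_mod_cast h3.1)]
            exact_mod_cast h3.2
          have h4 := hs j
          push_cast at h4
          calc |(y j : ℝ)| * |∑ i, (x i : ℝ) * (b i j : ℝ)|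
              ≤ N j * |∑ i, (x i : ℝ) * (b i j : ℝ)| := by gcongr
            _ = |∑ i, (x i : ℝ) * (b i j : ℝ)| * N j := mul_comm _ _
            _ ≤ δ * p := h4
        rw [Finset.sum_const, Finset.card_univ, nsmul_eq_mul] at h1
        refine h1.trans ?_
        calc (Fintype.card ι : ℝ) * (δ * p) = ((Fintype.card ι : ℝ) * δ) * p := by ring
          _ ≤ 1 / 6 * p := by gcongr
          _ = (p : ℝ) / 6 := by ring)
  rw [dualCard_image hP, dualCard_image hP'] at key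
  refine le_trans ?_ key
  exact mul_le_mul (dualCard_prod_le N') (dualCard_prod_le N)
    (Finset.prod_nonneg fun i _ => by positivity) (by positivity)

end Pool.Agent.Lib.MP_fdf47d_co.SD
end

section

/-!
# A reduced basis of the lattice of integer lifts of functionals

`Λ = {W : ι → ℤ | ∃ μ, ∀ j, (W j : ZMod p) = dot μ (v j)}` is an additive subgroup of `ι → ℤ`
(`dot` is additive in the first variable) containing `p • (ι → ℤ)`; so it is free of rank
`card ι = n` (rank `≤ n` as a subgroup of `ι → ℤ`, `≥ n` because `x ↦ p • x` is an injection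
`(ι → ℤ) → Λ`).  `ν W = dn p N W = max_i N_i |W_i| / p` is a norm with finite balls
(`|W_i| ≤ t p / N_i ≤ t p`).  Apply `exists_reduced_basis` and choose the `μ_i`.  `b` is linearly
independent in `ι → ℤ` since the inclusion of `Λ` is injective.
-/

namespace Pool.Agent.Lib.MP_fdf47d_co.SD

open Finset

/-- The weighted sup norm of an integer vector. -/
noncomputable def dn {ι : Type*} [Fintype ι] (p : ℕ) (N : ι → ℕ) (W : ι → ℤ) : ℝ :=
  ‖fun i => (N i : ℝ) * (W i : ℝ) / p‖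

theorem dn_le_iff {ι : Type*} [Fintype ι] {p : ℕ} (hp : 0 < p) (N : ι → ℕ) (W : ι → ℤ) {t : ℝ}
    (ht : 0 ≤ t) : dn p N W ≤ t ↔ ∀ i, |((W i : ℤ) : ℝ)| * N i ≤ t * p := by
  unfold dn
  rw [pi_norm_le_iff_of_nonneg ht]
  refine forall_congr' fun i => ?_
  have hp' : (0 : ℝ) < p := by exact_mod_cast hp
  rw [Real.norm_eq_abs, abs_div, abs_mul, Nat.abs_cast, Nat.abs_cast, div_le_iff₀ hp', mul_comm]

theorem isNL_dn {ι : Type*} [Fintype ι] {p : ℕ} (hp : 0 < p) {N : ι → ℕ} (hN : ∀ i, 1 ≤ N i)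
    (Λ : AddSubgroup (ι → ℤ)) : IsNL fun W : Λ => dn p N (W : ι → ℤ) := by
  classical
  refine ⟨fun x y => ?_, fun m x => ?_, fun t => ?_⟩
  · unfold dn
    refine le_trans (le_of_eq ?_) (norm_add_le _ _)
    congr 1
    funext i
    simp only [AddSubgroup.coe_add, Pi.add_apply]
    push_cast
    ring
  · unfold dn
    have h : (fun i => (N i : ℝ) * (((m • x : Λ) : ι → ℤ) i : ℝ) / p) =
        (m : ℝ) • (fun i => (N i : ℝ) * (((x : Λ) : ι → ℤ) i : ℝ) / p) := by
      funext i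
      simp only [AddSubgroup.coe_zsmul, Pi.smul_apply, smul_eq_mul, zsmul_eq_mul]
      push_cast
      ring
    rw [h, norm_smul, Real.norm_eq_abs]
  · have hfin : {W : ι → ℤ | ∀ i, |W i| ≤ ⌊|t| * p⌋}.Finite := by
      have : {W : ι → ℤ | ∀ i, |W i| ≤ ⌊|t| * p⌋} ⊆
          Set.pi Set.univ fun _ : ι => Set.Icc (-⌊|t| * p⌋) ⌊|t| * p⌋ := by
        intro W hW i _
        exact abs_le.mp (hW i)
      exact (Set.Finite.pi' fun _ => Set.finite_Icc _ _).subset fun W hW i => this hW i trivial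
    have hinj : Function.Injective (fun W : Λ => (W : ι → ℤ)) := Subtype.coe_injective
    refine (hfin.preimage hinj.injOn).subset ?_
    intro W hW
    simp only [Set.mem_ofPred_eq] at hW
    simp only [Set.mem_preimage, Set.mem_ofPred_eq]
    intro i
    rw [Int.le_floor]
    have h1 := (dn_le_iff hp N (W : ι → ℤ) (abs_nonneg t)).1 (hW.trans (le_abs_self t)) i
    have h2 : (1 : ℝ) ≤ N i := by exact_mod_cast hN i
    have h3 : (0 : ℝ) ≤ |(((W : ι → ℤ) i : ℤ) : ℝ)| := abs_nonneg _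
    push_cast
    nlinarith

/-- The group of integer lifts of functionals. -/
private def dualBasisLat {p : ℕ} {ι : Type} (v : ι → V p) : AddSubgroup (ι → ℤ) where
  carrier := {W | ∃ μ : V p, ∀ j, ((W j : ℤ) : ZMod p) = dot μ (v j)}
  add_mem' := by
    rintro W W' ⟨μ, h⟩ ⟨μ', h'⟩
    refine ⟨μ + μ', fun j => ?_⟩
    rw [add_dot, ← h j, ← h' j, Pi.add_apply, Int.cast_add]
  zero_mem' := ⟨0, fun j => by simp⟩
  neg_mem' := by
    rintro W ⟨μ, h⟩
    refine ⟨-μ, fun j => ?_⟩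
    have e : dot (-μ) (v j) = -dot μ (v j) := by
      rw [dot_comm, dot_neg, dot_comm]
    rw [e, ← h j, Pi.neg_apply, Int.cast_neg]

private theorem dualBasis_mem {p : ℕ} {ι : Type} {v : ι → V p} {W : ι → ℤ} :
    W ∈ dualBasisLat v ↔ ∃ μ : V p, ∀ j, ((W j : ℤ) : ZMod p) = dot μ (v j) := Iff.rfl

private theorem dualBasis_p {p : ℕ} {ι : Type} (v : ι → V p) (W : ι → ℤ) :
    (p : ℤ) • W ∈ dualBasisLat v := by
  rw [dualBasis_mem]
  refine ⟨0, fun j => ?_⟩
  simp

/-- The inclusion as a linear map. -/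
private def dualBasisInc {p : ℕ} {ι : Type} (v : ι → V p) : dualBasisLat v →ₗ[ℤ] (ι → ℤ) :=
  (dualBasisLat v).subtype.toIntLinearMap

private theorem dualBasisInc_apply {p : ℕ} {ι : Type} (v : ι → V p) (W : dualBasisLat v) :
    dualBasisInc v W = (W : ι → ℤ) := rfl

private theorem dualBasisInc_inj {p : ℕ} {ι : Type} (v : ι → V p) :
    Function.Injective (dualBasisInc v) := fun x y h => Subtype.ext h

private theorem dualBasis_finite {p : ℕ} {ι : Type} [Fintype ι] (v : ι → V p) :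
    Module.Finite ℤ (dualBasisLat v) :=
  Module.Finite.of_injective (dualBasisInc v) (dualBasisInc_inj v)

private theorem dualBasis_free {p : ℕ} {ι : Type} [Fintype ι] (v : ι → V p) :
    Module.Free ℤ (dualBasisLat v) := by
  have := dualBasis_finite v
  infer_instance

private theorem dualBasis_rank {p : ℕ} (hp : 0 < p) {ι : Type} [Fintype ι] (v : ι → V p) :
    Module.finrank ℤ (dualBasisLat v) = Fintype.card ι := by
  have hf := dualBasis_finite v
  have hfr := dualBasis_free v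
  have e : Module.finrank ℤ (ι → ℤ) = Fintype.card ι := Module.finrank_pi ℤ
  apply le_antisymm
  · rw [← e]
    exact LinearMap.finrank_le_finrank_of_injective (dualBasisInc_inj v)
  · rw [← e]
    let f : (ι → ℤ) →ₗ[ℤ] dualBasisLat v :=
      { toFun := fun W => ⟨(p : ℤ) • W, dualBasis_p v W⟩
        map_add' := fun x y => Subtype.ext (by simp [smul_add])
        map_smul' := fun m x => Subtype.ext (by
          simp only [RingHom.id_apply, AddSubgroup.coe_zsmul]
          rw [smul_comm]) }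
    have hfi : Function.Injective f := by
      intro x y h
      have h1 : (p : ℤ) • x = (p : ℤ) • y := congrArg Subtype.val h
      have hp0 : (p : ℤ) ≠ 0 := by exact_mod_cast hp.ne'
      exact smul_right_injective (ι → ℤ) hp0 h1
    exact LinearMap.finrank_le_finrank_of_injective hfi

theorem exists_dual_basis (n : ℕ) : ∃ C : ℝ, 1 ≤ C ∧
    ∀ (ι : Type) [Fintype ι] [DecidableEq ι], Fintype.card ι = n →
    ∀ (p : ℕ) [Fact p.Prime] (v : ι → V p) (N : ι → ℕ), (∀ i, 1 ≤ N i) →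
    ∃ (b : Fin n → ι → ℤ) (μ : Fin n → V p),
      (∀ i j, ((b i j : ℤ) : ZMod p) = dot (μ i) (v j)) ∧ LinearIndependent ℤ b ∧
      ∀ W : ι → ℤ, (∃ μ : V p, ∀ j, ((W j : ℤ) : ZMod p) = dot μ (v j)) →
        ∃ x : Fin n → ℤ, (∀ j, W j = ∑ i, x i * b i j) ∧
          ∀ i, |((x i : ℤ) : ℝ)| * dn p N (b i) ≤ C * dn p N W := by
  obtain ⟨C, hC, hB⟩ := exists_reduced_basis n
  refine ⟨C, hC, ?_⟩
  intro ι _ _ hι p hpf v N hN
  have hp : 0 < p := hpf.out.pos
  have hf := dualBasis_finite v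
  have hfr := dualBasis_free v
  obtain ⟨b, hb⟩ := hB (dualBasisLat v) ((dualBasis_rank hp v).trans hι)
    (fun W : dualBasisLat v => dn p N (W : ι → ℤ)) (isNL_dn hp hN (dualBasisLat v))
  have hmem : ∀ i, ∃ μ : V p, ∀ j, ((((b i : dualBasisLat v) : ι → ℤ) j : ℤ) : ZMod p) =
      dot μ (v j) := fun i => (b i).2
  choose μ hμ using hmem
  refine ⟨fun i => ((b i : dualBasisLat v) : ι → ℤ), μ, hμ, ?_, ?_⟩
  · have := b.linearIndependent.map' (dualBasisInc v)
      (LinearMap.ker_eq_bot.mpr (dualBasisInc_inj v))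
    exact this
  · intro W hW
    refine ⟨fun i => b.repr (⟨W, hW⟩ : dualBasisLat v) i, fun j => ?_, fun i => ?_⟩
    · have h1 := congrArg (dualBasisInc v) (b.sum_repr (⟨W, hW⟩ : dualBasisLat v))
      rw [map_sum] at h1
      have h2 := congrFun h1 j
      rw [Finset.sum_apply] at h2
      simp only [map_smul, dualBasisInc_apply, Pi.smul_apply, smul_eq_mul] at h2
      exact h2.symm
    · exact hb ⟨W, hW⟩ i

end Pool.Agent.Lib.MP_fdf47d_co.SD
end

section

/-!
# The unit ball of a normed lattice is a progression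

Let `C₁` be the constant of `exists_reduced_basis n`, `b` the basis, `r_i = ν (b i) > 0`
(`IsNL.pos`).

`nl_gap`: `κ = {i // r_i ≤ C₁}`, `e i = b i`, `N i = ⌊C₁ / r_i⌋₊ ≥ 1`, so `N_i ν(e_i) ≤ C₁`.  If
`ν x ≤ 1` then `|x_i| r_i ≤ C₁`; so `x_i = 0` for `i ∉ κ` (an integer of absolute value `< 1`) and
`|x_i| ≤ N_i` for `i ∈ κ`.  Lower bound for the ball: with `R_i = ⌊1 / ((n + 1) r_i)⌋₊` all
`x = Σ_i y_i b_i` (`i : Fin n`, or `i ∈ κ`), `|y_i| ≤ R_i`, have `ν x ≤ n/(n+1) ≤ 1`, and they are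
distinct: `∏_{i ∈ κ} (2 R_i + 1) ≤ |{ν ≤ 1}|`, and `2 R_i + 1 ≥ 1 / ((n+1) r_i) ≥ N_i / ((n+1) C₁)`
(`2 ⌊y⌋ + 1 ≥ y`).  So `∏ N_i ≤ ((n+1) C₁)^n |{ν ≤ 1}|`; `C = ((n+1) C₁)^n + C₁`.

`nl_growth` (`0 < R`; for `R ≤ 0` use `{ν ≤ R} ⊆ {ν ≤ 1}`): `{ν ≤ R}` injects by coordinates into
`∏_{i : Fin n} [-⌊C₁ R / r_i⌋, ⌊C₁ R / r_i⌋]`, of size `∏ (2 ⌊C₁ R / r_i⌋₊ + 1)`, and with
`s = (n+1) C₁ R`, `y = 1/((n+1) r_i)`: `2 ⌊s y⌋ + 1 ≤ 2 s (⌊y⌋ + 1) + 1 ≤ (2 s + 1) (2 ⌊y⌋ + 1)`.
So `|{ν ≤ R}| ≤ (2 s + 1)^n |{ν ≤ 1}|`.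
-/

namespace Pool.Agent.Lib.MP_fdf47d_co.SD

open Finset

/-- The box with sides `⌊1 / ((n + 1) ν (e i))⌋` lies in the unit ball. -/
private theorem nlgap_lower {G : Type} [AddCommGroup G] {ν : G → ℝ} (hν : IsNL ν) {κ : Type}
    [Fintype κ] [DecidableEq κ] (e : κ → G) (he : LinearIndependent ℤ e) (hpos : ∀ i, 0 < ν (e i))
    {n : ℕ} (hn : Fintype.card κ ≤ n) :
    ((bx fun i => ⌊1 / (((n : ℝ) + 1) * ν (e i))⌋₊).card : ℝ) ≤ ({x | ν x ≤ 1}.ncard : ℝ) := by
  have h1 : (bx fun i => ⌊1 / (((n : ℝ) + 1) * ν (e i))⌋₊).card ≤ {x | ν x ≤ 1}.ncard := by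
    rw [← Set.ncard_coe_finset]
    refine Set.ncard_le_ncard_of_injOn (fun y : κ → ℤ => ∑ i, y i • e i) ?_ ?_ (hν.finite 1)
    · intro y hy
      rw [Finset.mem_coe, mem_bx] at hy
      show ν (∑ i, y i • e i) ≤ 1
      calc ν (∑ i, y i • e i) ≤ ∑ i, ν (y i • e i) := hν.sum_le _ _
        _ ≤ ∑ i : κ, 1 / ((n : ℝ) + 1) := by
            refine Finset.sum_le_sum fun i _ => ?_
            rw [hν.zsmul]
            have hp := hpos i
            have h2 : |(y i : ℝ)| ≤ 1 / (((n : ℝ) + 1) * ν (e i)) := by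
              have h3 := hy i
              have h4 : (|(y i : ℝ)|) ≤ (⌊1 / (((n : ℝ) + 1) * ν (e i))⌋₊ : ℝ) := by
                exact_mod_cast h3
              exact h4.trans (Nat.floor_le (by positivity))
            calc |(y i : ℝ)| * ν (e i) ≤ 1 / (((n : ℝ) + 1) * ν (e i)) * ν (e i) :=
                  mul_le_mul_of_nonneg_right h2 hp.le
              _ = 1 / ((n : ℝ) + 1) := by
                  have := hp.ne'
                  field_simp
        _ = Fintype.card κ / ((n : ℝ) + 1) := by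
            rw [Finset.sum_const, Finset.card_univ, nsmul_eq_mul]; ring
        _ ≤ 1 := by
            rw [div_le_one (by positivity)]
            have : (Fintype.card κ : ℝ) ≤ n := by exact_mod_cast hn
            linarith
    · intro y _ z _ hyz
      have h2 := (Fintype.linearIndependent_iff.1 he) (fun i => y i - z i) (by
        simp only [sub_smul, sum_sub_distrib]
        exact sub_eq_zero.2 hyz)
      funext i
      exact sub_eq_zero.1 (h2 i)
  exact_mod_cast h1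

/-- `y ≤ 2 ⌊y⌋ + 1`. -/
private theorem nlgap_floor (y : ℝ) : y ≤ 2 * (⌊y⌋₊ : ℝ) + 1 := by
  have h1 := (Nat.lt_floor_add_one y).le
  have h2 : (0 : ℝ) ≤ (⌊y⌋₊ : ℝ) := Nat.cast_nonneg _
  linarith

/-- A bound for a coordinate in the box. -/
private theorem nlgap_coord {C r t : ℝ} (hr : 0 < r) {x : ℤ} (h : |(x : ℝ)| * r ≤ C * t) :
    |x| ≤ (⌊C * t / r⌋₊ : ℤ) := by
  have h1 : ((x.natAbs : ℕ) : ℝ) ≤ C * t / r := by
    rw [le_div_iff₀ hr]
    have h2 : ((x.natAbs : ℕ) : ℝ) = |(x : ℝ)| := by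
      rw [Nat.cast_natAbs, Int.cast_abs]
    rw [h2]
    exact h
  have h3 : x.natAbs ≤ ⌊C * t / r⌋₊ := Nat.le_floor h1
  rw [Int.abs_eq_natAbs]
  exact_mod_cast h3

theorem nl_gap (n : ℕ) : ∃ C : ℝ, 1 ≤ C ∧
    ∀ (G : Type) [AddCommGroup G] [Module.Free ℤ G] [Module.Finite ℤ G],
      Module.finrank ℤ G = n → ∀ ν : G → ℝ, IsNL ν →
      ∃ (κ : Type) (_ : Fintype κ) (_ : DecidableEq κ) (e : κ → G) (N : κ → ℕ),
        Fintype.card κ ≤ n ∧ (∀ i, 1 ≤ N i) ∧ LinearIndependent ℤ e ∧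
        (∀ i, (N i : ℝ) * ν (e i) ≤ C) ∧
        (∀ x, ν x ≤ 1 → ∃ y ∈ bx N, x = ∑ i, y i • e i) ∧
        (∏ i, (N i : ℝ)) ≤ C * ({x | ν x ≤ 1}.ncard : ℝ) := by
  classical
  obtain ⟨C₁, hC₁, hred⟩ := exists_reduced_basis n
  have hn1 : (1 : ℝ) ≤ (n : ℝ) + 1 := by
    have : (0 : ℝ) ≤ n := Nat.cast_nonneg n
    linarith
  have ha : (1 : ℝ) ≤ ((n : ℝ) + 1) * C₁ := one_le_mul_of_one_le_of_one_le hn1 hC₁
  have hpow : (1 : ℝ) ≤ (((n : ℝ) + 1) * C₁) ^ n := one_le_pow₀ ha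
  refine ⟨(((n : ℝ) + 1) * C₁) ^ n + C₁, by linarith, ?_⟩
  intro G _ _ _ hrk ν hν
  obtain ⟨b, hb⟩ := hred G hrk ν hν
  have hpos : ∀ i, 0 < ν (b i) := fun i => hν.pos (b.ne_zero i)
  have hcard : Fintype.card {i : Fin n // ν (b i) ≤ C₁} ≤ n := by
    simpa using Fintype.card_subtype_le (fun i : Fin n => ν (b i) ≤ C₁)
  have hind : LinearIndependent ℤ (fun i : {i : Fin n // ν (b i) ≤ C₁} => b i.1) :=
    b.linearIndependent.comp Subtype.val Subtype.val_injective
  refine ⟨{i : Fin n // ν (b i) ≤ C₁}, inferInstance, inferInstance, fun i => b i.1,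
    fun i => ⌊C₁ * 1 / ν (b i.1)⌋₊, hcard, ?_, hind, ?_, ?_, ?_⟩
  · intro i
    refine Nat.le_floor ?_
    rw [Nat.cast_one, mul_one, one_le_div (hpos i.1)]
    exact i.2
  · intro i
    have h0 := hpos i.1
    have h1 : ((⌊C₁ * 1 / ν (b i.1)⌋₊ : ℕ) : ℝ) ≤ C₁ * 1 / ν (b i.1) :=
      Nat.floor_le (by positivity)
    calc ((⌊C₁ * 1 / ν (b i.1)⌋₊ : ℕ) : ℝ) * ν (b i.1) ≤ C₁ * 1 / ν (b i.1) * ν (b i.1) :=
          mul_le_mul_of_nonneg_right h1 h0.le
      _ = C₁ := by rw [mul_one, div_mul_cancel₀ _ h0.ne']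
      _ ≤ _ := by linarith
  · intro x hx
    have hle : ∀ i, |((b.repr x i : ℤ) : ℝ)| * ν (b i) ≤ C₁ * 1 := fun i =>
      (hb x i).trans (mul_le_mul_of_nonneg_left hx (by linarith))
    refine ⟨fun i => b.repr x i.1, ?_, ?_⟩
    · rw [mem_bx]
      intro i
      exact nlgap_coord (hpos i.1) (hle i.1)
    · have hz : ∀ i : Fin n, ¬ ν (b i) ≤ C₁ → b.repr x i = 0 := by
        intro i hi
        rw [not_le] at hi
        by_contra hne
        have h1 : (1 : ℝ) ≤ |((b.repr x i : ℤ) : ℝ)| := by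
          have : (1 : ℤ) ≤ |b.repr x i| := Int.one_le_abs hne
          exact_mod_cast this
        have h2 := hle i
        have h3 : ν (b i) ≤ |((b.repr x i : ℤ) : ℝ)| * ν (b i) :=
          le_mul_of_one_le_left (hpos i).le h1
        linarith
      have h1 : ∑ i ∈ univ.filter (fun i : Fin n => ν (b i) ≤ C₁), b.repr x i • b i =
          ∑ i : {i : Fin n // ν (b i) ≤ C₁}, b.repr x i.1 • b i.1 :=
        Finset.sum_subtype _ (fun i => by simp) _
      rw [← h1, Finset.sum_filter_of_ne, b.sum_repr]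
      intro i _ hne
      by_contra hcon
      exact hne (by rw [hz i hcon, zero_smul])
  · have hlow := nlgap_lower hν (fun i : {i : Fin n // ν (b i) ≤ C₁} => b i.1) hind
      (fun i => hpos i.1) hcard
    rw [card_bx] at hlow
    push_cast at hlow
    have h1 : (∏ i : {i : Fin n // ν (b i) ≤ C₁}, ((⌊C₁ * 1 / ν (b i.1)⌋₊ : ℕ) : ℝ)) ≤
        ∏ i : {i : Fin n // ν (b i) ≤ C₁}, ((((n : ℝ) + 1) * C₁) *
          (2 * (⌊1 / (((n : ℝ) + 1) * ν (b i.1))⌋₊ : ℝ) + 1)) := by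
      refine Finset.prod_le_prod (fun i _ => Nat.cast_nonneg _) fun i _ => ?_
      have h0 := hpos i.1
      calc ((⌊C₁ * 1 / ν (b i.1)⌋₊ : ℕ) : ℝ) ≤ C₁ * 1 / ν (b i.1) := Nat.floor_le (by positivity)
        _ = (((n : ℝ) + 1) * C₁) * (1 / (((n : ℝ) + 1) * ν (b i.1))) := by
            have h2 := h0.ne'
            have h3 : (n : ℝ) + 1 ≠ 0 := by positivity
            field_simp
        _ ≤ _ := mul_le_mul_of_nonneg_left (nlgap_floor _) (by linarith)
    have h2 : (((n : ℝ) + 1) * C₁) ^ Fintype.card {i : Fin n // ν (b i) ≤ C₁} ≤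
        (((n : ℝ) + 1) * C₁) ^ n := pow_le_pow_right₀ ha hcard
    rw [Finset.prod_mul_distrib, Finset.prod_const, Finset.card_univ] at h1
    have h3 : (0 : ℝ) ≤ ({x | ν x ≤ 1}.ncard : ℝ) := Nat.cast_nonneg _
    have h4 : (0 : ℝ) ≤ ∏ i : {i : Fin n // ν (b i) ≤ C₁},
        (2 * (⌊1 / (((n : ℝ) + 1) * ν (b i.1))⌋₊ : ℝ) + 1) :=
      Finset.prod_nonneg fun i _ => by positivity
    calc _ ≤ _ := h1
      _ ≤ (((n : ℝ) + 1) * C₁) ^ n * ({x | ν x ≤ 1}.ncard : ℝ) :=
          mul_le_mul h2 hlow h4 (by linarith)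
      _ ≤ _ := mul_le_mul_of_nonneg_right (by linarith) h3

theorem nl_growth (n : ℕ) (R : ℝ) : ∃ C : ℝ, 1 ≤ C ∧
    ∀ (G : Type) [AddCommGroup G] [Module.Free ℤ G] [Module.Finite ℤ G],
      Module.finrank ℤ G = n → ∀ ν : G → ℝ, IsNL ν →
      ({x | ν x ≤ R}.ncard : ℝ) ≤ C * ({x | ν x ≤ 1}.ncard : ℝ) := by
  classical
  obtain ⟨C₁, hC₁, hred⟩ := exists_reduced_basis n
  have hn1 : (1 : ℝ) ≤ (n : ℝ) + 1 := by
    have : (0 : ℝ) ≤ n := Nat.cast_nonneg n
    linarith
  have hR := abs_nonneg R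
  have hC0 : 0 ≤ C₁ := by linarith
  have hs : (0 : ℝ) ≤ ((n : ℝ) + 1) * C₁ * |R| := by positivity
  refine ⟨(2 * (((n : ℝ) + 1) * C₁ * |R|) + 1) ^ n, one_le_pow₀ (by linarith), ?_⟩
  intro G _ _ _ hrk ν hν
  obtain ⟨b, hb⟩ := hred G hrk ν hν
  have hpos : ∀ i, 0 < ν (b i) := fun i => hν.pos (b.ne_zero i)
  have hlow := nlgap_lower hν (fun i => b i) b.linearIndependent hpos (n := n) (by simp)
  have hup : {x | ν x ≤ R}.ncard ≤ (bx fun i => ⌊C₁ * |R| / ν (b i)⌋₊).card := by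
    rw [← Set.ncard_coe_finset]
    refine Set.ncard_le_ncard_of_injOn (fun x i => b.repr x i) ?_ ?_ (Finset.finite_toSet _)
    · intro x hx
      rw [Finset.mem_coe, mem_bx]
      intro i
      refine nlgap_coord (hpos i) ((hb x i).trans (mul_le_mul_of_nonneg_left ?_ hC0))
      exact (show ν x ≤ R from hx).trans (le_abs_self R)
    · intro x _ y _ hxy
      apply b.repr.injective
      ext i
      exact congrFun hxy i
  have hup' : ({x | ν x ≤ R}.ncard : ℝ) ≤ ((bx fun i => ⌊C₁ * |R| / ν (b i)⌋₊).card : ℝ) := by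
    exact_mod_cast hup
  rw [card_bx] at hlow hup'
  push_cast at hlow hup'
  have h1 : (∏ i, (2 * ((⌊C₁ * |R| / ν (b i)⌋₊ : ℕ) : ℝ) + 1)) ≤
      ∏ i : Fin n, ((2 * (((n : ℝ) + 1) * C₁ * |R|) + 1) *
        (2 * (⌊1 / (((n : ℝ) + 1) * ν (b i))⌋₊ : ℝ) + 1)) := by
    refine Finset.prod_le_prod (fun i _ => by positivity) fun i _ => ?_
    have h0 := hpos i
    set f : ℝ := (⌊1 / (((n : ℝ) + 1) * ν (b i))⌋₊ : ℝ) with hf
    have hf0 : 0 ≤ f := Nat.cast_nonneg _
    have hfl : 1 / (((n : ℝ) + 1) * ν (b i)) ≤ f + 1 := (Nat.lt_floor_add_one _).le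
    have h2 : ((⌊C₁ * |R| / ν (b i)⌋₊ : ℕ) : ℝ) ≤ (((n : ℝ) + 1) * C₁ * |R|) * (f + 1) := by
      calc ((⌊C₁ * |R| / ν (b i)⌋₊ : ℕ) : ℝ) ≤ C₁ * |R| / ν (b i) := Nat.floor_le (by positivity)
        _ = (((n : ℝ) + 1) * C₁ * |R|) * (1 / (((n : ℝ) + 1) * ν (b i))) := by
            have h2 := h0.ne'
            have h3 : (n : ℝ) + 1 ≠ 0 := by positivity
            field_simp
        _ ≤ _ := mul_le_mul_of_nonneg_left hfl hs
    have h3 : 0 ≤ (((n : ℝ) + 1) * C₁ * |R|) * f := mul_nonneg hs hf0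
    nlinarith
  rw [Finset.prod_mul_distrib, Finset.prod_const, Finset.card_univ, Fintype.card_fin] at h1
  calc _ ≤ _ := hup'
    _ ≤ _ := h1
    _ ≤ _ := mul_le_mul_of_nonneg_left hlow (by positivity)

end Pool.Agent.Lib.MP_fdf47d_co.SD
end

section

/-!
# Existence of dual systems

Let `C` be the constant of `exists_dual_basis n` and `c₀ = min (1/8) (δ / ((n + 1) C))`, so
`n C c₀ ≤ δ`.  Given `v, N` take `b, μ` from `exists_dual_basis`; `κ = {i : Fin n // dn p N (b i) ≤ C c₀}`,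
`N'_i = ⌊C c₀ / dn p N (b i)⌋₊ ≥ 1` (`dn p N (b i) > 0` since `b i ≠ 0` by linear independence and
`N_j ≥ 1`), `u = μ`, `b` restricted.
`small`: `|Σ_i x_i b i j| N_j ≤ Σ_i |x_i| |b i j| N_j ≤ Σ_{i ∈ κ} N'_i dn p N (b i) p
≤ n C c₀ p ≤ δ p`.
`expand`: `dn p N W ≤ c₀` (`dn_le_iff`), so `|x_i| dn p N (b i) ≤ C c₀`; for `i ∉ κ` this gives
`|x_i| < 1`, `x_i = 0`; for `i ∈ κ`, `|x_i| ≤ ⌊C c₀ / dn p N (b i)⌋₊`.
-/

namespace Pool.Agent.Lib.MP_fdf47d_co.SD

open Finset

theorem exists_dualSys (n : ℕ) {δ : ℝ} (hδ : 0 < δ) : ∃ c₀ : ℝ, 0 < c₀ ∧ c₀ ≤ 1 / 8 ∧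
    ∀ (ι : Type) [Fintype ι] [DecidableEq ι], Fintype.card ι = n →
    ∀ (p : ℕ) [Fact p.Prime] (v : ι → V p) (N : ι → ℕ), (∀ i, 1 ≤ N i) →
    ∃ (κ : Type) (_ : Fintype κ) (_ : DecidableEq κ) (u : κ → V p) (N' : κ → ℕ)
      (b : κ → ι → ℤ), Fintype.card κ ≤ n ∧ DualSys v N u N' b δ c₀ := by
  classical
  obtain ⟨C, hC1, H⟩ := exists_dual_basis n
  have hC : 0 < C := by linarith
  have hn1 : (0 : ℝ) < (n : ℝ) + 1 := by positivity
  have hc₀ : 0 < min (1 / 8 : ℝ) (δ / (((n : ℝ) + 1) * C)) := by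
    refine lt_min (by norm_num) (by positivity)
  refine ⟨min (1 / 8 : ℝ) (δ / (((n : ℝ) + 1) * C)), hc₀, min_le_left _ _, ?_⟩
  set c₀ : ℝ := min (1 / 8 : ℝ) (δ / (((n : ℝ) + 1) * C)) with hc₀def
  have hCc : (n : ℝ) * (C * c₀) ≤ δ := by
    have h1 : c₀ ≤ δ / (((n : ℝ) + 1) * C) := min_le_right _ _
    rw [le_div_iff₀ (by positivity)] at h1
    have h2 : 0 ≤ C * c₀ := by positivity
    nlinarith
  intro ι _ _ hι p _ v N hN
  have hp : 0 < p := (Fact.out : p.Prime).pos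
  have hpR : (0 : ℝ) < p := by exact_mod_cast hp
  obtain ⟨b, μ, hlift, hind, hexp⟩ := H ι hι p v N hN
  have hdn0 : ∀ i, 0 < dn p N (b i) := by
    intro i
    by_contra hcon
    push Not at hcon
    apply hind.ne_zero i
    funext j
    have h1 := (dn_le_iff hp N (b i) le_rfl).1 hcon j
    rw [zero_mul] at h1
    have h2 : (1 : ℝ) ≤ N j := by exact_mod_cast hN j
    have h3 : |((b i j : ℤ) : ℝ)| ≤ 0 := by
      have h4 := abs_nonneg ((b i j : ℤ) : ℝ)
      nlinarith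
    have h5 : ((b i j : ℤ) : ℝ) = 0 := abs_nonpos_iff.1 h3
    exact_mod_cast h5
  have hcoord : ∀ i j, |((b i j : ℤ) : ℝ)| * N j ≤ dn p N (b i) * p := fun i j =>
    (dn_le_iff hp N (b i) (hdn0 i).le).1 le_rfl j
  refine ⟨{i : Fin n // dn p N (b i) ≤ C * c₀}, inferInstance, inferInstance, fun i => μ i.1,
    fun i => ⌊C * c₀ / dn p N (b i.1)⌋₊, fun i => b i.1, ?_, ?_⟩
  · exact (Fintype.card_subtype_le _).trans (le_of_eq (Fintype.card_fin n))
  · refine ⟨fun i j => hlift i.1 j, hind.comp _ Subtype.val_injective, ?_, ?_, ?_⟩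
    · intro i
      apply Nat.le_floor
      rw [Nat.cast_one, le_div_iff₀ (hdn0 i.1), one_mul]
      exact i.2
    · intro x hx j
      rw [mem_bx] at hx
      have hterm : ∀ i : {i : Fin n // dn p N (b i) ≤ C * c₀},
          |((x i : ℤ) : ℝ)| * (|((b i.1 j : ℤ) : ℝ)| * N j) ≤ C * c₀ * p := by
        intro i
        have h1 : |((x i : ℤ) : ℝ)| ≤ C * c₀ / dn p N (b i.1) := by
          have h2 : |((x i : ℤ) : ℝ)| ≤ ((⌊C * c₀ / dn p N (b i.1)⌋₊ : ℕ) : ℝ) := by
            have h3 := hx i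
            exact_mod_cast h3
          refine h2.trans (Nat.floor_le ?_)
          have := (hdn0 i.1).le
          positivity
        have h4 : 0 ≤ |((b i.1 j : ℤ) : ℝ)| * N j := by positivity
        calc |((x i : ℤ) : ℝ)| * (|((b i.1 j : ℤ) : ℝ)| * N j)
            ≤ C * c₀ / dn p N (b i.1) * (dn p N (b i.1) * p) := by
              refine mul_le_mul h1 (hcoord i.1 j) h4 ?_
              have := (hdn0 i.1).le
              positivity
          _ = C * c₀ * p := by
              have := (hdn0 i.1).ne'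
              field_simp
      have hNj : (0 : ℝ) ≤ N j := by positivity
      have h5 : |((∑ i : {i : Fin n // dn p N (b i) ≤ C * c₀}, x i * b i.1 j : ℤ) : ℝ)| ≤
          ∑ i : {i : Fin n // dn p N (b i) ≤ C * c₀},
            |((x i : ℤ) : ℝ)| * |((b i.1 j : ℤ) : ℝ)| := by
        rw [Int.cast_sum]
        refine (Finset.abs_sum_le_sum_abs _ _).trans (le_of_eq ?_)
        refine Finset.sum_congr rfl fun i _ => ?_
        rw [Int.cast_mul, abs_mul]
      calc |((∑ i : {i : Fin n // dn p N (b i) ≤ C * c₀}, x i * b i.1 j : ℤ) : ℝ)| * N j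
          ≤ (∑ i : {i : Fin n // dn p N (b i) ≤ C * c₀},
              |((x i : ℤ) : ℝ)| * |((b i.1 j : ℤ) : ℝ)|) * N j :=
            mul_le_mul_of_nonneg_right h5 hNj
        _ = ∑ i : {i : Fin n // dn p N (b i) ≤ C * c₀},
              |((x i : ℤ) : ℝ)| * (|((b i.1 j : ℤ) : ℝ)| * N j) := by
            rw [Finset.sum_mul]
            exact Finset.sum_congr rfl fun i _ => by ring
        _ ≤ ∑ _i : {i : Fin n // dn p N (b i) ≤ C * c₀}, C * c₀ * p :=
            Finset.sum_le_sum fun i _ => hterm i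
        _ = (Fintype.card {i : Fin n // dn p N (b i) ≤ C * c₀} : ℝ) * (C * c₀ * p) := by
            rw [Finset.sum_const, Finset.card_univ, nsmul_eq_mul]
        _ ≤ (n : ℝ) * (C * c₀ * p) := by
            refine mul_le_mul_of_nonneg_right ?_ (by positivity)
            have h6 : Fintype.card {i : Fin n // dn p N (b i) ≤ C * c₀} ≤ n :=
              (Fintype.card_subtype_le _).trans (le_of_eq (Fintype.card_fin n))
            exact_mod_cast h6
        _ = (n : ℝ) * (C * c₀) * p := by ring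
        _ ≤ δ * p := mul_le_mul_of_nonneg_right hCc hpR.le
    · intro W hW hWs
      have hdW : dn p N W ≤ c₀ := (dn_le_iff hp N W hc₀.le).2 hWs
      obtain ⟨x, hx1, hx2⟩ := hexp W hW
      have hx3 : ∀ i, |((x i : ℤ) : ℝ)| * dn p N (b i) ≤ C * c₀ := fun i =>
        (hx2 i).trans (mul_le_mul_of_nonneg_left hdW hC.le)
      have hx0 : ∀ i, ¬ dn p N (b i) ≤ C * c₀ → x i = 0 := by
        intro i hi
        push Not at hi
        by_contra hne
        have h1 : (1 : ℝ) ≤ |((x i : ℤ) : ℝ)| := by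
          have h2 : (1 : ℤ) ≤ |x i| := Int.one_le_abs hne
          exact_mod_cast h2
        have h3 := hx3 i
        have h4 := hdn0 i
        nlinarith
      refine ⟨fun i => x i.1, ?_, ?_⟩
      · rw [mem_bx]
        intro i
        have h1 : |((x i.1 : ℤ) : ℝ)| ≤ C * c₀ / dn p N (b i.1) := by
          rw [le_div_iff₀ (hdn0 i.1)]
          exact hx3 i.1
        have h2 : (x i.1).natAbs ≤ ⌊C * c₀ / dn p N (b i.1)⌋₊ := by
          apply Nat.le_floor
          rw [Nat.cast_natAbs, Int.cast_abs]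
          exact h1
        have h3 : |x i.1| = ((x i.1).natAbs : ℤ) := Int.abs_eq_natAbs _
        rw [h3]
        exact_mod_cast h2
      · intro j
        rw [hx1 j]
        have h1 : ∑ i, x i * b i j =
            ∑ i ∈ Finset.univ.filter (fun i => dn p N (b i) ≤ C * c₀), x i * b i j := by
          rw [Finset.sum_filter]
          refine Finset.sum_congr rfl fun i _ => ?_
          by_cases hi : dn p N (b i) ≤ C * c₀
          · rw [if_pos hi]
          · rw [if_neg hi, hx0 i hi, zero_mul]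
        rw [h1]
        exact Finset.sum_subtype (Finset.univ.filter fun i => dn p N (b i) ≤ C * c₀)
          (fun i => by simp) fun i => x i * b i j

end Pool.Agent.Lib.MP_fdf47d_co.SD
end

section

/-!
# A dyadic tail sum

Let `J` be so large that `f x < 2^J T` on `S`.  For `T ≤ f x` pointwise
`f x ≤ Σ_{j < J} 2^(j+1) T * [2^j T ≤ f x]` (take the last `j` with `2^j T ≤ f x`).  Sum over `x`:
`Σ_j 2^(j+1) T * A / (2^j T)^3 = (2 A / T²) Σ_j 4^(-j) ≤ (8/3) A / T²`.
-/

namespace Pool.Agent.Lib.MP_fdf47d_co.SD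

open Finset

theorem tail_sum_le {α : Type*} (S : Finset α) (f : α → ℝ) {A T : ℝ} (hT : 0 < T) (hA : 0 ≤ A)
    (h : ∀ t, T ≤ t → ((S.filter fun x => t ≤ f x).card : ℝ) ≤ A / t ^ 3) :
    ∑ x ∈ S.filter (fun x => T ≤ f x), f x ≤ 4 * A / T ^ 2 := by
  classical
  obtain ⟨J, hJ⟩ : ∃ J : ℕ, ∀ x ∈ S, f x < 2 ^ J * T := by
    have h1 : ∀ x, ∃ n : ℕ, f x / T < 2 ^ n := fun x => pow_unbounded_of_one_lt _ one_lt_two
    choose n hn using h1
    refine ⟨S.sup n, fun x hx => ?_⟩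
    rw [← div_lt_iff₀ hT]
    refine lt_of_lt_of_le (hn x) ?_
    exact pow_le_pow_right₀ one_le_two (Finset.le_sup hx)
  have key : ∀ x ∈ S, T ≤ f x →
      f x ≤ ∑ j ∈ range J, if 2 ^ j * T ≤ f x then 2 ^ (j + 1) * T else 0 := by
    intro x hx hTx
    have hex : ∃ k : ℕ, f x < 2 ^ k * T := ⟨J, hJ x hx⟩
    have h1 := Nat.find_spec hex
    have h2 : Nat.find hex ≤ J := Nat.find_min' hex (hJ x hx)
    have h3 : Nat.find hex ≠ 0 := by
      intro h
      rw [h] at h1
      simp only [pow_zero, one_mul] at h1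
      linarith
    obtain ⟨j, hj⟩ := Nat.exists_eq_succ_of_ne_zero h3
    have h4 : 2 ^ j * T ≤ f x := by
      have := Nat.find_min hex (m := j) (by omega)
      exact not_lt.1 this
    rw [hj] at h1
    have h5 : (if 2 ^ j * T ≤ f x then 2 ^ (j + 1) * T else 0) ≤
        ∑ j ∈ range J, if 2 ^ j * T ≤ f x then 2 ^ (j + 1) * T else 0 := by
      refine Finset.single_le_sum (f := fun j : ℕ => if 2 ^ j * T ≤ f x then 2 ^ (j + 1) * T else 0)
        (fun i _ => ?_) (mem_range.2 (by omega))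
      split_ifs
      · positivity
      · exact le_rfl
    rw [if_pos h4] at h5
    exact h1.le.trans h5
  have hterm : ∀ j : ℕ, (0 : ℝ) < 2 ^ j * T := fun j => by positivity
  have hgeo : ∀ J : ℕ, ∑ j ∈ range J, ((1 : ℝ) / 4) ^ j = 4 / 3 * (1 - (1 / 4) ^ J) := by
    intro J
    induction J with
    | zero => simp
    | succ J ih =>
      rw [sum_range_succ, ih, pow_succ]
      ring
  calc ∑ x ∈ S.filter (fun x => T ≤ f x), f x
      ≤ ∑ x ∈ S.filter (fun x => T ≤ f x), ∑ j ∈ range J,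
          (if 2 ^ j * T ≤ f x then 2 ^ (j + 1) * T else 0) := by
        refine sum_le_sum fun x hx => ?_
        rw [mem_filter] at hx
        exact key x hx.1 hx.2
    _ ≤ ∑ x ∈ S, ∑ j ∈ range J, (if 2 ^ j * T ≤ f x then 2 ^ (j + 1) * T else 0) := by
        refine sum_le_sum_of_subset_of_nonneg (filter_subset _ _) fun x _ _ => ?_
        refine sum_nonneg fun j _ => ?_
        split_ifs
        · positivity
        · exact le_rfl
    _ = ∑ j ∈ range J, ∑ x ∈ S, (if 2 ^ j * T ≤ f x then 2 ^ (j + 1) * T else 0) := sum_comm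
    _ = ∑ j ∈ range J, ((S.filter fun x => 2 ^ j * T ≤ f x).card : ℝ) * (2 ^ (j + 1) * T) := by
        refine sum_congr rfl fun j _ => ?_
        rw [← sum_filter, sum_const, nsmul_eq_mul]
    _ ≤ ∑ j ∈ range J, 2 * A / T ^ 2 * (1 / 4) ^ j := by
        refine sum_le_sum fun j _ => ?_
        have h1 : T ≤ 2 ^ j * T := by
          have : (1 : ℝ) ≤ 2 ^ j := one_le_pow₀ one_le_two
          nlinarith
        have h2 := h _ h1
        calc ((S.filter fun x => 2 ^ j * T ≤ f x).card : ℝ) * (2 ^ (j + 1) * T)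
            ≤ A / (2 ^ j * T) ^ 3 * (2 ^ (j + 1) * T) :=
              mul_le_mul_of_nonneg_right h2 (by positivity)
          _ = 2 * A / T ^ 2 * (1 / 4) ^ j := by
              have h3 : ((1 : ℝ) / 4) ^ j = 1 / (2 ^ j * 2 ^ j) := by
                rw [div_pow, one_pow, ← mul_pow]
                norm_num
              rw [h3, pow_succ]
              have h4 : (2 : ℝ) ^ j ≠ 0 := by positivity
              field_simp
              ring
    _ = 2 * A / T ^ 2 * (4 / 3 * (1 - (1 / 4) ^ J)) := by rw [← mul_sum, hgeo]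
    _ ≤ 2 * A / T ^ 2 * 2 := by
        refine mul_le_mul_of_nonneg_left ?_ (by positivity)
        have : (0 : ℝ) < (1 / 4) ^ J := by positivity
        linarith
    _ = 4 * A / T ^ 2 := by ring

end Pool.Agent.Lib.MP_fdf47d_co.SD
end
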