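import Pool.Agent.Lib.MP_fdf47d_co.SD.RB
import Pool.Agent.Lib.MP_dd2a7c_co.Prog
import Pool.Agent.Lib.MP_fdf47d_co.SD.Tail
import Pool.Agent.Lib.MP_fdf47d_co.SD.DualProper
import Pool.Agent.Results.MP_dd2a7c_co.LogLog

section

/-!
# The gauge of a convex body is a norm on the lattice

`ν x = gauge Q.body (x : Fin d → ℝ)`.  The body is a neighbourhood of `0` (convex, symmetric, with
an interior point `y`: `0 = (y + (-y))/2` is interior), closed and bounded.
`add_le`: `gauge_add_le`; `zsmul`: `gauge_smul_of_nonneg` and symmetry (`gauge_neg`);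
`gauge ≤ 1 ↔ mem`: the body is closed (`gauge_le_one_iff_mem_closure`);
`finite`: `{gauge ≤ t}` (`t > 0`) is `t • body`, bounded, so contains finitely many integer points
(coordinates bounded).
-/

namespace Pool.Agent.Lib.MP_fdf47d_co.SD

open Finset

open Pool.Agent.Lib.MP_dd2a7c_co (CosetProg)

open Topology in
private theorem gauge_nhds {d : ℕ} {B : Set (Fin d → ℝ)} (hc : Convex ℝ B)
    (hi : (interior B).Nonempty) (hn : ∀ x ∈ B, -x ∈ B) : B ∈ 𝓝 (0 : Fin d → ℝ) := by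
  obtain ⟨y, hy⟩ := hi
  have hneg : -y ∈ interior B := by
    have hB : B = -B := by
      ext x
      rw [Set.mem_neg]
      exact ⟨hn x, fun h => by simpa using hn _ h⟩
    have h1 : -interior B = interior (-B) := by
      have := (Homeomorph.neg (Fin d → ℝ)).preimage_interior B
      simpa using this
    rw [hB, ← h1, Set.mem_neg, neg_neg]
    exact hy
  have h0 : (0 : Fin d → ℝ) ∈ interior B := by
    have := hc.interior hy hneg (a := 1 / 2) (b := 1 / 2) (by norm_num) (by norm_num)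
      (by norm_num)
    simpa using this
  exact mem_interior_iff_mem_nhds.1 h0

theorem exists_nl_of_body {Γ : Type*} [AddCommGroup Γ] (Q : CosetProg Γ) :
    ∃ ν : (Fin Q.dim → ℤ) → ℝ, IsNL ν ∧ ∀ x, x ∈ Q.points ↔ ν x ≤ 1 := by
  have hnh := gauge_nhds Q.convex_body Q.interior_nonempty Q.neg_mem_body
  have habs : Absorbent ℝ Q.body := absorbent_nhds_zero hnh
  have hle1 : ∀ z : Fin Q.dim → ℝ, gauge Q.body z ≤ 1 ↔ z ∈ Q.body := by
    intro z
    rw [gauge_le_one_iff_mem_closure Q.convex_body hnh, Q.isCompact_body.isClosed.closure_eq]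
  refine ⟨fun x => gauge Q.body (fun i => (x i : ℝ)), ⟨?_, ?_, ?_⟩, ?_⟩
  · intro x y
    have h := gauge_add_le Q.convex_body habs (fun i => (x i : ℝ)) (fun i => (y i : ℝ))
    have he : (fun i => (((x + y) i : ℤ) : ℝ)) = (fun i => (x i : ℝ)) + (fun i => (y i : ℝ)) := by
      funext i; simp
    show gauge Q.body (fun i => (((x + y) i : ℤ) : ℝ)) ≤ _
    rw [he]; exact h
  · intro m x
    have he : (fun i => (((m • x) i : ℤ) : ℝ)) = (m : ℝ) • (fun i => (x i : ℝ)) := by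
      funext i; simp
    show gauge Q.body (fun i => (((m • x) i : ℤ) : ℝ)) = _
    rw [he]
    rcases le_total 0 (m : ℝ) with hm | hm
    · rw [gauge_smul_of_nonneg hm, abs_of_nonneg hm, smul_eq_mul]
    · have h2 : (m : ℝ) • (fun i => (x i : ℝ)) = -((-(m : ℝ)) • (fun i => (x i : ℝ))) := by
        rw [neg_smul, neg_neg]
      rw [h2, gauge_neg Q.neg_mem_body, gauge_smul_of_nonneg (by linarith), abs_of_nonpos hm,
        smul_eq_mul]
  · intro t
    obtain ⟨R, hR⟩ := Q.isCompact_body.isBounded.exists_norm_le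
    set t' : ℝ := max t 1 with ht'
    have ht0 : 0 < t' := lt_of_lt_of_le one_pos (le_max_right _ _)
    set M : ℤ := ⌈t' * R⌉ with hM
    refine Set.Finite.subset (Set.finite_Icc (fun _ : Fin Q.dim => -M) (fun _ => M)) ?_
    intro x hx
    have hx' : gauge Q.body (fun i => (x i : ℝ)) ≤ t' := le_trans hx (le_max_left _ _)
    have h1 : gauge Q.body (t'⁻¹ • (fun i => (x i : ℝ))) ≤ 1 := by
      rw [gauge_smul_of_nonneg (inv_nonneg.2 ht0.le), smul_eq_mul]
      rw [inv_mul_le_iff₀ ht0]; linarith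
    have h2 := hR _ ((hle1 _).1 h1)
    rw [norm_smul, norm_inv, Real.norm_eq_abs, abs_of_pos ht0, inv_mul_le_iff₀ ht0] at h2
    have h3 : ∀ i, |(x i : ℝ)| ≤ (M : ℝ) := by
      intro i
      have h4 := norm_le_pi_norm (fun i => (x i : ℝ)) i
      rw [Real.norm_eq_abs] at h4
      exact (h4.trans h2).trans (Int.le_ceil _)
    rw [Set.mem_Icc]
    constructor
    · intro i
      have := (abs_le.1 (h3 i)).1
      exact_mod_cast this
    · intro i
      have := (abs_le.1 (h3 i)).2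
      exact_mod_cast this
  · intro x
    show (fun i => (x i : ℝ)) ∈ Q.body ↔ _
    rw [hle1]

end Pool.Agent.Lib.MP_fdf47d_co.SD
end

section

/-!
# The image of a ball containing a short vector of order `p`

Let `d = φ x₁ ≠ 0`, `𝔽_p d` its line.  Choose `T₀ ⊆ {ν ≤ 1}` such that the `φ t`, `t ∈ T₀`, represent
each coset of `𝔽_p d` met by `φ {ν ≤ 1}` exactly once.  The elements `t + j x₁`, `t ∈ T₀`,
`0 ≤ j < p`, are pairwise distinct (already their images under `φ` are: different cosets for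
different `t`, and `j • d` distinct for `0 ≤ j < p`) and lie in `{ν ≤ 1 + p ν x₁} ⊆ {ν ≤ 1 + R}`.  So
`|T₀| p ≤ |{ν ≤ 1 + R}| ≤ C₂ |{ν ≤ 1}|` (`nl_growth n (1 + R)`).
Apply `inc_cosets` to `Q = img ν φ a`, `S = {a + φ t | t ∈ T₀}`, `|S| ≤ |T₀|`, and
`|Q| ≤ |{ν ≤ 1}|`:
the sum is `≤ C₂ |{ν ≤ 1}| |L| / p + |{ν ≤ 1}| ≤ C₂ TT`.
-/

namespace Pool.Agent.Lib.MP_fdf47d_co.SD

open Finset

/-- The translate of the image of the unit ball. -/
noncomputable def img {p : ℕ} [Fact p.Prime] {G : Type*} [AddCommGroup G] (ν : G → ℝ)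
    (φ : G →+ V p) (a : V p) : Finset (V p) := by
  classical exact univ.filter fun z => ∃ x, ν x ≤ 1 ∧ z = a + φ x

theorem mem_img {p : ℕ} [Fact p.Prime] {G : Type*} [AddCommGroup G] {ν : G → ℝ}
    {φ : G →+ V p} {a z : V p} : z ∈ img ν φ a ↔ ∃ x, ν x ≤ 1 ∧ z = a + φ x := by
  simp [img]

theorem card_img_le {p : ℕ} [Fact p.Prime] {G : Type*} [AddCommGroup G] {ν : G → ℝ}
    (h : IsNL ν) (φ : G →+ V p) (a : V p) : (img ν φ a).card ≤ {x | ν x ≤ 1}.ncard := by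
  classical
  have hsub : (img ν φ a : Set (V p)) ⊆ (fun x => a + φ x) '' {x | ν x ≤ 1} := by
    intro z hz
    obtain ⟨x, hx, rfl⟩ := mem_img.mp hz
    exact ⟨x, hx, rfl⟩
  rw [← Set.ncard_coe_finset]
  exact (Set.ncard_le_ncard hsub ((h.finite 1).image _)).trans (Set.ncard_image_le (h.finite 1))

theorem nl_coset (n : ℕ) (R : ℝ) : ∃ C : ℝ, 1 ≤ C ∧
    ∀ (G : Type) [AddCommGroup G] [Module.Free ℤ G] [Module.Finite ℤ G],
      Module.finrank ℤ G = n → ∀ ν : G → ℝ, IsNL ν →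
      ∀ (p : ℕ) [Fact p.Prime] (φ : G →+ V p) (a : V p) (x₁ : G), φ x₁ ≠ 0 → ν x₁ * p ≤ R →
      ∀ L : Finset (Finset (V p)), (∀ ℓ ∈ L, IsLine ℓ) →
      ∑ ℓ ∈ L, ((img ν φ a ∩ ℓ).card : ℝ) ≤ C * TT p ({x | ν x ≤ 1}.ncard : ℝ) L.card := by
  obtain ⟨C₂, hC₂, hgrow⟩ := nl_growth n (1 + R)
  refine ⟨C₂, hC₂, ?_⟩
  intro G _ _ _ hn ν hν p _ φ a x₁ hd hR L hL
  classical
  have hp : p.Prime := Fact.out
  have hp0 : (0 : ℝ) < p := by exact_mod_cast hp.pos
  -- representatives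
  have hrep : ∀ c ∈ (img ν φ a).image (Submodule.Quotient.mk (p := Submodule.span (ZMod p) {φ x₁})),
      ∃ z, z ∈ img ν φ a ∧
        (Submodule.Quotient.mk z : V p ⧸ Submodule.span (ZMod p) {φ x₁}) = c := by
    intro c hc
    obtain ⟨z, hz, hzc⟩ := mem_image.mp hc
    exact ⟨z, hz, hzc⟩
  choose! f hf1 hf2 using hrep
  obtain ⟨S, hS⟩ : ∃ S, S = ((img ν φ a).image (Submodule.Quotient.mk
      (p := Submodule.span (ZMod p) {φ x₁}))).image f := ⟨_, rfl⟩
  have hSQ : ∀ s ∈ S, s ∈ img ν φ a := by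
    intro s hs
    rw [hS] at hs
    obtain ⟨c, hc, rfl⟩ := mem_image.mp hs
    exact hf1 c hc
  have hcov : ∀ z ∈ img ν φ a, ∃ s ∈ S, ∃ t : ZMod p, z = s + t • φ x₁ := by
    intro z hz
    have hc : (Submodule.Quotient.mk z : V p ⧸ Submodule.span (ZMod p) {φ x₁}) ∈
        (img ν φ a).image (Submodule.Quotient.mk (p := Submodule.span (ZMod p) {φ x₁})) :=
      mem_image_of_mem _ hz
    refine ⟨f (Submodule.Quotient.mk z), by rw [hS]; exact mem_image_of_mem _ hc, ?_⟩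
    have h1 := (Submodule.Quotient.eq _).mp (hf2 _ hc)
    obtain ⟨t, ht⟩ := Submodule.mem_span_singleton.mp h1
    refine ⟨-t, ?_⟩
    rw [neg_smul, ht]
    abel
  have hinj : ∀ s ∈ S, ∀ s' ∈ S, ∀ t : ZMod p, s = s' + t • φ x₁ → s = s' := by
    intro s hs s' hs' t h
    rw [hS] at hs hs'
    obtain ⟨c, hc, rfl⟩ := mem_image.mp hs
    obtain ⟨c', hc', rfl⟩ := mem_image.mp hs'
    have h1 : (Submodule.Quotient.mk (f c) : V p ⧸ Submodule.span (ZMod p) {φ x₁}) =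
        Submodule.Quotient.mk (f c') := by
      rw [Submodule.Quotient.eq, h, add_sub_cancel_left]
      exact Submodule.mem_span_singleton.mpr ⟨t, rfl⟩
    rw [hf2 c hc, hf2 c' hc'] at h1
    rw [h1]
  -- preimages
  have hpre : ∀ s ∈ S, ∃ x, ν x ≤ 1 ∧ s = a + φ x := fun s hs => mem_img.mp (hSQ s hs)
  choose! g hg1 hg2 using hpre
  have hcard : S.card * p ≤ {x | ν x ≤ 1 + R}.ncard := by
    have h1 : ((S ×ˢ range p).image fun q => g q.1 + q.2 • x₁ : Finset G).card =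
        S.card * p := by
      rw [card_image_of_injOn, card_product, card_range]
      rintro ⟨s, j⟩ hs ⟨s', j'⟩ hs' h
      simp only [coe_product, Set.mem_prod, mem_coe, mem_range] at hs hs'
      have h2 : s + (j : ZMod p) • φ x₁ = s' + (j' : ZMod p) • φ x₁ := by
        have h3 := congrArg (fun x => a + φ x) h
        simp only [map_add, map_nsmul] at h3
        rw [hg2 s hs.1, hg2 s' hs'.1, Nat.cast_smul_eq_nsmul, Nat.cast_smul_eq_nsmul]
        rw [← add_assoc, ← add_assoc] at h3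
        exact h3
      have h3 : s = s' := by
        refine hinj s hs.1 s' hs'.1 ((j' : ZMod p) - j) ?_
        rw [sub_smul]
        rw [← eq_sub_iff_add_eq] at h2
        rw [h2]
        abel
      subst h3
      have h4 : ((j : ZMod p) - j') • φ x₁ = 0 := by
        rw [sub_smul, add_left_cancel h2, sub_self]
      have h5 : (j : ZMod p) = j' := by
        rcases smul_eq_zero.mp h4 with h5 | h5
        · exact sub_eq_zero.mp h5
        · exact absurd h5 hd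
      have h6 : j = j' := by
        rw [ZMod.natCast_eq_natCast_iff] at h5
        exact Nat.ModEq.eq_of_lt_of_lt h5 hs.2 hs'.2
      rw [h6]
    rw [← h1, ← Set.ncard_coe_finset]
    refine Set.ncard_le_ncard ?_ (hν.finite _)
    intro x hx
    obtain ⟨⟨s, j⟩, hq, rfl⟩ := mem_image.mp (mem_coe.mp hx)
    rw [mem_product, mem_range] at hq
    have h2 : (j : ℝ) ≤ p := by exact_mod_cast hq.2.le
    have h3 := hν.add_le (g s) (j • x₁)
    rw [hν.nsmul] at h3
    have h4 := hg1 s hq.1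
    have h5 := mul_le_mul_of_nonneg_right h2 (hν.nonneg x₁)
    show ν (g s + j • x₁) ≤ 1 + R
    linarith
  have hmain := inc_cosets (img ν φ a) hd S hcov L hL
  have hQ : ((img ν φ a).card : ℝ) ≤ ({x | ν x ≤ 1}.ncard : ℝ) := by
    exact_mod_cast card_img_le hν φ a
  have hg := hgrow G hn ν hν
  have hcard' : (S.card : ℝ) * p ≤ C₂ * ({x | ν x ≤ 1}.ncard : ℝ) := by
    refine le_trans ?_ hg
    exact_mod_cast hcard
  obtain ⟨M, hM⟩ : ∃ M : ℝ, M = ({x | ν x ≤ 1}.ncard : ℝ) := ⟨_, rfl⟩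
  have hM0 : 0 ≤ M := by rw [hM]; positivity
  rw [← hM] at hQ hcard' ⊢
  have hS1 : (S.card : ℝ) ≤ C₂ * M / p := by
    rw [le_div_iff₀ hp0]
    exact hcard'
  have hL0 : (0 : ℝ) ≤ L.card := by positivity
  have h1 : (S.card : ℝ) * L.card ≤ C₂ * (M * L.card / p) := by
    refine (mul_le_mul_of_nonneg_right hS1 hL0).trans (le_of_eq ?_)
    ring
  have h2 : M ≤ C₂ * M := by nlinarith
  have h3 : (0 : ℝ) ≤ C₂ * (M ^ (2 / 3 : ℝ) * (L.card : ℝ) ^ (2 / 3 : ℝ)) := by positivity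
  have h4 : (0 : ℝ) ≤ C₂ * L.card := by positivity
  unfold TT
  rw [mul_add, mul_add, mul_add]
  linarith

end Pool.Agent.Lib.MP_fdf47d_co.SD
end

section

/-!
# The dual progression
-/

namespace Pool.Agent.Lib.MP_fdf47d_co.SD

open Finset

theorem dual_exists (n : ℕ) : ∃ C : ℝ, 1 ≤ C ∧
    ∀ (ι : Type) [Fintype ι] [DecidableEq ι], Fintype.card ι = n →
    ∀ (p : ℕ) [Fact p.Prime] (v : ι → V p) (N : ι → ℕ), (∀ i, 1 ≤ N i) → Proper v N →
    (∀ μ : V p, (∀ i, dot μ (v i) = 0) → μ = 0) →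
    ∃ (κ : Type) (_ : Fintype κ) (_ : DecidableEq κ) (u : κ → V p) (N' : κ → ℕ),
      Fintype.card κ ≤ n ∧ (∀ i, 1 ≤ N' i) ∧ Proper u N' ∧
      (∏ i, (N' i : ℝ)) * ∏ i, (N i : ℝ) ≤ C * (p : ℝ) ^ 2 ∧
      (∀ l : V p, l ≠ 0 →
        (nn v N l : ℝ) * p ≤ C * (∏ i, (N i : ℝ)) * nn u N' (perp l)) ∧
      (∀ l : V p, l ≠ 0 → jj u N' (perp l) + jj v N l ≤ n) := by
  have hδ : (0 : ℝ) < 1 / (8 * ((n : ℝ) + 1)) := by positivity
  obtain ⟨c₀, hc, hc1, H⟩ := exists_dualSys n hδ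
  set δ : ℝ := 1 / (8 * ((n : ℝ) + 1)) with hδdef
  have h4 : (1 : ℝ) ≤ 4 / c₀ := by
    rw [le_div_iff₀ hc]; linarith
  have hpow : (1 : ℝ) ≤ (4 / c₀) ^ n := one_le_pow₀ h4
  refine ⟨4 * (4 / c₀) ^ n, by linarith, ?_⟩
  intro ι _ _ hι p _ v N hN hP hspan
  obtain ⟨κ, i1, i2, u, N', b, hκ, hD⟩ := H ι hι p v N hN
  have hδ1 : δ < 1 := by
    rw [hδdef, div_lt_one (by positivity)]
    have : (0 : ℝ) ≤ n := by positivity
    linarith
  have hnδ : (Fintype.card ι : ℝ) * δ ≤ 1 / 8 := by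
    rw [hι, hδdef, mul_one_div, div_le_div_iff₀ (by positivity) (by norm_num)]
    have : (0 : ℝ) ≤ n := by positivity
    linarith
  have hP' : Proper u N' := hD.proper hN hδ1
  refine ⟨κ, i1, i2, u, N', hκ, hD.one_le, hP', ?_, ?_, ?_⟩
  · refine (hD.card_le hP hP' (by linarith)).trans ?_
    have hp2 : (0 : ℝ) ≤ (p : ℝ) ^ 2 := by positivity
    nlinarith
  · intro l hl
    have h1 : ((nn v N l : ℕ) : ℝ) * p ≤
        (4 / c₀) ^ Fintype.card ι * (∏ i, (N i : ℝ)) * (bohr (fun j => dot l (v j)) N c₀).card := by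
      have := card_kernel_le_bohr (fun j => dot l (v j)) N hN (fun i => hP.lt i) hc hc1
      unfold nn
      simpa only [dot_lin] using this
    have h2 : ((bohr (fun j => dot l (v j)) N c₀).card : ℝ) ≤ nn u N' (perp l) := by
      exact_mod_cast hD.count hspan hl
    have hM : (0 : ℝ) ≤ ∏ i, (N i : ℝ) := prod_nonneg fun i _ => by positivity
    rw [hι] at h1
    have hnn : (0 : ℝ) ≤ nn u N' (perp l) := by positivity
    calc (nn v N l : ℝ) * p
        ≤ (4 / c₀) ^ n * (∏ i, (N i : ℝ)) * (bohr (fun j => dot l (v j)) N c₀).card := h1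
      _ ≤ (4 / c₀) ^ n * (∏ i, (N i : ℝ)) * nn u N' (perp l) :=
          mul_le_mul_of_nonneg_left h2 (by positivity)
      _ ≤ 4 * ((4 / c₀) ^ n * (∏ i, (N i : ℝ)) * nn u N' (perp l)) := by
          have : 0 ≤ (4 / c₀) ^ n * (∏ i, (N i : ℝ)) * nn u N' (perp l) := by positivity
          linarith
      _ = _ := by ring
  · intro l hl
    rw [← hι]
    exact hD.rank (by linarith) hl

end Pool.Agent.Lib.MP_fdf47d_co.SD
end

section

/-!
# The step for `n < 2 * jj`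

Let `C_D` be the constant of `dual_exists n` and `C' ≥ 1` one constant with `GStmt m C'` for all
`m < n` and `AStmt n C'`; `C = C_D ^ 3 * C'`.  Let `M = ∏ N_i ≥ 1`; `k ≥ C (1 + M/p) > 1`.
(1) Degenerate case: some `μ₀ ≠ 0` has `dot μ₀ (v i) = 0` for all `i`.  Each `l` of the set has
`nn v N l ≥ k > 1`, so `2 ≤ nn v N l`; by `card_two_le_nn_of_degenerate` the count is `≤ p`.
(2) Otherwise take the dual system `(u, N')` of `dual_exists`, `M' = ∏ N'_i`, `M' M ≤ C_D p²`, and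
`k' = k p / (C_D M)`.  For `l` in the set `nn u N' (perp l) ≥ nn v N l * p / (C_D M) ≥ k'` and
`2 jj u N' (perp l) ≤ 2 n - 2 jj v N l < n`.  Since `l ↦ perp l` is injective and maps nonzero
vectors to nonzero vectors, the count is at most
`#{l' ≠ 0 | k' ≤ nn u N' l' ∧ 2 jj u N' l' ≤ n}`.  `card κ ≤ n`; apply `GStmt (card κ)` if
`card κ < n`, `AStmt n` if `card κ = n`: the condition is
`C' (1 + M'/p) ≤ C' (1 + C_D p / M) ≤ k' = k p / (C_D M)`, which follows from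
`k ≥ C_D^3 C' (1 + M/p) ≥ C_D C' (M/p + C_D)`.  The bound is
`C' p (1 + M' / k'^2) ≤ C' p (1 + C_D^3 M / k²) ≤ C p (1 + M / k²)`.
-/

namespace Pool.Agent.Lib.MP_fdf47d_co.SD

open Finset

/-- One constant for all smaller ranks. -/
private theorem BStep_uniform (n : ℕ) (hG : ∀ m < n, ∃ C : ℝ, 1 ≤ C ∧ GStmt m C) :
    ∃ C : ℝ, 1 ≤ C ∧ ∀ m < n, GStmt m C := by
  induction n with
  | zero => exact ⟨1, le_refl _, fun m hm => absurd hm (Nat.not_lt_zero m)⟩
  | succ n ih =>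
    obtain ⟨C, h1, h⟩ := ih fun m hm => hG m (Nat.lt_succ_of_lt hm)
    obtain ⟨C', h1', h'⟩ := hG n (Nat.lt_succ_self n)
    refine ⟨max C C', le_max_of_le_left h1, fun m hm => ?_⟩
    rcases Nat.lt_or_ge m n with hlt | hge
    · exact (h m hlt).mono (le_max_left _ _)
    · obtain rfl : m = n := by omega
      exact h'.mono (le_max_right _ _)

/-- The arithmetic of the threshold. -/
private theorem BStep_threshold {D C' M M' p k : ℝ} (hD : 1 ≤ D) (hC' : 1 ≤ C') (hM : 1 ≤ M)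
    (hp : 0 < p) (hMM : M' * M ≤ D * p ^ 2) (hk : D ^ 3 * C' * (1 + M / p) ≤ k) :
    C' * (1 + M' / p) ≤ k * p / (D * M) := by
  have hM0 : 0 < M := by linarith
  have hD0 : 0 < D := by linarith
  have hC0 : 0 < C' := by linarith
  have hM'le : M' ≤ D * p ^ 2 / M := by rw [le_div_iff₀ hM0]; exact hMM
  have h1 : C' * (1 + M' / p) ≤ C' * (1 + D * p / M) := by
    apply mul_le_mul_of_nonneg_left _ hC0.le
    have : M' / p ≤ D * p ^ 2 / M / p := div_le_div_of_nonneg_right hM'le hp.le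
    have h2 : D * p ^ 2 / M / p = D * p / M := by field_simp
    linarith
  refine h1.trans ?_
  rw [le_div_iff₀ (by positivity)]
  have hkp : D ^ 3 * C' * (p + M) ≤ k * p := by
    have := mul_le_mul_of_nonneg_right hk hp.le
    have h2 : D ^ 3 * C' * (1 + M / p) * p = D ^ 3 * C' * (p + M) := by field_simp
    linarith
  have h3 : C' * (1 + D * p / M) * (D * M) = C' * D * M + C' * D ^ 2 * p := by field_simp
  rw [h3]
  have hD2 : D ≤ D ^ 3 := le_self_pow₀ hD (by norm_num)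
  have hD3 : D ^ 2 ≤ D ^ 3 := pow_le_pow_right₀ hD (by norm_num)
  have e1 : C' * D * M ≤ D ^ 3 * C' * M := by
    have := mul_le_mul_of_nonneg_right hD2 (mul_pos hC0 hM0).le
    nlinarith
  have e2 : C' * D ^ 2 * p ≤ D ^ 3 * C' * p := by
    have := mul_le_mul_of_nonneg_right hD3 (mul_pos hC0 hp).le
    nlinarith
  nlinarith

/-- The arithmetic of the bound. -/
private theorem BStep_bound {D C' M M' p k : ℝ} (hD : 1 ≤ D) (hC' : 1 ≤ C') (hM : 1 ≤ M)
    (hp : 0 < p) (hk : 0 < k) (hMM : M' * M ≤ D * p ^ 2) :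
    C' * p * (1 + M' / (k * p / (D * M)) ^ 2) ≤ D ^ 3 * C' * p * (1 + M / k ^ 2) := by
  have hM0 : 0 < M := by linarith
  have hD0 : 0 < D := by linarith
  have hC0 : 0 < C' := by linarith
  have hM'le : M' ≤ D * p ^ 2 / M := by rw [le_div_iff₀ hM0]; exact hMM
  have h1 : M' / (k * p / (D * M)) ^ 2 ≤ D ^ 3 * M / k ^ 2 := by
    have h2 : D * p ^ 2 / M / (k * p / (D * M)) ^ 2 = D ^ 3 * M / k ^ 2 := by field_simp
    rw [← h2]
    exact div_le_div_of_nonneg_right hM'le (by positivity)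
  have hD3 : 1 ≤ D ^ 3 := one_le_pow₀ hD
  have h4 : (1 : ℝ) + M' / (k * p / (D * M)) ^ 2 ≤ D ^ 3 * (1 + M / k ^ 2) := by
    have : D ^ 3 * (1 + M / k ^ 2) = D ^ 3 + D ^ 3 * M / k ^ 2 := by ring
    linarith
  calc C' * p * (1 + M' / (k * p / (D * M)) ^ 2)
      ≤ C' * p * (D ^ 3 * (1 + M / k ^ 2)) := mul_le_mul_of_nonneg_left h4 (by positivity)
    _ = D ^ 3 * C' * p * (1 + M / k ^ 2) := by ring

theorem bStep (n : ℕ) (hG : ∀ m < n, ∃ C : ℝ, 1 ≤ C ∧ GStmt m C)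
    (hA : ∃ C : ℝ, 1 ≤ C ∧ AStmt n C) : ∃ C : ℝ, 1 ≤ C ∧ BStmt n C := by
  obtain ⟨D, hD, hdual⟩ := dual_exists n
  obtain ⟨C₁, h1, hG'⟩ := BStep_uniform n hG
  obtain ⟨C₂, h2, hA'⟩ := hA
  set C' : ℝ := max C₁ C₂ with hC'def
  have hC' : 1 ≤ C' := le_max_of_le_left h1
  have hG2 : ∀ m < n, GStmt m C' := fun m hm => (hG' m hm).mono (le_max_left _ _)
  have hA2 : AStmt n C' := hA'.mono (le_max_right _ _)
  have hD3 : 1 ≤ D ^ 3 := one_le_pow₀ hD
  have hCC : 1 ≤ D ^ 3 * C' := one_le_mul_of_one_le_of_one_le hD3 hC'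
  refine ⟨D ^ 3 * C', hCC, ?_⟩
  intro ι _ _ hι p _ v N hN hP k hk
  have hM : (1 : ℝ) ≤ ∏ i, (N i : ℝ) := one_le_prod hN
  set M : ℝ := ∏ i, (N i : ℝ) with hMdef
  have hp0 : (0 : ℝ) < p := by exact_mod_cast (Fact.out : p.Prime).pos
  have hk1 : 1 < k := by
    have hMp : 0 < M / p := by positivity
    have : D ^ 3 * C' * (1 + M / p) = D ^ 3 * C' + D ^ 3 * C' * (M / p) := by ring
    have h3 : 0 < D ^ 3 * C' * (M / p) := by positivity
    linarith
  have hk0 : 0 < k := by linarith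
  by_cases hdeg : ∃ μ₀ : V p, μ₀ ≠ 0 ∧ ∀ i, dot μ₀ (v i) = 0
  · -- degenerate case
    obtain ⟨μ₀, hμ0, hμ⟩ := hdeg
    have hcard := card_two_le_nn_of_degenerate v N hP hμ0 hμ
    have hsub : ((univ : Finset (V p)).filter fun l =>
        l ≠ 0 ∧ k ≤ (nn v N l : ℝ) ∧ n < 2 * jj v N l) ⊆
        ((univ : Finset (V p)).filter fun l => l ≠ 0 ∧ 2 ≤ nn v N l) := by
      intro l hl
      simp only [mem_filter, mem_univ, true_and] at hl ⊢
      refine ⟨hl.1, ?_⟩
      have h3 : (1 : ℝ) < (nn v N l : ℝ) := lt_of_lt_of_le hk1 hl.2.1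
      have h4 : 1 < nn v N l := by exact_mod_cast h3
      omega
    have h5 : (((univ : Finset (V p)).filter fun l =>
        l ≠ 0 ∧ k ≤ (nn v N l : ℝ) ∧ n < 2 * jj v N l).card : ℝ) ≤ p := by
      exact_mod_cast (card_le_card hsub).trans hcard
    refine h5.trans ?_
    have h6 : 0 ≤ M / k ^ 2 := by positivity
    calc (p : ℝ) = 1 * p * 1 := by ring
      _ ≤ D ^ 3 * C' * p * (1 + M / k ^ 2) := by
          apply mul_le_mul _ (by linarith) zero_le_one (by positivity)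
          exact mul_le_mul_of_nonneg_right hCC hp0.le
  · push Not at hdeg
    have hspan : ∀ μ : V p, (∀ i, dot μ (v i) = 0) → μ = 0 := by
      intro μ hμ
      by_contra hne
      obtain ⟨i, hi⟩ := hdeg μ hne
      exact hi (hμ i)
    obtain ⟨κ, i1, i2, u, N', hκ, hN', hP', hMM, hnn, hjj⟩ := hdual ι hι p v N hN hP hspan
    rw [← hMdef] at hMM hnn
    set M' : ℝ := ∏ i, (N' i : ℝ) with hM'def
    have hthr : C' * (1 + M' / p) ≤ k * p / (D * M) :=
      BStep_threshold hD hC' hM hp0 hMM hk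
    have hbd := BStep_bound hD hC' hM hp0 hk0 hMM
    refine le_trans ?_ hbd
    -- the injection into the dual set
    have hmaps : ∀ l ∈ ((univ : Finset (V p)).filter fun l =>
        l ≠ 0 ∧ k ≤ (nn v N l : ℝ) ∧ n < 2 * jj v N l),
        perp l ≠ 0 ∧ k * p / (D * M) ≤ (nn u N' (perp l) : ℝ) ∧ 2 * jj u N' (perp l) ≤ n := by
      intro l hl
      simp only [mem_filter, mem_univ, true_and] at hl
      obtain ⟨hl0, hkl, hjl⟩ := hl
      refine ⟨by simpa using hl0, ?_, ?_⟩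
      · rw [div_le_iff₀ (by positivity)]
        have h3 := hnn l hl0
        have h4 : k * p ≤ (nn v N l : ℝ) * p := mul_le_mul_of_nonneg_right hkl hp0.le
        calc k * p ≤ D * M * (nn u N' (perp l) : ℝ) := h4.trans h3
          _ = (nn u N' (perp l) : ℝ) * (D * M) := by ring
      · have := hjj l hl0
        omega
    rcases Nat.lt_or_ge (Fintype.card κ) n with hlt | hge
    · have hfin := hG2 (Fintype.card κ) hlt κ rfl p u N' hN' hP' _ hthr
      refine le_trans ?_ hfin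
      have := card_le_card_of_injOn (s := ((univ : Finset (V p)).filter fun l =>
        l ≠ 0 ∧ k ≤ (nn v N l : ℝ) ∧ n < 2 * jj v N l))
        (t := ((univ : Finset (V p)).filter fun l =>
          l ≠ 0 ∧ k * p / (D * M) ≤ (nn u N' l : ℝ))) perp
        (fun l hl => by
          have h := hmaps l (by simpa using hl)
          simp only [coe_filter, mem_univ, true_and, Set.mem_setOf_eq]
          exact ⟨h.1, h.2.1⟩)
        (perp_injective.injOn)
      exact_mod_cast this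
    · have heq : Fintype.card κ = n := le_antisymm hκ hge
      have hfin := hA2 κ heq p u N' hN' hP' _ hthr
      refine le_trans ?_ hfin
      have := card_le_card_of_injOn (s := ((univ : Finset (V p)).filter fun l =>
        l ≠ 0 ∧ k ≤ (nn v N l : ℝ) ∧ n < 2 * jj v N l))
        (t := ((univ : Finset (V p)).filter fun l =>
          l ≠ 0 ∧ k * p / (D * M) ≤ (nn u N' l : ℝ) ∧ 2 * jj u N' l ≤ n)) perp
        (fun l hl => by
          have h := hmaps l (by simpa using hl)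
          simp only [coe_filter, mem_univ, true_and, Set.mem_setOf_eq]
          exact h)
        (perp_injective.injOn)
      exact_mod_cast this

end Pool.Agent.Lib.MP_fdf47d_co.SD
end

section

/-!
# The count of rich directions, all ranks
-/

namespace Pool.Agent.Lib.MP_fdf47d_co.SD

open Finset

theorem gStmt_all (n : ℕ) : ∃ C : ℝ, 1 ≤ C ∧ GStmt n C := by
  induction n using Nat.strong_induction_on with
  | _ n ih =>
    have hA := aStep n ih
    obtain ⟨C₂, h2, hB⟩ := bStep n ih hA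
    obtain ⟨C₁, h1, hA'⟩ := hA
    exact ⟨C₁ + C₂, by linarith, gStmt_of_ab h1 h2 hA' hB⟩

/-- One constant for all ranks up to `n`. -/
theorem gStmt_le (n : ℕ) : ∃ C : ℝ, 1 ≤ C ∧ ∀ m ≤ n, GStmt m C := by
  induction n with
  | zero =>
    obtain ⟨C, h1, h⟩ := gStmt_all 0
    exact ⟨C, h1, fun m hm => by obtain rfl : m = 0 := by omega
                                 exact h⟩
  | succ n ih =>
    obtain ⟨C, h1, h⟩ := ih
    obtain ⟨C', h1', h'⟩ := gStmt_all (n + 1)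
    refine ⟨max C C', le_max_of_le_left h1, fun m hm => ?_⟩
    rcases Nat.lt_or_ge m (n + 1) with hlt | hge
    · exact (h m (by omega)).mono (le_max_left _ _)
    · obtain rfl : m = n + 1 := by omega
      exact h'.mono (le_max_right _ _)

end Pool.Agent.Lib.MP_fdf47d_co.SD
end

section

/-!
# Rich lines of a proper progression

`Q = {a + lin v x | x ∈ bx N}` with `Proper v (2 N)`.

`card_inter_ln_le`: if `Q ∩ ln l c` is nonempty fix `x₀ ∈ bx N` with `a + lin v x₀` in it; for every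
point choose `x ∈ bx N`; `x ↦ x - x₀ ∈ bx (2N)` with `dot l (lin v (x - x₀)) = c - c = 0`; this is
an injection of `Q ∩ ln l c` into the set counted by `nn v (2N) l` (different points have different
`x`).

`sum_inter_ln`: for fixed `l` the sets `ln l c`, `c ∈ ZMod p`, partition the plane.

`exists_rich`: let `C'` be the constant of `GStmt n` (`gStmt_all`), `M = ∏ N_i`, so the product for
`2 N` is `2^n M`, and `|Q| ≤ |bx N| ≤ 3^n M` (`card_bx_le`).  Take `C = 6^n C'`.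
First bound: if `t ≥ C (1 + M/p) ≥ C' (1 + 2^n M/p)`, `GStmt` for `(v, 2N)` gives
`#{l ≠ 0 | t ≤ nn v (2N) l} ≤ C' p (1 + 2^n M / t²) ≤ C p (1 + M / t²)`.
Second bound: a pair `(l, c)`, `l ≠ 0` with `t ≤ |Q ∩ ln l c|` has `t ≤ nn v (2N) l`, and for each
such `l` at most `|Q| / t ≤ 3^n M / t` values of `c` (`sum_inter_ln`); the product is
`≤ C' p (1 + 2^n M / t²) 3^n M / t ≤ C p (1 + M/t²) M / t`.
-/

namespace Pool.Agent.Lib.MP_fdf47d_co.SD

open Finset

/-- The translate of the image of the box. -/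
noncomputable def gap {p : ℕ} {ι : Type*} [Fintype ι] [DecidableEq ι] (v : ι → V p) (N : ι → ℕ)
    (a : V p) : Finset (V p) := (bx N).image fun x => a + lin v x

theorem card_gap_le {p : ℕ} {ι : Type*} [Fintype ι] [DecidableEq ι] (v : ι → V p) {N : ι → ℕ}
    (hN : ∀ i, 1 ≤ N i) (a : V p) :
    ((gap v N a).card : ℝ) ≤ 3 ^ Fintype.card ι * ∏ i, (N i : ℝ) := by
  refine le_trans ?_ (card_bx_le hN)
  exact_mod_cast card_image_le

theorem card_inter_ln_le {p : ℕ} [Fact p.Prime] {ι : Type} [Fintype ι] [DecidableEq ι]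
    (v : ι → V p) (N : ι → ℕ) (a l : V p) (c : ZMod p) :
    (gap v N a ∩ ln l c).card ≤ nn v (fun i => 2 * N i) l := by
  classical
  rcases (gap v N a ∩ ln l c).eq_empty_or_nonempty with h | ⟨z₀, hz₀⟩
  · rw [h]; simp
  rw [mem_inter, mem_ln, gap, mem_image] at hz₀
  obtain ⟨⟨x₀, hx₀, rfl⟩, hc₀⟩ := hz₀
  have hsub : gap v N a ∩ ln l c ⊆
      ((bx (fun i => 2 * N i)).filter fun x => dot l (lin v x) = 0).image
        (fun x => a + lin v (x + x₀)) := by
    intro z hz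
    rw [mem_inter, mem_ln, gap, mem_image] at hz
    obtain ⟨⟨x, hx, rfl⟩, hc⟩ := hz
    rw [mem_image]
    refine ⟨x - x₀, ?_, ?_⟩
    · rw [mem_filter]
      refine ⟨sub_mem_bx_two hx hx₀, ?_⟩
      rw [lin_sub, dot_sub]
      rw [dot_add] at hc hc₀
      linear_combination hc - hc₀
    · rw [sub_add_cancel]
  exact (card_le_card hsub).trans card_image_le

theorem sum_inter_ln {p : ℕ} [Fact p.Prime] (Q : Finset (V p)) (l : V p) :
    ∑ c : ZMod p, ((Q ∩ ln l c).card : ℝ) = Q.card := by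
  classical
  have h := Finset.card_eq_sum_card_fiberwise (s := Q) (t := (univ : Finset (ZMod p)))
    (f := fun z => dot l z) (fun z _ => mem_coe.mpr (mem_univ _))
  rw [h]
  push_cast
  refine sum_congr rfl fun c _ => ?_
  congr 2
  ext z
  simp

theorem exists_rich (n : ℕ) : ∃ C : ℝ, 1 ≤ C ∧
    ∀ (ι : Type) [Fintype ι] [DecidableEq ι], Fintype.card ι = n →
    ∀ (p : ℕ) [Fact p.Prime] (v : ι → V p) (N : ι → ℕ), (∀ i, 1 ≤ N i) →
    Proper v (fun i => 2 * N i) → ∀ (a : V p) (t : ℝ), C * (1 + (∏ i, (N i : ℝ)) / p) ≤ t →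
    (((univ : Finset (V p)).filter fun l =>
        l ≠ 0 ∧ t ≤ (nn v (fun i => 2 * N i) l : ℝ)).card : ℝ)
      ≤ C * p * (1 + (∏ i, (N i : ℝ)) / t ^ 2) ∧
    (((univ : Finset (V p × ZMod p)).filter fun q =>
        q.1 ≠ 0 ∧ t ≤ ((gap v N a ∩ ln q.1 q.2).card : ℝ)).card : ℝ)
      ≤ C * p * (1 + (∏ i, (N i : ℝ)) / t ^ 2) * ((∏ i, (N i : ℝ)) / t) := by
  classical
  obtain ⟨C', hC1, hG⟩ := gStmt_all n
  refine ⟨6 ^ n * C', ?_, ?_⟩
  · have : (1 : ℝ) ≤ 6 ^ n := one_le_pow₀ (by norm_num)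
    nlinarith
  intro ι _ _ hι p _ v N hN hP a t ht
  have hp0 : (0 : ℝ) < p := by exact_mod_cast (Fact.out : p.Prime).pos
  set M : ℝ := ∏ i, (N i : ℝ) with hM
  have hM1 : 1 ≤ M := one_le_prod hN
  have h6 : (1 : ℝ) ≤ 6 ^ n := one_le_pow₀ (by norm_num)
  have h2 : (1 : ℝ) ≤ 2 ^ n := one_le_pow₀ (by norm_num)
  have h3 : (1 : ℝ) ≤ 3 ^ n := one_le_pow₀ (by norm_num)
  have h26 : (2 : ℝ) ^ n ≤ 6 ^ n := pow_le_pow_left₀ (by norm_num) (by norm_num) n
  have h36 : (3 : ℝ) ^ n ≤ 6 ^ n := pow_le_pow_left₀ (by norm_num) (by norm_num) n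
  have h236 : (3 : ℝ) ^ n * 2 ^ n = 6 ^ n := by rw [← mul_pow]; norm_num
  have hMp : 0 ≤ M / p := by positivity
  have ht1 : 1 ≤ t := by
    refine le_trans ?_ ht
    nlinarith [mul_nonneg (mul_nonneg (by positivity : (0 : ℝ) ≤ 6 ^ n) (by linarith : (0 : ℝ) ≤ C')) hMp]
  have ht0 : 0 < t := by linarith
  have hprod : (∏ i, (((2 * N i : ℕ)) : ℝ)) = 2 ^ n * M := by
    push_cast
    rw [prod_mul_distrib, prod_const, Finset.card_univ, hι]
  have hN2 : ∀ i, 1 ≤ 2 * N i := fun i => by have := hN i; omega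
  have hk : C' * (1 + (∏ i, (((2 * N i : ℕ)) : ℝ)) / p) ≤ t := by
    refine le_trans ?_ ht
    rw [hprod]
    have e1 : C' * (1 + 2 ^ n * M / p) = C' + C' * 2 ^ n * (M / p) := by ring
    have e2 : 6 ^ n * C' * (1 + M / p) = 6 ^ n * C' + C' * 6 ^ n * (M / p) := by ring
    rw [e1, e2]
    have e3 : C' ≤ 6 ^ n * C' := by nlinarith
    have e4 : C' * 2 ^ n * (M / p) ≤ C' * 6 ^ n * (M / p) :=
      mul_le_mul_of_nonneg_right (mul_le_mul_of_nonneg_left h26 (by linarith)) hMp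
    linarith
  have hS1 := hG ι hι p v (fun i => 2 * N i) hN2 hP t hk
  rw [hprod] at hS1
  have hMt : 0 ≤ M / t ^ 2 := by positivity
  set S1 := (univ : Finset (V p)).filter fun l => l ≠ 0 ∧ t ≤ (nn v (fun i => 2 * N i) l : ℝ)
    with hS1def
  constructor
  · refine hS1.trans ?_
    have e1 : C' * p * (1 + 2 ^ n * M / t ^ 2) = (C' + C' * 2 ^ n * (M / t ^ 2)) * p := by ring
    have e2 : 6 ^ n * C' * p * (1 + M / t ^ 2) = (6 ^ n * C' + C' * 6 ^ n * (M / t ^ 2)) * p := by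
      ring
    rw [e1, e2]
    apply mul_le_mul_of_nonneg_right _ hp0.le
    have e3 : C' ≤ 6 ^ n * C' := by nlinarith
    have e4 : C' * 2 ^ n * (M / t ^ 2) ≤ C' * 6 ^ n * (M / t ^ 2) :=
      mul_le_mul_of_nonneg_right (mul_le_mul_of_nonneg_left h26 (by linarith)) hMt
    linarith
  · set Q := gap v N a with hQ
    have hQc : (Q.card : ℝ) ≤ 3 ^ n * M := by
      have := card_gap_le v hN a
      rw [hι] at this
      exact this
    set T : V p → Finset (ZMod p) := fun l =>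
      univ.filter fun c => t ≤ ((Q ∩ ln l c).card : ℝ) with hT
    have hTc : ∀ l, ((T l).card : ℝ) ≤ 3 ^ n * M / t := by
      intro l
      rw [le_div_iff₀ ht0]
      calc ((T l).card : ℝ) * t = ∑ c ∈ T l, t := by rw [sum_const, nsmul_eq_mul]
        _ ≤ ∑ c ∈ T l, ((Q ∩ ln l c).card : ℝ) :=
            sum_le_sum fun c hc => (mem_filter.mp hc).2
        _ ≤ ∑ c : ZMod p, ((Q ∩ ln l c).card : ℝ) :=
            sum_le_sum_of_subset_of_nonneg (subset_univ _) fun _ _ _ => by positivity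
        _ = Q.card := sum_inter_ln Q l
        _ ≤ 3 ^ n * M := hQc
    have hsub : ((univ : Finset (V p × ZMod p)).filter fun q =>
        q.1 ≠ 0 ∧ t ≤ ((Q ∩ ln q.1 q.2).card : ℝ)) ⊆
        S1.biUnion fun l => (T l).image fun c => (l, c) := by
      intro q hq
      rw [mem_filter] at hq
      obtain ⟨-, hq1, hq2⟩ := hq
      rw [mem_biUnion]
      refine ⟨q.1, ?_, ?_⟩
      · rw [hS1def, mem_filter]
        refine ⟨mem_univ _, hq1, hq2.trans ?_⟩
        exact_mod_cast card_inter_ln_le v N a q.1 q.2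
      · rw [mem_image]
        exact ⟨q.2, mem_filter.mpr ⟨mem_univ _, hq2⟩, rfl⟩
    have hcard : (((univ : Finset (V p × ZMod p)).filter fun q =>
        q.1 ≠ 0 ∧ t ≤ ((Q ∩ ln q.1 q.2).card : ℝ)).card : ℝ) ≤ ∑ l ∈ S1, ((T l).card : ℝ) := by
      have e1 := (card_le_card hsub).trans card_biUnion_le
      have e2 : ∑ l ∈ S1, ((T l).image fun c => (l, c)).card ≤ ∑ l ∈ S1, (T l).card :=
        sum_le_sum fun l _ => card_image_le
      exact_mod_cast e1.trans e2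
    refine hcard.trans ?_
    have e3 : ∑ l ∈ S1, ((T l).card : ℝ) ≤ (S1.card : ℝ) * (3 ^ n * M / t) := by
      calc ∑ l ∈ S1, ((T l).card : ℝ) ≤ ∑ l ∈ S1, 3 ^ n * M / t := sum_le_sum fun l _ => hTc l
        _ = (S1.card : ℝ) * (3 ^ n * M / t) := by rw [sum_const, nsmul_eq_mul]
    refine e3.trans ?_
    have e4 : (S1.card : ℝ) * (3 ^ n * M / t) ≤
        C' * p * (1 + 2 ^ n * M / t ^ 2) * (3 ^ n * M / t) :=
      mul_le_mul_of_nonneg_right hS1 (by positivity)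
    refine e4.trans ?_
    have e5 : C' * p * (1 + 2 ^ n * M / t ^ 2) * (3 ^ n * M / t) =
        (3 ^ n + 3 ^ n * 2 ^ n * (M / t ^ 2)) * (C' * p * (M / t)) := by ring
    have e6 : 6 ^ n * C' * p * (1 + M / t ^ 2) * (M / t) =
        (6 ^ n + 6 ^ n * (M / t ^ 2)) * (C' * p * (M / t)) := by ring
    rw [e5, e6, h236]
    apply mul_le_mul_of_nonneg_right _ (by positivity)
    linarith

end Pool.Agent.Lib.MP_fdf47d_co.SD
end

section

/-!
# Incidences of a proper progression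

Let `C` be the constant of `exists_rich n`, `Q = gap v N a`, `M = ∏ N_i ≥ 1`, `K₀ = C (1 + M/p)`,
`R = max (√M) K₀`, `m = |L|` (`m ≥ 1`, the case `L = ∅` is trivial), `τ = max K₀ ((M²/m)^(1/3))`.
Write `f(l,c) = |Q ∩ ln l c|`, `ν(l) = nn v (2N) l`, so `f(l,c) ≤ ν(l)`.

`Σ_{ℓ ∈ L} |Q ∩ ℓ| ≤ m τ + Σ_{ℓ ∈ L, |Q ∩ ℓ| ≥ τ} |Q ∩ ℓ|`, and by `sum_lines_le` with
`F ℓ = |Q ∩ ℓ|` if `|Q ∩ ℓ| ≥ τ`, else `0`, the last sum is at most
`(1/(p-1)) Σ_{(l,c), l ≠ 0, f ≥ τ} f ≤ (2/p) (S₁ + S₂)`, where `S₁` is the part with `ν(l) ≥ R`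
and `S₂` the part with `ν(l) < R`.
`S₁ ≤ Σ_{l ≠ 0, ν(l) ≥ R} Σ_c f(l,c) ≤ C p (1 + M/R²) |Q| ≤ 2 C p 3^n M` (`sum_inter_ln`,
`R ≥ K₀`, `R² ≥ M`).
`S₂`: let `g(l,c) = f(l,c)` if `ν(l) < R`, else `0`, on the pairs with `l ≠ 0`.  For `t ≥ τ ≥ K₀`:
if `t ≥ R` there is no pair with `g ≥ t > 0` (`g ≤ ν < R`); if `t < R` then `K₀ < R`, so `R = √M`,
`t² < M`, and `#{g ≥ t} ≤ #{f ≥ t} ≤ C p (1 + M/t²) M/t ≤ 2 C p M² / t³`.
By `tail_sum_le` (with `A = 2 C p M²`, `T = τ > 0`): `S₂ ≤ 8 C p M² / τ²`.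
Total: `m τ + 4 C 3^n M + 16 C M² / τ²`, and `m τ ≤ m K₀ + M^(2/3) m^(2/3)`,
`M² / τ² ≤ M² / (M²/m)^(2/3) = M^(2/3) m^(2/3)`, `m K₀ = C (m + M m / p)`.
So `B = 20 * 3^n * C` works (`≥ 1 + 16 C`, `C`, `4 C 3^n`).
-/

namespace Pool.Agent.Lib.MP_fdf47d_co.SD

open Finset

private theorem IncGap_two_thirds {M : ℝ} (hM : 0 < M) :
    ∃ s : ℝ, 0 < s ∧ s ^ 3 = M ∧ M ^ (2 / 3 : ℝ) = s ^ 2 := by
  refine ⟨M ^ (1 / 3 : ℝ), Real.rpow_pos_of_pos hM _, ?_, ?_⟩
  · rw [← Real.rpow_natCast, ← Real.rpow_mul hM.le]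
    norm_num
  · rw [← Real.rpow_natCast, ← Real.rpow_mul hM.le]
    norm_num

private theorem IncGap_final {M m C K T D E X p τ : ℝ} (hC : 1 ≤ C) (hE : 1 ≤ E) (hM : 0 ≤ M) (hm : 0 ≤ m)
    (hD : 0 ≤ D) (hp : 0 < p) (hK : K = C * (1 + M / p)) (hτ : τ ≤ K + X) (hX : m * X = D)
    (hT : T ≤ m * τ + (4 * C * E * M + 16 * C * D)) :
    T ≤ 20 * E * C * (D + M * m / p + M + m) := by
  have h1 : m * τ ≤ m * K + D := by
    calc m * τ ≤ m * (K + X) := mul_le_mul_of_nonneg_left hτ hm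
      _ = m * K + D := by rw [mul_add, hX]
  have h2 : m * K = C * (m + M * m / p) := by rw [hK]; ring
  have hCE : C ≤ E * C := le_mul_of_one_le_left (by linarith) hE
  have hMm : 0 ≤ M * m / p := by positivity
  have h3 : C * (m + M * m / p) ≤ 20 * E * C * (m + M * m / p) := by
    apply mul_le_mul_of_nonneg_right _ (by positivity)
    linarith
  have h4 : (1 + 16 * C) * D ≤ 20 * E * C * D := by
    apply mul_le_mul_of_nonneg_right _ hD
    linarith
  have h5 : 4 * C * E * M ≤ 20 * E * C * M := by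
    apply mul_le_mul_of_nonneg_right _ hM
    nlinarith
  linarith

theorem inc_gap (n : ℕ) : ∃ B : ℝ, 1 ≤ B ∧
    ∀ (ι : Type) [Fintype ι] [DecidableEq ι], Fintype.card ι = n →
    ∀ (p : ℕ) [Fact p.Prime] (v : ι → V p) (N : ι → ℕ), (∀ i, 1 ≤ N i) →
    Proper v (fun i => 2 * N i) → ∀ (a : V p) (L : Finset (Finset (V p))),
    (∀ ℓ ∈ L, IsLine ℓ) →
    ∑ ℓ ∈ L, ((gap v N a ∩ ℓ).card : ℝ) ≤ B * TT p (∏ i, (N i : ℝ)) L.card := by
  classical
  obtain ⟨C, hC1, hC⟩ := exists_rich n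
  have h3n : (1 : ℝ) ≤ 3 ^ n := one_le_pow₀ (by norm_num)
  refine ⟨20 * 3 ^ n * C, by nlinarith, ?_⟩
  intro ι _ _ hι p _ v N hN hP a L hL
  have hpp : p.Prime := Fact.out
  have hp2 : (2 : ℝ) ≤ p := by exact_mod_cast hpp.two_le
  have hp0 : (0 : ℝ) < p := by linarith
  obtain ⟨M, hM⟩ : ∃ M : ℝ, M = ∏ i, (N i : ℝ) := ⟨_, rfl⟩
  have hM1 : 1 ≤ M := by rw [hM]; exact one_le_prod hN
  have hM0 : 0 < M := by linarith
  rw [← hM]
  rcases L.eq_empty_or_nonempty with hLe | hLne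
  · rw [hLe, Finset.sum_empty]
    exact mul_nonneg (by positivity) (TT_nonneg hM0.le (by positivity))
  obtain ⟨m, hm⟩ : ∃ m : ℝ, m = (L.card : ℝ) := ⟨_, rfl⟩
  have hm1 : 1 ≤ m := by
    rw [hm]
    exact_mod_cast Finset.card_pos.2 hLne
  have hm0 : 0 < m := by linarith
  rw [← hm]
  obtain ⟨K, hK⟩ : ∃ K : ℝ, K = C * (1 + M / p) := ⟨_, rfl⟩
  have hK0 : 0 < K := by rw [hK]; positivity
  obtain ⟨s, hs0, hs3, hs2⟩ := IncGap_two_thirds hM0
  obtain ⟨r, hr0, hr3, hr2⟩ := IncGap_two_thirds hm0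
  obtain ⟨X, hX⟩ : ∃ X : ℝ, X = s ^ 2 / r := ⟨_, rfl⟩
  have hX0 : 0 < X := by rw [hX]; positivity
  obtain ⟨τ, hτ⟩ : ∃ τ : ℝ, τ = max K X := ⟨_, rfl⟩
  have hτK : K ≤ τ := by rw [hτ]; exact le_max_left _ _
  have hτX : X ≤ τ := by rw [hτ]; exact le_max_right _ _
  have hτ0 : 0 < τ := hK0.trans_le hτK
  have hτle : τ ≤ K + X := by
    rw [hτ]
    exact max_le (by linarith) (by linarith)
  obtain ⟨R, hR⟩ : ∃ R : ℝ, R = max (Real.sqrt M) K := ⟨_, rfl⟩
  have hRK : K ≤ R := by rw [hR]; exact le_max_right _ _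
  have hR0 : 0 < R := hK0.trans_le hRK
  have hRM : M ≤ R ^ 2 := by
    have h1 : Real.sqrt M ≤ R := by rw [hR]; exact le_max_left _ _
    calc M = Real.sqrt M ^ 2 := (Real.sq_sqrt hM0.le).symm
      _ ≤ R ^ 2 := pow_le_pow_left₀ (Real.sqrt_nonneg _) h1 2
  obtain ⟨Q, hQ⟩ : ∃ Q, Q = gap v N a := ⟨_, rfl⟩
  have hQc : (Q.card : ℝ) ≤ 3 ^ n * M := by
    rw [hQ, hM, ← hι]
    exact card_gap_le v hN a
  have hfν : ∀ (l : V p) (c : ZMod p), ((Q ∩ ln l c).card : ℝ) ≤ (nn v (fun i => 2 * N i) l : ℝ) := by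
    intro l c
    rw [hQ]
    exact_mod_cast card_inter_ln_le v N a l c
  -- the truncated function
  have hsum1 : ∑ ℓ ∈ L, ((Q ∩ ℓ).card : ℝ) ≤ m * τ +
      ∑ ℓ ∈ L, (if τ ≤ ((Q ∩ ℓ).card : ℝ) then ((Q ∩ ℓ).card : ℝ) else 0) := by
    have h1 : m * τ = ∑ ℓ ∈ L, τ := by rw [Finset.sum_const, nsmul_eq_mul, ← hm]
    rw [h1, ← Finset.sum_add_distrib]
    refine Finset.sum_le_sum fun ℓ _ => ?_
    split_ifs with h
    · linarith
    · push Not at h
      linarith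
  have hF := sum_lines_le L hL (fun ℓ => if τ ≤ ((Q ∩ ℓ).card : ℝ) then ((Q ∩ ℓ).card : ℝ) else 0) (by
    intro ℓ
    split_ifs
    · positivity
    · exact le_rfl)
  beta_reduce at hF
  -- splitting the sum over the pairs
  obtain ⟨U, hU⟩ : ∃ U, U = (univ : Finset (V p × ZMod p)).filter (fun q => q.1 ≠ 0) := ⟨_, rfl⟩
  rw [← hU] at hF
  have hsplit : ∑ q ∈ U, (if τ ≤ ((Q ∩ ln q.1 q.2).card : ℝ) then ((Q ∩ ln q.1 q.2).card : ℝ) else 0) ≤
      (∑ q ∈ U, if R ≤ (nn v (fun i => 2 * N i) q.1 : ℝ) then ((Q ∩ ln q.1 q.2).card : ℝ) else 0) +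
      ∑ q ∈ U.filter (fun q => τ ≤ (if (nn v (fun i => 2 * N i) q.1 : ℝ) < R then
        ((Q ∩ ln q.1 q.2).card : ℝ) else 0)), (if (nn v (fun i => 2 * N i) q.1 : ℝ) < R then
        ((Q ∩ ln q.1 q.2).card : ℝ) else 0) := by
    rw [Finset.sum_filter, ← Finset.sum_add_distrib]
    refine Finset.sum_le_sum fun q _ => ?_
    by_cases h1 : R ≤ (nn v (fun i => 2 * N i) q.1 : ℝ)
    · rw [if_pos h1, if_neg (not_lt.2 h1), if_neg (not_le.2 hτ0), add_zero]
      split_ifs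
      · exact le_rfl
      · positivity
    · rw [if_neg h1, if_pos (not_le.1 h1), zero_add]
  -- the first part
  have hS1 : (∑ q ∈ U, if R ≤ (nn v (fun i => 2 * N i) q.1 : ℝ) then ((Q ∩ ln q.1 q.2).card : ℝ) else 0) ≤
      2 * C * p * (3 ^ n * M) := by
    have h1 : (∑ q ∈ U, if R ≤ (nn v (fun i => 2 * N i) q.1 : ℝ) then ((Q ∩ ln q.1 q.2).card : ℝ) else 0) =
        ∑ l ∈ (univ : Finset (V p)).filter (fun l => l ≠ 0 ∧ R ≤ (nn v (fun i => 2 * N i) l : ℝ)),
          (Q.card : ℝ) := by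
      rw [hU, Finset.sum_filter]
      rw [← Finset.univ_product_univ, Finset.sum_product]
      rw [Finset.sum_filter]
      refine Finset.sum_congr rfl fun l _ => ?_
      by_cases hl : l ≠ 0 ∧ R ≤ (nn v (fun i => 2 * N i) l : ℝ)
      · rw [if_pos hl, ← sum_inter_ln Q l]
        refine Finset.sum_congr rfl fun c _ => ?_
        rw [if_pos hl.1, if_pos hl.2]
      · rw [if_neg hl]
        refine Finset.sum_eq_zero fun c _ => ?_
        by_cases h2 : l ≠ 0
        · rw [if_pos h2, if_neg fun h3 => hl ⟨h2, h3⟩]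
        · rw [if_neg h2]
    rw [h1, Finset.sum_const, nsmul_eq_mul]
    have h2 := (hC ι hι p v N hN hP a R (by rw [← hM, ← hK]; exact hRK)).1
    rw [← hM] at h2
    have h3 : M / R ^ 2 ≤ 1 := by
      rw [div_le_one (by positivity)]
      exact hRM
    have h4 : C * p * (1 + M / R ^ 2) ≤ 2 * C * p := by
      have : C * p * (1 + M / R ^ 2) ≤ C * p * (1 + 1) := by gcongr
      linarith
    exact mul_le_mul (h2.trans h4) hQc (by positivity) (by positivity)
  -- the second part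
  have hS2 := tail_sum_le U (fun q => if (nn v (fun i => 2 * N i) q.1 : ℝ) < R then
      ((Q ∩ ln q.1 q.2).card : ℝ) else 0) (A := 2 * C * p * M ^ 2) (T := τ) hτ0 (by positivity) (by
    intro t ht
    have ht0 : 0 < t := hτ0.trans_le ht
    by_cases htR : R ≤ t
    · have h1 : U.filter (fun q => t ≤ (if (nn v (fun i => 2 * N i) q.1 : ℝ) < R then
          ((Q ∩ ln q.1 q.2).card : ℝ) else 0)) = ∅ := by
        rw [Finset.filter_eq_empty_iff]
        intro q _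
        rw [not_le]
        split_ifs with h2
        · exact (hfν q.1 q.2).trans_lt (h2.trans_le htR)
        · exact ht0
      rw [h1, Finset.card_empty, Nat.cast_zero]
      positivity
    · push Not at htR
      have h1 : t < Real.sqrt M := by
        rw [hR, lt_max_iff] at htR
        rcases htR with h | h
        · exact h
        · exact absurd (hτK.trans ht) (not_le.2 h)
      have h2 : t ^ 2 ≤ M := by
        calc t ^ 2 ≤ Real.sqrt M ^ 2 := pow_le_pow_left₀ ht0.le h1.le 2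
          _ = M := Real.sq_sqrt hM0.le
      have h3 := (hC ι hι p v N hN hP a t (by rw [← hM, ← hK]; exact hτK.trans ht)).2
      rw [← hM, ← hQ] at h3
      have h4 : U.filter (fun q => t ≤ (if (nn v (fun i => 2 * N i) q.1 : ℝ) < R then
          ((Q ∩ ln q.1 q.2).card : ℝ) else 0)) ⊆
          (univ : Finset (V p × ZMod p)).filter fun q => q.1 ≠ 0 ∧ t ≤ ((Q ∩ ln q.1 q.2).card : ℝ) := by
        intro q hq
        rw [hU, Finset.mem_filter, Finset.mem_filter] at hq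
        rw [Finset.mem_filter]
        refine ⟨Finset.mem_univ _, hq.1.2, ?_⟩
        have h5 := hq.2
        split_ifs at h5 with h6
        · exact h5
        · linarith
      have h5 : ((U.filter (fun q => t ≤ (if (nn v (fun i => 2 * N i) q.1 : ℝ) < R then
          ((Q ∩ ln q.1 q.2).card : ℝ) else 0))).card : ℝ) ≤
          (((univ : Finset (V p × ZMod p)).filter fun q =>
            q.1 ≠ 0 ∧ t ≤ ((Q ∩ ln q.1 q.2).card : ℝ)).card : ℝ) := by
        exact_mod_cast Finset.card_le_card h4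
      refine (h5.trans h3).trans ?_
      have h6 : 1 ≤ M / t ^ 2 := by
        rw [one_le_div (by positivity)]
        exact h2
      calc C * p * (1 + M / t ^ 2) * (M / t) ≤ C * p * (M / t ^ 2 + M / t ^ 2) * (M / t) := by gcongr
        _ = 2 * C * p * M ^ 2 / t ^ 3 := by
          field_simp
          ring)
  have hW := hF.trans (hsplit.trans (add_le_add hS1 hS2))
  -- division by `p - 1`
  obtain ⟨W₀, hW0⟩ : ∃ x : ℝ, x = ∑ ℓ ∈ L, (if τ ≤ ((Q ∩ ℓ).card : ℝ) then ((Q ∩ ℓ).card : ℝ) else 0) :=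
    ⟨_, rfl⟩
  rw [← hW0] at hW hsum1
  obtain ⟨D, hD⟩ : ∃ D : ℝ, D = s ^ 2 * r ^ 2 := ⟨_, rfl⟩
  have hD0 : 0 ≤ D := by rw [hD]; positivity
  have hmX : m * X = D := by
    rw [hX, hD, ← hr3]
    field_simp
  have hMτ : M ^ 2 / τ ^ 2 ≤ D := by
    have h1 : M ^ 2 / τ ^ 2 ≤ M ^ 2 / X ^ 2 := by gcongr
    refine h1.trans (le_of_eq ?_)
    rw [hX, hD, ← hs3]
    field_simp
  have hW2 : W₀ ≤ 4 * C * 3 ^ n * M + 16 * C * D := by
    have h1 : (p : ℝ) - 1 > 0 := by linarith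
    have h2 : ((p : ℝ) - 1) * W₀ ≤ ((p : ℝ) - 1) * (4 * C * 3 ^ n * M + 16 * C * D) := by
      refine hW.trans ?_
      have h3 : 4 * (2 * C * p * M ^ 2) / τ ^ 2 ≤ 8 * C * p * D := by
        calc 4 * (2 * C * p * M ^ 2) / τ ^ 2 = 8 * C * p * (M ^ 2 / τ ^ 2) := by ring
          _ ≤ 8 * C * p * D := by gcongr
      have h4 : (p : ℝ) ≤ 2 * (p - 1) := by linarith
      have h5 : 2 * C * p * (3 ^ n * M) + 8 * C * p * D ≤
          ((p : ℝ) - 1) * (4 * C * 3 ^ n * M + 16 * C * D) := by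
        have h6 : 2 * C * p * (3 ^ n * M) + 8 * C * p * D = p * (2 * C * 3 ^ n * M + 8 * C * D) := by ring
        have h7 : ((p : ℝ) - 1) * (4 * C * 3 ^ n * M + 16 * C * D) =
            (2 * (p - 1)) * (2 * C * 3 ^ n * M + 8 * C * D) := by ring
        rw [h6, h7]
        exact mul_le_mul_of_nonneg_right h4 (by positivity)
      linarith
    exact le_of_mul_le_mul_left h2 h1
  have hT : ∑ ℓ ∈ L, ((Q ∩ ℓ).card : ℝ) ≤ m * τ + (4 * C * 3 ^ n * M + 16 * C * D) :=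
    hsum1.trans (by linarith)
  have hfin := IncGap_final (K := K) (X := X) hC1 h3n hM0.le hm0.le hD0 hp0 hK hτle hmX hT
  unfold TT
  rw [hs2, hr2, ← hD, ← hQ]
  exact hfin

end Pool.Agent.Lib.MP_fdf47d_co.SD
end

section

/-!
# Incidences of the image of a ball of a normed lattice

Strong induction on `n` (only `n - 1` is used).  Let `C₁` be the constant of `nl_gap n`,
`B₁ ≥ 1` one constant for `inc_gap m`, all `m ≤ n`, `C₂` that of `nl_coset n (2 n C₁)`, `C₃` that of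
`nl_growth n (2 + n C₁)`, `B₄` that of the induction hypothesis (if `n ≥ 1`).
Take `e, N` from `nl_gap`, `v = φ ∘ e`.
Case 1: `Proper v (2N)`.  `img ν φ a ⊆ gap v N a` (`φ (Σ y_i • e_i) = lin v y`), so the sum is at
most `B₁ TT p (∏ N_i) |L| ≤ B₁ TT p (C₁ T) |L| ≤ B₁ C₁ TT p T |L|`, `T = |{ν ≤ 1}|` (`TT_mono`,
`TT_mul_le`).
Case 2: there is `y ≠ 0` in `bx (2N)` with `lin v y = 0`; `x = Σ y_i • e_i ≠ 0` (linear
independence), `φ x = 0`, `ν x ≤ Σ 2 N_i ν(e_i) ≤ 2 n C₁`.  Let `x₀ ≠ 0` be a nonzero element of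
`ker φ` with minimal `ν` (finite balls); `ν x₀ ≤ 2 n C₁`.
Case 2a: `Prim x₀`.  Let `G' = G ⧸ ℤ x₀` (`free_quot`, `finite_quot`, `finrank_quot`: rank `n - 1`),
`ν' = qn ν x₀` (`isNL_qn`), `φ' : G' → V p` induced by `φ` (`QuotientAddGroup.lift`).
`img ν φ a ⊆ img ν' φ' a` (`qn_mk_le`).  `{ν' ≤ 1}` is contained in the image of
`{ν ≤ 1 + n C₁ + 1}` (`exists_lift`, `ε = 1`), so `T' ≤ C₃ T`, and the induction hypothesis gives the
bound `B₄ TT p T' |L| ≤ B₄ C₃ TT p T |L|`.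
Case 2b: `x₀ = m • x₁` with `m ≠ 1, -1` (and `m ≠ 0`).  `ν x₁ = ν x₀ / |m| < ν x₀`, `x₁ ≠ 0`, so
`φ x₁ ≠ 0` by minimality; `m • φ x₁ = 0` and `V p` is a vector space over `ZMod p`, so `p ∣ m`,
`|m| ≥ p`, `ν x₁ * p ≤ ν x₀ ≤ 2 n C₁`.  Apply `nl_coset`.
-/

namespace Pool.Agent.Lib.MP_fdf47d_co.SD

open Finset

/-- The statement for rank `n` with constant `B`. -/
private def NLIncStmt (n : ℕ) (B : ℝ) : Prop :=
    ∀ (G : Type) [AddCommGroup G] [Module.Free ℤ G] [Module.Finite ℤ G],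
      Module.finrank ℤ G = n → ∀ ν : G → ℝ, IsNL ν →
      ∀ (p : ℕ) [Fact p.Prime] (φ : G →+ V p) (a : V p) (L : Finset (Finset (V p))),
      (∀ ℓ ∈ L, IsLine ℓ) →
      ∑ ℓ ∈ L, ((img ν φ a ∩ ℓ).card : ℝ) ≤ B * TT p ({x | ν x ≤ 1}.ncard : ℝ) L.card

private theorem nlInc_sum_mono {p : ℕ} {P Q : Finset (V p)} (h : P ⊆ Q)
    (L : Finset (Finset (V p))) :
    ∑ ℓ ∈ L, ((P ∩ ℓ).card : ℝ) ≤ ∑ ℓ ∈ L, ((Q ∩ ℓ).card : ℝ) :=
  sum_le_sum fun ℓ _ => by exact_mod_cast card_le_card (inter_subset_inter_right h)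

private theorem nlInc_step (n : ℕ) (B₄ : ℝ) (hB₄ : 1 ≤ B₄)
    (ih : ∀ k, k + 1 = n → NLIncStmt k B₄) : ∃ B : ℝ, 1 ≤ B ∧ NLIncStmt n B := by
  classical
  obtain ⟨C₁, hC₁, hgap⟩ := nl_gap n
  choose Bf hBf1 hBf using inc_gap
  obtain ⟨C₂, hC₂, hcoset⟩ := nl_coset n (2 * n * C₁)
  obtain ⟨C₃, hC₃, hgrow⟩ := nl_growth n (2 + n * C₁)
  obtain ⟨B₁, hB₁⟩ : ∃ B₁ : ℝ, B₁ = ∑ m ∈ range (n + 1), Bf m := ⟨_, rfl⟩
  have hBfle : ∀ m ≤ n, Bf m ≤ B₁ := by
    intro m hm
    rw [hB₁]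
    exact single_le_sum (f := Bf) (fun i _ => le_trans zero_le_one (hBf1 i))
      (mem_range.2 (by omega))
  have hB₁1 : 1 ≤ B₁ := le_trans (hBf1 0) (hBfle 0 (Nat.zero_le n))
  have hn0 : (0 : ℝ) ≤ n := Nat.cast_nonneg n
  have hB₁C₁ : 1 ≤ B₁ * C₁ := by nlinarith
  have hB₄C₃ : 1 ≤ B₄ * C₃ := by nlinarith
  refine ⟨B₁ * C₁ + C₂ + B₄ * C₃, by linarith, ?_⟩
  intro G _ _ _ hG ν hν p _ φ a L hL
  have hT0 : (0 : ℝ) ≤ ({x | ν x ≤ 1}.ncard : ℝ) := Nat.cast_nonneg _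
  have hL0 : (0 : ℝ) ≤ (L.card : ℝ) := Nat.cast_nonneg _
  have hTT : 0 ≤ TT p ({x | ν x ≤ 1}.ncard : ℝ) L.card := TT_nonneg hT0 hL0
  obtain ⟨κ, _, _, e, N, hκ, hN, hind, hNe, hrep, hprod⟩ := hgap G hG ν hν
  by_cases hP : Proper (fun i => φ (e i)) (fun i => 2 * N i)
  · -- Case 1
    have h1 := hBf (Fintype.card κ) κ rfl p (fun i => φ (e i)) N hN hP a L hL
    have hsub : img ν φ a ⊆ gap (fun i => φ (e i)) N a := by
      intro z hz
      obtain ⟨x, hx, rfl⟩ := mem_img.1 hz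
      obtain ⟨y, hy, rfl⟩ := hrep x hx
      unfold gap
      rw [mem_image]
      refine ⟨y, hy, ?_⟩
      congr 1
      unfold lin
      rw [map_sum]
      exact sum_congr rfl fun i _ => (map_zsmul φ _ _).symm
    have hM0 : (0 : ℝ) ≤ ∏ i, (N i : ℝ) := prod_nonneg fun i _ => Nat.cast_nonneg _
    have h2 : TT p (∏ i, (N i : ℝ)) L.card ≤ C₁ * TT p ({x | ν x ≤ 1}.ncard : ℝ) L.card :=
      (TT_mono hM0 hprod hL0).trans (TT_mul_le hT0 hC₁ hL0)
    have h3 : 0 ≤ TT p (∏ i, (N i : ℝ)) L.card := TT_nonneg hM0 hL0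
    calc ∑ ℓ ∈ L, ((img ν φ a ∩ ℓ).card : ℝ)
        ≤ ∑ ℓ ∈ L, ((gap (fun i => φ (e i)) N a ∩ ℓ).card : ℝ) := nlInc_sum_mono hsub L
      _ ≤ Bf (Fintype.card κ) * TT p (∏ i, (N i : ℝ)) L.card := h1
      _ ≤ B₁ * TT p (∏ i, (N i : ℝ)) L.card := mul_le_mul_of_nonneg_right (hBfle _ hκ) h3
      _ ≤ B₁ * (C₁ * TT p ({x | ν x ≤ 1}.ncard : ℝ) L.card) :=
          mul_le_mul_of_nonneg_left h2 (by linarith)
      _ = B₁ * C₁ * TT p ({x | ν x ≤ 1}.ncard : ℝ) L.card := by ring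
      _ ≤ (B₁ * C₁ + C₂ + B₄ * C₃) * TT p ({x | ν x ≤ 1}.ncard : ℝ) L.card :=
          mul_le_mul_of_nonneg_right (by linarith) hTT
  · -- Case 2
    obtain ⟨x, hx0, hφx, hνx⟩ : ∃ x : G, x ≠ 0 ∧ φ x = 0 ∧ ν x ≤ 2 * n * C₁ := by
      unfold Proper at hP
      push Not at hP
      obtain ⟨y, hy, hlin, hy0⟩ := hP
      refine ⟨∑ i, y i • e i, ?_, ?_, ?_⟩
      · intro h
        apply hy0
        funext i
        exact Fintype.linearIndependent_iff.1 hind y h i
      · rw [map_sum, ← hlin]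
        unfold lin
        exact sum_congr rfl fun i _ => map_zsmul φ _ _
      · refine (hν.sum_le _ _).trans ?_
        rw [mem_bx] at hy
        calc ∑ i, ν (y i • e i) ≤ ∑ _i : κ, 2 * C₁ := by
              refine sum_le_sum fun i _ => ?_
              rw [hν.zsmul]
              have h1 := hy i
              have h2 : |((y i : ℤ) : ℝ)| ≤ 2 * (N i : ℝ) := by
                rw [← Int.cast_abs]
                exact_mod_cast h1
              have h3 := hNe i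
              have h4 := hν.nonneg (e i)
              calc |((y i : ℤ) : ℝ)| * ν (e i) ≤ 2 * (N i : ℝ) * ν (e i) :=
                    mul_le_mul_of_nonneg_right h2 h4
                _ = 2 * ((N i : ℝ) * ν (e i)) := by ring
                _ ≤ 2 * C₁ := by linarith
          _ = (Fintype.card κ : ℝ) * (2 * C₁) := by
              rw [sum_const, Finset.card_univ, nsmul_eq_mul]
          _ ≤ (n : ℝ) * (2 * C₁) := by
              refine mul_le_mul_of_nonneg_right ?_ (by linarith)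
              exact_mod_cast hκ
          _ = 2 * n * C₁ := by ring
    obtain ⟨x₀, hx₀, hmin⟩ := Set.exists_min_image {x : G | ν x ≤ 2 * n * C₁ ∧ x ≠ 0 ∧ φ x = 0} ν
      ((hν.finite (2 * n * C₁)).subset fun x hx => hx.1) ⟨x, hνx, hx0, hφx⟩
    obtain ⟨hνx₀, hx₀0, hφx₀⟩ := hx₀
    have hmin' : ∀ z : G, z ≠ 0 → φ z = 0 → ν x₀ ≤ ν z := by
      intro z hz hφz
      rcases le_or_gt (ν z) (2 * n * C₁) with h | h
      · exact hmin z ⟨h, hz, hφz⟩
      · exact hνx₀.trans h.le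
    by_cases hprim : Prim x₀
    · -- Case 2a
      haveI := finite_quot x₀
      haveI := free_quot hprim
      have hfr := finrank_quot hprim
      rw [hG] at hfr
      have hker : ∀ z ∈ AddSubgroup.zmultiples x₀, φ z = 0 := by
        intro z hz
        obtain ⟨k, rfl⟩ := AddSubgroup.mem_zmultiples_iff.1 hz
        rw [map_zsmul, hφx₀, smul_zero]
      obtain ⟨φ', hφ'⟩ : ∃ φ' : (G ⧸ AddSubgroup.zmultiples x₀) →+ V p,
          ∀ z : G, φ' (QuotientAddGroup.mk z) = φ z :=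
        ⟨QuotientAddGroup.lift _ φ hker, fun z => QuotientAddGroup.lift_mk' _ hker z⟩
      have hν' := isNL_qn hν x₀
      have h1 := ih (Module.finrank ℤ (G ⧸ AddSubgroup.zmultiples x₀)) hfr
        (G ⧸ AddSubgroup.zmultiples x₀) rfl (qn ν x₀) hν' p φ' a L hL
      have hsub : img ν φ a ⊆ img (qn ν x₀) φ' a := by
        intro z hz
        obtain ⟨u, hu, rfl⟩ := mem_img.1 hz
        rw [mem_img]
        exact ⟨QuotientAddGroup.mk u, (qn_mk_le hν x₀ u).trans hu, by rw [hφ']⟩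
      have hT' : (({y | qn ν x₀ y ≤ 1}.ncard : ℕ) : ℝ) ≤ C₃ * ({x | ν x ≤ 1}.ncard : ℝ) := by
        refine le_trans ?_ (hgrow G hG ν hν)
        have hsub2 : {y | qn ν x₀ y ≤ 1} ⊆
            (fun u : G => (QuotientAddGroup.mk u : G ⧸ AddSubgroup.zmultiples x₀)) ''
              {u | ν u ≤ 2 + n * C₁} := by
          intro y hy
          obtain ⟨u, hu, hu2⟩ := exists_lift hν x₀ y (ε := 1) one_pos
          refine ⟨u, ?_, hu⟩
          have hy' : qn ν x₀ y ≤ 1 := hy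
          show ν u ≤ 2 + n * C₁
          linarith
        have h2 := (Set.ncard_le_ncard hsub2 ((hν.finite _).image _)).trans
          (Set.ncard_image_le (hν.finite _))
        exact_mod_cast h2
      have hT'0 : (0 : ℝ) ≤ (({y | qn ν x₀ y ≤ 1}.ncard : ℕ) : ℝ) := Nat.cast_nonneg _
      have h2 : TT p (({y | qn ν x₀ y ≤ 1}.ncard : ℕ) : ℝ) L.card ≤
          C₃ * TT p ({x | ν x ≤ 1}.ncard : ℝ) L.card :=
        (TT_mono hT'0 hT' hL0).trans (TT_mul_le hT0 hC₃ hL0)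
      calc ∑ ℓ ∈ L, ((img ν φ a ∩ ℓ).card : ℝ)
          ≤ ∑ ℓ ∈ L, ((img (qn ν x₀) φ' a ∩ ℓ).card : ℝ) := nlInc_sum_mono hsub L
        _ ≤ B₄ * TT p (({y | qn ν x₀ y ≤ 1}.ncard : ℕ) : ℝ) L.card := h1
        _ ≤ B₄ * (C₃ * TT p ({x | ν x ≤ 1}.ncard : ℝ) L.card) :=
            mul_le_mul_of_nonneg_left h2 (by linarith)
        _ = B₄ * C₃ * TT p ({x | ν x ≤ 1}.ncard : ℝ) L.card := by ring
        _ ≤ (B₁ * C₁ + C₂ + B₄ * C₃) * TT p ({x | ν x ≤ 1}.ncard : ℝ) L.card :=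
            mul_le_mul_of_nonneg_right (by linarith) hTT
    · -- Case 2b
      unfold Prim at hprim
      push Not at hprim
      obtain ⟨m, x₁, hmx, hm1, hm2⟩ := hprim hx₀0
      have hm0 : m ≠ 0 := by
        rintro rfl
        exact hx₀0 (by rw [hmx, zero_smul])
      have hx₁0 : x₁ ≠ 0 := by
        rintro rfl
        exact hx₀0 (by rw [hmx, smul_zero])
      have hpos := hν.pos hx₁0
      have hνm : ν x₀ = |(m : ℝ)| * ν x₁ := by rw [hmx, hν.zsmul]
      have habs2 : (2 : ℝ) ≤ |(m : ℝ)| := by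
        rw [← Int.cast_abs]
        have : 2 ≤ |m| := by
          rcases abs_cases m with ⟨h1, h2⟩ | ⟨h1, h2⟩ <;> omega
        exact_mod_cast this
      have hφx₁ : φ x₁ ≠ 0 := by
        intro h
        have := hmin' x₁ hx₁0 h
        nlinarith
      have hpm : (p : ℝ) ≤ |(m : ℝ)| := by
        have h1 : m • φ x₁ = 0 := by rw [← map_zsmul, ← hmx, hφx₀]
        have h2 : (m : ZMod p) = 0 := by
          by_contra hne
          apply hφx₁
          have e1 := congrArg Prod.fst h1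
          have e2 := congrArg Prod.snd h1
          simp only [Prod.smul_fst, Prod.smul_snd, zsmul_eq_mul, Prod.fst_zero,
            Prod.snd_zero] at e1 e2
          exact Prod.ext ((mul_eq_zero.1 e1).resolve_left hne)
            ((mul_eq_zero.1 e2).resolve_left hne)
        have h3 : (p : ℤ) ∣ m := (ZMod.intCast_zmod_eq_zero_iff_dvd m p).1 h2
        have h4 : (p : ℤ) ≤ |m| := Int.le_of_dvd (abs_pos.2 hm0) ((dvd_abs _ _).2 h3)
        rw [← Int.cast_abs]
        exact_mod_cast h4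
      have hR : ν x₁ * p ≤ 2 * n * C₁ := by
        have : ν x₁ * p ≤ |(m : ℝ)| * ν x₁ := by nlinarith
        rw [← hνm] at this
        exact this.trans hνx₀
      have h1 := hcoset G hG ν hν p φ a x₁ hφx₁ hR L hL
      exact h1.trans (mul_le_mul_of_nonneg_right (by linarith) hTT)

theorem nl_inc (n : ℕ) : ∃ B : ℝ, 1 ≤ B ∧
    ∀ (G : Type) [AddCommGroup G] [Module.Free ℤ G] [Module.Finite ℤ G],
      Module.finrank ℤ G = n → ∀ ν : G → ℝ, IsNL ν →
      ∀ (p : ℕ) [Fact p.Prime] (φ : G →+ V p) (a : V p) (L : Finset (Finset (V p))),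
      (∀ ℓ ∈ L, IsLine ℓ) →
      ∑ ℓ ∈ L, ((img ν φ a ∩ ℓ).card : ℝ) ≤ B * TT p ({x | ν x ≤ 1}.ncard : ℝ) L.card := by
  have key : ∀ n, ∃ B : ℝ, 1 ≤ B ∧ NLIncStmt n B := by
    intro n
    induction n with
    | zero => exact nlInc_step 0 1 le_rfl fun k hk => absurd hk (Nat.succ_ne_zero k)
    | succ k ih =>
      obtain ⟨B, hB, hs⟩ := ih
      refine nlInc_step (k + 1) B hB fun j hj => ?_
      have : j = k := by omega
      rw [this]
      exact hs
  exact key n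

end Pool.Agent.Lib.MP_fdf47d_co.SD
end

section

/-!
# The upper bound for sets of small doubling

Let `C₀` be the constant of `LogLog.result` (for `Γ = V p : Type`), `D = ⌊C₀ log (2K)⌋₊`,
`T₀ = (2K)^(C₀ log (2 + log (2K)))`, `B ≥ 1` one constant for `nl_inc m`, all `m ≤ D`.  (If `P` is
nonempty with `|P + P| ≤ K |P|` then `K ≥ 1` since `|P + P| ≥ |P|`.)  Let `Q, T` be the output for
`A = P`.
Case `Q.sub = ⊥`: `vol = |points| ≤ |P|`, `points = {ν ≤ 1}` (`exists_nl_of_body`), and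
`P ⊆ ⋃_{t ∈ T} img ν Q.hom (t + Q.base)`, so
`Σ_ℓ |P ∩ ℓ| ≤ Σ_{t ∈ T} Σ_ℓ |img .. ∩ ℓ| ≤ T₀ B TT p |P| |L|`.
Case `Q.sub ≠ ⊥`: let `d ≠ 0` be in `Q.sub`; `Q.sub ∋ t • d` for all `t ∈ 𝔽_p` (`t • d = n • d`).
`Q.sub` is a union of `|Q.sub| / p` cosets of `𝔽_p d` (Lagrange: choose representatives of the
subgroup `𝔽_p d` in `Q.sub`), so `carrier` is contained in the union of at most
`|points| |Q.sub| / p = vol / p ≤ |P| / p` cosets of `𝔽_p d`, and `P` in the union of at most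
`T₀ |P| / p` cosets.  `inc_cosets`: the sum is `≤ T₀ |P| |L| / p + |P| ≤ T₀ TT p |P| |L|`.
`C = T₀ * B` (if `K < 1` the hypothesis is never satisfied, any `C` works).
-/

namespace Pool.Agent.Lib.MP_fdf47d_co.SD

open Finset
open scoped Pointwise

theorem upper (K : ℝ) : ∃ C : ℝ, 1 ≤ C ∧ ∀ (p : ℕ) [Fact p.Prime] (P : Finset (V p)),
    P.Nonempty → ((P + P).card : ℝ) ≤ K * P.card →
    ∀ L : Finset (Finset (V p)), (∀ ℓ ∈ L, IsLine ℓ) →
    ∑ ℓ ∈ L, ((P ∩ ℓ).card : ℝ) ≤ C * TT p P.card L.card := by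
  classical
  obtain ⟨C₀, hC₀, hLL⟩ := Pool.Agent.Results.MP_dd2a7c_co.LogLog.result.{0}
  choose B hB1 hB using nl_inc
  set D : ℕ := ⌊C₀ * Real.log (2 * K)⌋₊ with hD
  set T₀ : ℝ := (2 * K) ^ (C₀ * Real.log (2 + Real.log (2 * K))) with hT₀
  set B' : ℝ := ∑ m ∈ range (D + 1), B m with hB'
  have hBle : ∀ m, m ≤ D → B m ≤ B' := fun m hm =>
    single_le_sum (f := B) (fun i _ => zero_le_one.trans (hB1 i)) (mem_range.mpr (by omega))
  have hB'1 : 1 ≤ B' := (hB1 0).trans (hBle 0 (Nat.zero_le _))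
  have hT1 : (1 : ℝ) ≤ max 1 T₀ := le_max_left _ _
  refine ⟨max 1 T₀ * B', one_le_mul_of_one_le_of_one_le hT1 hB'1, ?_⟩
  intro p _ P hne hK L hL
  obtain ⟨Q, T, hdim, hvol, hT, hcov⟩ := hLL (V p) K P hne hK
  have hdimD : Q.dim ≤ D := Nat.le_floor hdim
  have hTc : (T.card : ℝ) ≤ max 1 T₀ := hT.trans (le_max_right _ _)
  have hn0 : (0 : ℝ) ≤ (L.card : ℝ) := Nat.cast_nonneg _
  have hP0 : (0 : ℝ) ≤ (P.card : ℝ) := Nat.cast_nonneg _
  have hTT0 : 0 ≤ TT p (P.card : ℝ) (L.card : ℝ) := TT_nonneg hP0 hn0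
  have hB'0 : (0 : ℝ) ≤ B' := zero_le_one.trans hB'1
  obtain ⟨ν, hν, hpts⟩ := exists_nl_of_body Q
  have hset : {x | ν x ≤ 1} = Q.points := by
    ext x
    exact (hpts x).symm
  have hp0 : 0 < p := (Fact.out : p.Prime).pos
  have hpR : (0 : ℝ) < p := by exact_mod_cast hp0
  by_cases hsub : Q.sub = ⊥
  · -- no finite subgroup
    have hcard1 : Nat.card Q.sub = 1 := by rw [hsub]; exact AddSubgroup.card_bot
    have hnc : {x | ν x ≤ 1}.ncard ≤ P.card := by
      rw [hset]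
      have := hvol
      unfold Pool.Agent.Lib.MP_dd2a7c_co.CosetProg.vol at this
      rw [hcard1, one_mul] at this
      exact_mod_cast this
    have hPsub : ∀ ℓ ∈ L, ((P ∩ ℓ).card : ℝ) ≤
        ∑ t ∈ T, ((img ν Q.hom (t + Q.base) ∩ ℓ).card : ℝ) := by
      intro ℓ _
      have h1 : P ∩ ℓ ⊆ T.biUnion fun t => img ν Q.hom (t + Q.base) ∩ ℓ := by
        intro z hz
        rw [mem_inter] at hz
        obtain ⟨t, ht, g, hg, hzg⟩ := hcov z hz.1
        obtain ⟨v, hv, h, hh, hg'⟩ := hg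
        rw [hsub, AddSubgroup.mem_bot] at hh
        rw [mem_biUnion]
        refine ⟨t, ht, mem_inter.mpr ⟨mem_img.mpr ⟨v, (hpts v).mp hv, ?_⟩, hz.2⟩⟩
        rw [hzg, hg', hh, add_zero, add_assoc]
      have h2 := (card_le_card h1).trans card_biUnion_le
      exact_mod_cast h2
    calc ∑ ℓ ∈ L, ((P ∩ ℓ).card : ℝ)
        ≤ ∑ ℓ ∈ L, ∑ t ∈ T, ((img ν Q.hom (t + Q.base) ∩ ℓ).card : ℝ) :=
          sum_le_sum hPsub
      _ = ∑ t ∈ T, ∑ ℓ ∈ L, ((img ν Q.hom (t + Q.base) ∩ ℓ).card : ℝ) := sum_comm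
      _ ≤ ∑ _t ∈ T, B' * TT p (P.card : ℝ) (L.card : ℝ) := by
          refine sum_le_sum fun t _ => ?_
          have h3 := hB Q.dim (Fin Q.dim → ℤ) (Module.finrank_fin_fun ℤ) ν hν p Q.hom
            (t + Q.base) L hL
          refine h3.trans ?_
          have h4 : TT p ({x | ν x ≤ 1}.ncard : ℝ) (L.card : ℝ) ≤ TT p (P.card : ℝ) (L.card : ℝ) :=
            TT_mono (Nat.cast_nonneg _) (by exact_mod_cast hnc) hn0
          exact mul_le_mul (hBle _ hdimD) h4 (TT_nonneg (Nat.cast_nonneg _) hn0) hB'0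
      _ = T.card * (B' * TT p (P.card : ℝ) (L.card : ℝ)) := by
          rw [sum_const, nsmul_eq_mul]
      _ ≤ max 1 T₀ * (B' * TT p (P.card : ℝ) (L.card : ℝ)) :=
          mul_le_mul_of_nonneg_right hTc (mul_nonneg hB'0 hTT0)
      _ = max 1 T₀ * B' * TT p (P.card : ℝ) (L.card : ℝ) := by ring
  · -- a nonzero element of the subgroup
    obtain ⟨d, hdQ, hd⟩ : ∃ d ∈ Q.sub, d ≠ 0 := by
      by_contra hno
      push Not at hno
      exact hsub ((AddSubgroup.eq_bot_iff_forall _).mpr hno)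
    have hsm : ∀ c : ZMod p, c • d ∈ Q.sub := by
      intro c
      have h1 : c • d = c.val • d := by
        rw [← Nat.cast_smul_eq_nsmul (ZMod p), ZMod.natCast_zmod_val]
      rw [h1]
      exact AddSubgroup.nsmul_mem _ hdQ _
    set H : Finset (V p) := univ.filter fun z => z ∈ Q.sub with hH
    have hHmem : ∀ z, z ∈ H ↔ z ∈ Q.sub := by
      intro z
      simp [hH]
    have hHc : H.card = Nat.card Q.sub := by
      have h1 : (H : Set (V p)) = (Q.sub : Set (V p)) := by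
        ext z
        rw [mem_coe, hHmem]
        rfl
      rw [← Set.ncard_coe_finset, h1]
      rfl
    set lam : V p → ZMod p := dot (perp d) with hlam
    set Λ : Finset (ZMod p) := H.image lam with hΛ
    have hΛc : p * Λ.card ≤ H.card := by
      refine mul_card_image_le_card H p ?_
      intro v hv
      obtain ⟨h₀, hh₀, rfl⟩ := mem_image.mp hv
      have hmaps : ∀ c ∈ (univ : Finset (ZMod p)), h₀ + c • d ∈ H.filter fun x => lam x = lam h₀ := by
        intro c _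
        rw [mem_filter, hHmem]
        refine ⟨AddSubgroup.add_mem _ ((hHmem _).mp hh₀) (hsm c), ?_⟩
        change dot (perp d) (h₀ + c • d) = dot (perp d) h₀
        rw [dot_add, dot_smul, dot_perp_self, mul_zero, add_zero]
      have hinj : Set.InjOn (fun c : ZMod p => h₀ + c • d) ((univ : Finset (ZMod p)) : Set (ZMod p)) := by
        intro c _ c' _ hcc
        have h2 : c • d = c' • d := add_left_cancel hcc
        exact smul_left_injective (ZMod p) hd h2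
      have h3 := card_le_card_of_injOn _ hmaps hinj
      rwa [card_univ, ZMod.card] at h3
    have hrep : ∀ v : ZMod p, ∃ z : V p, v ∈ Λ → z ∈ H ∧ lam z = v := by
      intro v
      by_cases hv : v ∈ Λ
      · obtain ⟨z, hz, hzv⟩ := mem_image.mp hv
        exact ⟨z, fun _ => ⟨hz, hzv⟩⟩
      · exact ⟨0, fun h => absurd h hv⟩
    choose rep hrep using hrep
    have hpf : (Q.points).Finite := by
      rw [← hset]
      exact hν.finite 1
    set pts := hpf.toFinset with hptsdef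
    have hptsc : pts.card = Q.points.ncard := (Set.ncard_eq_toFinset_card _ hpf).symm
    set S : Finset (V p) := (T ×ˢ (pts ×ˢ Λ.image rep)).image
      (fun q => q.1 + (Q.base + Q.hom q.2.1 + q.2.2)) with hS
    have hQS : ∀ z ∈ P, ∃ s ∈ S, ∃ t : ZMod p, z = s + t • d := by
      intro z hz
      obtain ⟨t, ht, g, hg, hzg⟩ := hcov z hz
      obtain ⟨v, hv, h, hh, hg'⟩ := hg
      have hhH : h ∈ H := (hHmem h).mpr hh
      have hΛm : lam h ∈ Λ := mem_image_of_mem _ hhH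
      obtain ⟨hr1, hr2⟩ := hrep _ hΛm
      obtain ⟨c, hc⟩ := exists_smul_of_dot_perp (z := h - rep (lam h)) hd (by
        rw [dot_sub]
        change lam h - lam (rep (lam h)) = 0
        rw [hr2, sub_self])
      refine ⟨t + (Q.base + Q.hom v + rep (lam h)), ?_, c, ?_⟩
      · rw [hS, mem_image]
        refine ⟨(t, (v, rep (lam h))), ?_, rfl⟩
        rw [mem_product, mem_product]
        exact ⟨ht, hpf.mem_toFinset.mpr hv, mem_image_of_mem _ hΛm⟩
      · rw [hzg, hg', ← hc]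
        abel
    have hSc : p * S.card ≤ T.card * P.card := by
      have h1 : S.card ≤ T.card * (pts.card * Λ.card) := by
        refine card_image_le.trans ?_
        rw [card_product, card_product]
        exact Nat.mul_le_mul_left _ (Nat.mul_le_mul_left _ card_image_le)
      have h2 : pts.card * H.card ≤ P.card := by
        rw [hptsc, hHc, mul_comm]
        have h3 := hvol
        unfold Pool.Agent.Lib.MP_dd2a7c_co.CosetProg.vol at h3
        exact_mod_cast h3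
      calc p * S.card ≤ p * (T.card * (pts.card * Λ.card)) := Nat.mul_le_mul_left _ h1
        _ = T.card * (pts.card * (p * Λ.card)) := by ring
        _ ≤ T.card * (pts.card * H.card) :=
            Nat.mul_le_mul_left _ (Nat.mul_le_mul_left _ hΛc)
        _ ≤ T.card * P.card := Nat.mul_le_mul_left _ h2
    have hSc' : (S.card : ℝ) ≤ T.card * P.card / p := by
      rw [le_div_iff₀ hpR, mul_comm]
      exact_mod_cast hSc
    have h5 := inc_cosets P hd S hQS L hL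
    have hT0 : (0 : ℝ) ≤ max 1 T₀ := zero_le_one.trans hT1
    calc ∑ ℓ ∈ L, ((P ∩ ℓ).card : ℝ) ≤ S.card * L.card + P.card := h5
      _ ≤ (max 1 T₀ * P.card / p) * L.card + max 1 T₀ * P.card := by
          refine add_le_add (mul_le_mul_of_nonneg_right (hSc'.trans ?_) hn0) ?_
          · exact div_le_div_of_nonneg_right (mul_le_mul_of_nonneg_right hTc hP0) hpR.le
          · nlinarith
      _ = max 1 T₀ * (P.card * L.card / p + P.card) := by ring
      _ ≤ max 1 T₀ * (B' * TT p (P.card : ℝ) (L.card : ℝ)) := by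
          refine mul_le_mul_of_nonneg_left ?_ hT0
          have h6 : (P.card : ℝ) * L.card / p + P.card ≤ TT p (P.card : ℝ) (L.card : ℝ) := by
            unfold TT
            have h7 : (0 : ℝ) ≤ (P.card : ℝ) ^ (2 / 3 : ℝ) * (L.card : ℝ) ^ (2 / 3 : ℝ) := by
              positivity
            linarith
          nlinarith
      _ = max 1 T₀ * B' * TT p (P.card : ℝ) (L.card : ℝ) := by ring

end Pool.Agent.Lib.MP_fdf47d_co.SD
end
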